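import Pool.Agent.PP5N.Defs

/-!
# PP5 (d1): counting with a reduced basis
-/

set_option autoImplicit false

namespace Pool.Agent.PP5N

open Matrix Pool.Agent.PP5B

private theorem cn1_sum {n k : ℕ} (hk : k ≤ n) (f : Fin n → Fin 4 → ℤ)
    (h0 : ∀ i : Fin n, k ≤ i.val → f i = 0) :
    ∑ i : Fin n, f i = ∑ i : Fin k, f (Fin.castLE hk i) := by
  obtain ⟨d, rfl⟩ := Nat.exists_eq_add_of_le hk
  rw [Fin.sum_univ_add]
  have h1 : ∑ i : Fin d, f (Fin.natAdd k i) = 0 :=
    Finset.sum_eq_zero fun i _ => h0 _ (by simp)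
  rw [h1, add_zero]
  rfl

private theorem cn1_two {n : ℕ} (b : Fin n → Fin 4 → ℤ) (g : Fin n → ℤ)
    (h0 : ∀ i : Fin n, 2 ≤ i.val → g i = 0) :
    ∑ i : Fin n, g i • b i =
      (if h : 0 < n then g ⟨0, h⟩ else 0) • (if h : 0 < n then b ⟨0, h⟩ else 0) +
      (if h : 1 < n then g ⟨1, h⟩ else 0) • (if h : 1 < n then b ⟨1, h⟩ else 0) := by
  rcases n with _ | _ | n
  · simp
  · simp
  · rw [cn1_sum (k := 2) (by omega) (fun i => g i • b i)
      (fun i hi => by rw [h0 i hi, zero_smul]), Fin.sum_univ_two]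
    have h1 : 0 < n + 1 + 1 := by omega
    have h2 : 1 < n + 1 + 1 := by omega
    rw [dif_pos h1, dif_pos h2, dif_pos h1, dif_pos h2]
    rfl

private theorem cn1_cnt {C0 : ℝ} {w : Fin 4 → ℝ} {u : ℝ} {n k : ℕ} (hk : k ≤ n)
    (b : Fin n → Fin 4 → ℤ) (hpos : ∀ i, 0 < PP5.nw w (b i)) (X : Finset (Fin 4 → ℤ))
    (c : (Fin 4 → ℤ) → Fin n → ℤ) (hc : ∀ m ∈ X, m = ∑ i, c m i • b i)
    (hb : ∀ m ∈ X, ∀ i, |(c m i : ℝ)| * PP5.nw w (b i) ≤ C0 * u)
    (h1 : ∀ i : Fin k, PP5.nw w (b (Fin.castLE hk i)) ≤ C0 * u)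
    (h0 : ∀ m ∈ X, ∀ i : Fin n, k ≤ i.val → c m i = 0) :
    (X.card : ℝ) * ∏ i : Fin k, PP5.nw w (b (Fin.castLE hk i)) ≤ (3 * C0 * u) ^ k := by
  classical
  set K : Fin k → ℝ := fun i => C0 * u / PP5.nw w (b (Fin.castLE hk i)) with hK
  have hK1 : ∀ i, 1 ≤ K i := fun i => by
    rw [hK]
    show 1 ≤ C0 * u / PP5.nw w (b (Fin.castLE hk i))
    rw [le_div_iff₀ (hpos _), one_mul]
    exact h1 i
  let f : (Fin 4 → ℤ) → (Fin k → ℤ) := fun m i => c m (Fin.castLE hk i)
  have hinj : Set.InjOn f (X : Set (Fin 4 → ℤ)) := by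
    intro m hm m' hm' he
    have hm := Finset.mem_coe.mp hm
    have hm' := Finset.mem_coe.mp hm'
    have hcc : c m = c m' := by
      funext i
      by_cases hi : i.val < k
      · have := congrFun he ⟨i.val, hi⟩
        exact this
      · rw [h0 m hm i (by omega), h0 m' hm' i (by omega)]
    rw [hc m hm, hc m' hm', hcc]
  have hsub : X.image f ⊆ Fintype.piFinset (fun i : Fin k => Finset.Icc (-⌊K i⌋) ⌊K i⌋) := by
    intro g hg
    obtain ⟨m, hm, rfl⟩ := Finset.mem_image.mp hg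
    rw [Fintype.mem_piFinset]
    intro i
    rw [Finset.mem_Icc, ← abs_le, Int.le_floor]
    push_cast
    show |(c m (Fin.castLE hk i) : ℝ)| ≤ C0 * u / PP5.nw w (b (Fin.castLE hk i))
    rw [le_div_iff₀ (hpos _)]
    exact hb m hm _
  have hcard : (X.card : ℝ) ≤ ∏ i : Fin k, (3 * K i) := by
    have e1 : X.card = (X.image f).card := (Finset.card_image_of_injOn hinj).symm
    have e2 := Finset.card_le_card hsub
    rw [← e1, Fintype.card_piFinset] at e2
    have e3 : (X.card : ℝ) ≤ ∏ i : Fin k, (((Finset.Icc (-⌊K i⌋) ⌊K i⌋).card : ℕ) : ℝ) := by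
      exact_mod_cast e2
    refine e3.trans ?_
    refine Finset.prod_le_prod (fun i _ => Nat.cast_nonneg _) fun i _ => ?_
    rw [Int.card_Icc]
    have f1 : 1 ≤ ⌊K i⌋ := by
      rw [Int.le_floor]
      exact_mod_cast hK1 i
    have f2 : (⌊K i⌋ : ℝ) ≤ K i := Int.floor_le _
    have f3 : (((⌊K i⌋ + 1 - -⌊K i⌋).toNat : ℕ) : ℝ) = ((⌊K i⌋ + 1 - -⌊K i⌋ : ℤ) : ℝ) := by
      have : (((⌊K i⌋ + 1 - -⌊K i⌋).toNat : ℕ) : ℤ) = ⌊K i⌋ + 1 - -⌊K i⌋ :=
        Int.toNat_of_nonneg (by omega)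
      exact_mod_cast congrArg (fun t : ℤ => (t : ℝ)) this
    rw [f3]
    push_cast
    have := hK1 i
    linarith
  have hprod0 : 0 ≤ ∏ i : Fin k, PP5.nw w (b (Fin.castLE hk i)) :=
    Finset.prod_nonneg fun i _ => (hpos _).le
  refine (mul_le_mul_of_nonneg_right hcard hprod0).trans ?_
  rw [← Finset.prod_mul_distrib]
  have : ∀ i : Fin k, 3 * K i * PP5.nw w (b (Fin.castLE hk i)) = 3 * C0 * u := by
    intro i
    show 3 * (C0 * u / PP5.nw w (b (Fin.castLE hk i))) * PP5.nw w (b (Fin.castLE hk i)) =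
      3 * C0 * u
    have := (hpos (Fin.castLE hk i)).ne'
    field_simp
  rw [Finset.prod_congr rfl fun i _ => this i, Finset.prod_const, Finset.card_univ,
    Fintype.card_fin]

/-- size 3.  `b` is a reduced basis (`PP5.red_int`) of a lattice in `Z^4` with weighted norm `nw w`; the lattice points `m` with
`nw w m ≤ u` have `|c i| * nw w (b i) ≤ C u`.  Let `d` be the number of `i` with `nw w (b i) ≤ C u` (they are the first `d`, the norms are
nondecreasing): the other coefficients vanish, and the number of points is at most `∏_{i < d} (2 C u / nw (b i) + 1) ≤ ∏_{i<d} 3 C u / nw (b i)`.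
So either `d = k` for one of `k = 3, 4` and the stated bound holds, or all the points are combinations of two vectors of the lattice (`b 0`, `b 1`,
or `0` when the index does not exist). -/
theorem cn1 : ∃ C : ℝ, 1 ≤ C ∧ ∀ (w : Fin 4 → ℝ), (∀ i, 0 < w i) → ∀ (Γ : AddSubgroup (Fin 4 → ℤ)) (u : ℝ), 0 < u →
    ∀ X : Finset (Fin 4 → ℤ), (∀ m ∈ X, m ∈ Γ ∧ ∀ i, |(m i : ℝ)| ≤ u * w i) →
    (∃ b : Fin 4 → Fin 4 → ℤ, (∀ i, b i ∈ Γ) ∧ (Matrix.of b).det ≠ 0 ∧
        (X.card : ℝ) * ∏ i, PP5.nw w (b i) ≤ C * u ^ 4) ∨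
    (∃ b : Fin 3 → Fin 4 → ℤ, (∀ i, b i ∈ Γ) ∧ (∀ c : Fin 3 → ℤ, ∑ i, c i • b i = 0 → c = 0) ∧
        (X.card : ℝ) * ∏ i, PP5.nw w (b i) ≤ C * u ^ 3) ∨
    (∃ b b' : Fin 4 → ℤ, ∀ m ∈ X, ∃ x y : ℤ, m = x • b + y • b') := by
  obtain ⟨C0, hC0, hred⟩ := PP5.red_int 4
  refine ⟨(3 * C0) ^ 4, one_le_pow₀ (by linarith), ?_⟩
  intro w hw Γ u hu X hX
  obtain ⟨n, b, hn, hbL, hb0, hmono, hspan, hbd⟩ := hred w hw Γ
  have hpos : ∀ i, 0 < PP5.nw w (b i) := fun i => PP5.nw_pos hw (hb0 i)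
  -- coefficients
  have hex : ∀ m : Fin 4 → ℤ, ∃ c : Fin n → ℤ, m ∈ X → m = ∑ i, c i • b i := by
    intro m
    by_cases hm : m ∈ X
    · obtain ⟨c, hc⟩ := hspan m (hX m hm).1
      exact ⟨c, fun _ => hc⟩
    · exact ⟨0, fun h => absurd h hm⟩
  choose c hc using hex
  have hb : ∀ m ∈ X, ∀ i, |(c m i : ℝ)| * PP5.nw w (b i) ≤ C0 * u := by
    intro m hm i
    refine (hbd (c m) i).trans ?_
    refine mul_le_mul_of_nonneg_left ?_ (by linarith)
    rw [← hc m hm]
    exact (PP5.nw_le_iff hw hu.le).mpr (hX m hm).2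
  have hz : ∀ m ∈ X, ∀ i, C0 * u < PP5.nw w (b i) → c m i = 0 := by
    intro m hm i hi
    by_contra hne
    have h1 : (1 : ℝ) ≤ |(c m i : ℝ)| := by
      have : 1 ≤ |c m i| := Int.one_le_abs hne
      exact_mod_cast this
    have h2 := hb m hm i
    have h3 : 1 * PP5.nw w (b i) ≤ |(c m i : ℝ)| * PP5.nw w (b i) :=
      mul_le_mul_of_nonneg_right h1 (hpos i).le
    linarith
  have hind : ∀ g : Fin n → ℤ, ∑ i, g i • b i = 0 → g = 0 := by
    intro g hg
    funext i
    by_contra hne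
    have hne : g i ≠ 0 := hne
    have h1 : (1 : ℝ) ≤ |(g i : ℝ)| := by
      have : 1 ≤ |g i| := Int.one_le_abs hne
      exact_mod_cast this
    have h2 := hbd g i
    rw [hg] at h2
    have h4 : PP5.nw w (0 : Fin 4 → ℤ) = 0 := by
      have h5 : PP5.nw w (0 : Fin 4 → ℤ) ≤ 0 := by
        rw [PP5.nw_le_iff hw le_rfl]
        intro i
        simp
      exact le_antisymm h5 (PP5.nw_nonneg _ _)
    rw [h4, mul_zero] at h2
    have h3 : 1 * PP5.nw w (b i) ≤ |(g i : ℝ)| * PP5.nw w (b i) :=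
      mul_le_mul_of_nonneg_right h1 (hpos i).le
    have := hpos i
    linarith
  by_cases hA : ∃ h : n = 4, PP5.nw w (b ⟨3, by omega⟩) ≤ C0 * u
  · obtain ⟨h4, h3⟩ := hA
    subst h4
    left
    refine ⟨b, hbL, ?_, ?_⟩
    · intro hdet
      obtain ⟨v, hv0, hv⟩ := Matrix.exists_vecMul_eq_zero_iff.mpr hdet
      apply hv0
      apply hind
      funext k
      have h1 := congrFun hv k
      rw [Finset.sum_apply]
      simpa [Matrix.vecMul, dotProduct] using h1
    · have h1 := cn1_cnt (C0 := C0) (w := w) (u := u) (le_refl 4) b hpos X c hc hb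
        (fun i => (hmono _ _ (by
          rw [Fin.le_def]
          show i.val ≤ 3
          omega)).trans h3)
        (fun m _ i hi => absurd i.isLt (by omega))
      have h2 : (3 * C0 * u) ^ 4 = (3 * C0) ^ 4 * u ^ 4 := by ring
      rw [h2] at h1
      exact h1
  · have hz3 : ∀ m ∈ X, ∀ i : Fin n, 3 ≤ i.val → c m i = 0 := by
      intro m hm i hi
      apply hz m hm i
      by_contra hle
      push Not at hle
      apply hA
      have hi' := i.isLt
      refine ⟨by omega, ?_⟩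
      have : i = ⟨3, by omega⟩ := Fin.ext (by show i.val = 3; omega)
      rw [← this]
      exact hle
    by_cases hB : ∃ h : 3 ≤ n, PP5.nw w (b ⟨2, by omega⟩) ≤ C0 * u
    · obtain ⟨h3n, h2⟩ := hB
      right
      left
      refine ⟨fun i => b (Fin.castLE h3n i), fun i => hbL _, ?_, ?_⟩
      · intro g hg
        have h1 := hind (fun i => if h : i.val < 3 then g ⟨i.val, h⟩ else 0) ?_
        · funext i
          have h5 := congrFun h1 (Fin.castLE h3n i)
          have h6 : (Fin.castLE h3n i).val < 3 := i.isLt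
          simp only [h6, dif_pos] at h5
          exact h5
        · rw [← hg, cn1_sum h3n (fun i => (if h : i.val < 3 then g ⟨i.val, h⟩ else 0) • b i)]
          · refine Finset.sum_congr rfl fun i _ => ?_
            have h6 : (Fin.castLE h3n i).val < 3 := i.isLt
            show (if h : (Fin.castLE h3n i).val < 3 then g ⟨(Fin.castLE h3n i).val, h⟩ else 0) •
              b (Fin.castLE h3n i) = g i • b (Fin.castLE h3n i)
            rw [dif_pos h6]
            rfl
          · intro i hi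
            have h6 : ¬ i.val < 3 := by omega
            rw [dif_neg h6, zero_smul]
      · have h1 := cn1_cnt (C0 := C0) (w := w) (u := u) h3n b hpos X c hc hb
          (fun i => (hmono _ _ (by
            rw [Fin.le_def]
            show i.val ≤ 2
            omega)).trans h2) hz3
        have h5 : (3 * C0 * u) ^ 3 ≤ (3 * C0) ^ 4 * u ^ 3 := by
          have h6 : (3 * C0 * u) ^ 3 = (3 * C0) ^ 3 * u ^ 3 := by ring
          rw [h6]
          refine mul_le_mul_of_nonneg_right ?_ (by positivity)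
          exact pow_le_pow_right₀ (by linarith) (by norm_num)
        exact h1.trans h5
    · right
      right
      have hz2 : ∀ m ∈ X, ∀ i : Fin n, 2 ≤ i.val → c m i = 0 := by
        intro m hm i hi
        apply hz m hm i
        by_contra hle
        push Not at hle
        apply hB
        have hi' := i.isLt
        refine ⟨by omega, ?_⟩
        exact (hmono _ _ (by rw [Fin.le_def]; exact hi)).trans hle
      refine ⟨if h : 0 < n then b ⟨0, h⟩ else 0, if h : 1 < n then b ⟨1, h⟩ else 0, ?_⟩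
      intro m hm
      refine ⟨if h : 0 < n then c m ⟨0, h⟩ else 0, if h : 1 < n then c m ⟨1, h⟩ else 0, ?_⟩
      have h1 := cn1_two b (c m) (hz2 m hm)
      rw [← h1]
      exact hc m hm

end Pool.Agent.PP5N
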