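import Pool.Agent.PP5N.Defs

/-!
# PP5 (d1): lower bounds for the products of the norms
-/

set_option autoImplicit false

namespace Pool.Agent.PP5N

open Matrix Pool.Agent.PP5B

private theorem cn2_det {k : ℕ} (M : Matrix (Fin k) (Fin k) ℤ) (r c : Fin k → ℝ)
    (h : ∀ i j, |(M i j : ℝ)| ≤ r i * c j) :
    |(M.det : ℝ)| ≤ (k.factorial : ℝ) * ((∏ i, r i) * ∏ j, c j) := by
  rw [Matrix.det_apply]
  push_cast
  refine (Finset.abs_sum_le_sum_abs _ _).trans ?_
  have h1 : ∀ σ : Equiv.Perm (Fin k), |((Equiv.Perm.sign σ • ∏ i, M (σ i) i : ℤ) : ℝ)|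
      ≤ (∏ i, r i) * ∏ j, c j := by
    intro σ
    have h2 : |((Equiv.Perm.sign σ • ∏ i, M (σ i) i : ℤ) : ℝ)| = ∏ i, |(M (σ i) i : ℝ)| := by
      rcases Int.units_eq_one_or (Equiv.Perm.sign σ) with h3 | h3
      · rw [h3, one_smul]
        push_cast
        rw [Finset.abs_prod]
      · rw [h3]
        simp only [Units.neg_smul, one_smul]
        push_cast
        rw [abs_neg, Finset.abs_prod]
    rw [h2]
    calc ∏ i, |(M (σ i) i : ℝ)| ≤ ∏ i, (r (σ i) * c i) :=
          Finset.prod_le_prod (fun i _ => abs_nonneg _) fun i _ => h (σ i) i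
      _ = (∏ i, r i) * ∏ j, c j := by
          rw [Finset.prod_mul_distrib, Equiv.prod_comp σ r]
  calc ∑ σ : Equiv.Perm (Fin k), |((Equiv.Perm.sign σ • ∏ i, M (σ i) i : ℤ) : ℝ)|
      ≤ ∑ _σ : Equiv.Perm (Fin k), (∏ i, r i) * ∏ j, c j := Finset.sum_le_sum fun σ _ => h1 σ
    _ = (k.factorial : ℝ) * ((∏ i, r i) * ∏ j, c j) := by
        rw [Finset.sum_const, Finset.card_univ, Fintype.card_perm, Fintype.card_fin, nsmul_eq_mul]

/-- size 2.  Determinant: `|det b| ≤ 24 ∏ nw (b i) ∏ w i` (each entry `|b i k| ≤ nw (b i) * w k`, `PP5.le_nw`), and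
`P | 64 det b ≠ 0` (or `det b ≠ 0` alone). -/
theorem cn_four {w : Fin 4 → ℝ} (hw : ∀ i, 0 < w i) {P : ℕ} {b : Fin 4 → Fin 4 → ℤ}
    (h0 : (Matrix.of b).det ≠ 0) (h : (P : ℤ) ∣ 2 ^ 6 * (Matrix.of b).det) :
    max 1 (P : ℝ) ≤ 1536 * (∏ i, PP5.nw w (b i)) * ∏ i, w i := by
  have h1 := cn2_det (Matrix.of b) (fun i => PP5.nw w (b i)) w (fun i j => PP5.le_nw hw (b i) j)
  have h24 : ((4 : ℕ).factorial : ℝ) = 24 := by norm_num [Nat.factorial]
  rw [h24] at h1
  have h2 : (1 : ℝ) ≤ |((Matrix.of b).det : ℝ)| := by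
    have : (1 : ℤ) ≤ |(Matrix.of b).det| := Int.one_le_abs h0
    exact_mod_cast this
  have h3 : (P : ℝ) ≤ 64 * |((Matrix.of b).det : ℝ)| := by
    have h4 : (2 ^ 6 * (Matrix.of b).det) ≠ 0 := mul_ne_zero (by norm_num) h0
    have h5 : (P : ℤ) ≤ |2 ^ 6 * (Matrix.of b).det| :=
      Int.le_of_dvd (abs_pos.2 h4) ((dvd_abs _ _).2 h)
    have h6 : |2 ^ 6 * (Matrix.of b).det| = 64 * |(Matrix.of b).det| := by
      rw [abs_mul]; norm_num
    rw [h6] at h5
    exact_mod_cast h5
  apply max_le <;> nlinarith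

/-- size 4.  Three independent vectors `b i` of a lattice `Γ` with `P | 64 det` for four vectors of `Γ` and `64 G v ∈ Γ`:
let `z k` (`k : Fin 4`) be the signed `3 x 3` minors, so that `det (b 0, b 1, b 2, y) = ∑ z k * y k` for every `y` (expand along the last
row) and `z ≠ 0` (independence; e.g. if all `3 x 3` minors vanish the rows are dependent over `Q`, hence over `Z`).
(1) some `|z k| ≥ 1` and `|z k| ≤ 6 ∏ nw (b i) * (∏ w) / w k`: so `wmin ≤ 6 ∏ nw (b i) ∏ w`.
(2) for every `v`: `P | 64 * det (b 0, b 1, b 2, 64 G v) = 4096 * (G z) . v` (symmetry), so `P | 4096 (G z) k` for all `k`; `G z ≠ 0`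
because `det G ≠ 0`; so some `k` has `P ≤ 4096 |(G z) k| ≤ 4096 * 4 * (C0 w k / X0) * 6 ∏ nw (b i) ∏ w`
(each term `|G k r| |z r| ≤ (C0 w k w r / X0) * 6 ∏ nw (b i) (∏ w) / w r`). -/
theorem cn_three {w : Fin 4 → ℝ} (hw : ∀ i, 0 < w i) {wmin wmax C0 X0 : ℝ}
    (hmin : ∀ i, wmin ≤ w i) (hmax : ∀ i, w i ≤ wmax) (hX : 0 < X0) (hC : 0 < C0)
    {G : Matrix (Fin 4) (Fin 4) ℤ} (hsym : ∀ i j, G i j = G j i) (hdet : G.det ≠ 0)
    (hG : ∀ i k, |(G i k : ℝ)| ≤ C0 * w i * w k / X0)
    {Γ : AddSubgroup (Fin 4 → ℤ)} {P : ℕ}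
    (h1 : ∀ M : Matrix (Fin 4) (Fin 4) ℤ, (∀ r, M r ∈ Γ) → (P : ℤ) ∣ 2 ^ 6 * M.det)
    (h2 : ∀ v, (64 : ℤ) • (G *ᵥ v) ∈ Γ) {b : Fin 3 → Fin 4 → ℤ} (hb : ∀ i, b i ∈ Γ)
    (hi : ∀ c : Fin 3 → ℤ, ∑ i, c i • b i = 0 → c = 0) :
    max wmin (P * X0 / (C0 * wmax)) ≤ 10 ^ 5 * (∏ i, PP5.nw w (b i)) * ∏ i, w i := by
  set B : Matrix (Fin 4) (Fin 4) ℤ := Matrix.of (Fin.snoc b 0 : Fin 4 → Fin 4 → ℤ) with hB
  set z : Fin 4 → ℤ := fun k => Bᵀ.adjugate (Fin.last 3) k with hz
  -- the determinant with last row `y`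
  have hdety : ∀ y : Fin 4 → ℤ, (B.updateRow (Fin.last 3) y).det = ∑ k, z k * y k := by
    intro y
    rw [← Matrix.cramer_transpose_apply, Matrix.cramer_eq_adjugate_mulVec]
    rfl
  have hrow : ∀ (y : Fin 4 → ℤ) (i : Fin 3), B.updateRow (Fin.last 3) y i.castSucc = b i := by
    intro y i
    rw [Matrix.updateRow_ne (Fin.castSucc_lt_last i).ne, hB]
    funext j
    simp [Matrix.of_apply, Fin.snoc_castSucc]
  have hrow3 : ∀ (y : Fin 4 → ℤ), B.updateRow (Fin.last 3) y (Fin.last 3) = y := by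
    intro y
    rw [Matrix.updateRow_self]
  set N : ℝ := ∏ i, PP5.nw w (b i) with hN
  set W : ℝ := ∏ i, w i with hW
  have hWpos : 0 < W := Finset.prod_pos fun i _ => hw i
  have hN0 : 0 ≤ N := Finset.prod_nonneg fun i _ => PP5.nw_nonneg w (b i)
  -- the bound of the minors
  have hzb : ∀ k, |(z k : ℝ)| * w k ≤ 6 * (N * W) := by
    intro k
    have e1 : z k = (-1) ^ (k + Fin.last 3 : ℕ)
        * (Bᵀ.submatrix k.succAbove (Fin.last 3).succAbove).det := by
      simp only [hz]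
      rw [Matrix.adjugate_fin_succ_eq_det_submatrix]
    have e2 := cn2_det ((Bᵀ.submatrix k.succAbove (Fin.last 3).succAbove)ᵀ)
      (fun i => PP5.nw w (b i)) (fun j => w (k.succAbove j)) (by
        intro i j
        have e3 : (Bᵀ.submatrix k.succAbove (Fin.last 3).succAbove)ᵀ i j
            = b i (k.succAbove j) := by
          simp only [Matrix.transpose_apply, Matrix.submatrix_apply, Fin.succAbove_last, hB,
            Matrix.of_apply, Fin.snoc_castSucc]
        rw [e3]
        exact PP5.le_nw hw (b i) _)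
    rw [Matrix.det_transpose] at e2
    have h6 : ((3 : ℕ).factorial : ℝ) = 6 := by norm_num [Nat.factorial]
    rw [h6] at e2
    have e4 : |(z k : ℝ)| = |((Bᵀ.submatrix k.succAbove (Fin.last 3).succAbove).det : ℝ)| := by
      rw [e1]
      push_cast
      rw [abs_mul, abs_pow, abs_neg, abs_one, one_pow, one_mul]
    have e5 : W = w k * ∏ j, w (k.succAbove j) := Fin.prod_univ_succAbove w k
    rw [e4, e5]
    calc |((Bᵀ.submatrix k.succAbove (Fin.last 3).succAbove).det : ℝ)| * w k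
        ≤ (6 * (N * ∏ j, w (k.succAbove j))) * w k :=
          mul_le_mul_of_nonneg_right e2 (hw k).le
      _ = 6 * (N * (w k * ∏ j, w (k.succAbove j))) := by ring
  -- `z ≠ 0`
  have hz0 : z ≠ 0 := by
    intro h0
    have hdet0 : ∀ y : Fin 4 → ℤ, (B.updateRow (Fin.last 3) y).det = 0 := by
      intro y
      rw [hdety, h0]
      simp
    -- rational vectors
    let b' : Fin 3 → Fin 4 → ℚ := fun i j => (b i j : ℚ)
    have hliZ : LinearIndependent ℤ b' := by
      rw [Fintype.linearIndependent_iff]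
      intro c hc
      have : ∑ i, c i • b i = 0 := by
        funext j
        have h3 := congrFun hc j
        rw [Finset.sum_apply] at h3 ⊢
        have h3' : ∀ i, (c i • b' i) j = (((c i • b i) j : ℤ) : ℚ) := by
          intro i
          rw [Pi.smul_apply, Pi.smul_apply]
          simp [b']
        simp only [h3', Pi.zero_apply] at h3
        rw [Pi.zero_apply]
        exact_mod_cast h3
      have h4 := hi c this
      intro i
      rw [h4]
      rfl
    have hliQ : LinearIndependent ℚ b' := (LinearIndependent.iff_fractionRing ℤ ℚ).1 hliZ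
    -- a vector outside the span
    have hspan : Submodule.span ℚ (Set.range b') ≠ ⊤ := by
      intro htop
      have h5 : Module.finrank ℚ (Submodule.span ℚ (Set.range b')) ≤ 3 := by
        have := finrank_range_le_card (R := ℚ) b'
        simpa [Set.finrank] using this
      rw [htop, finrank_top, Module.finrank_fin_fun] at h5
      omega
    obtain ⟨y, hy⟩ : ∃ y : Fin 4 → ℚ, y ∉ Submodule.span ℚ (Set.range b') := by
      by_contra hcon
      push Not at hcon
      exact hspan (Submodule.eq_top_iff'.2 hcon)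
    have hli4 : LinearIndependent ℚ (Fin.snoc b' y : Fin 4 → Fin 4 → ℚ) :=
      linearIndependent_finSnoc.2 ⟨hliQ, hy⟩
    have hunit : IsUnit (Matrix.of (Fin.snoc b' y : Fin 4 → Fin 4 → ℚ)) := by
      rw [← Matrix.linearIndependent_rows_iff_isUnit]
      exact hli4
    have hdetQ : (Matrix.of (Fin.snoc b' y : Fin 4 → Fin 4 → ℚ)).det ≠ 0 := by
      have := (Matrix.isUnit_iff_isUnit_det _).1 hunit
      exact this.ne_zero
    -- but it is a combination of integral determinants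
    apply hdetQ
    have e6 : (Matrix.of (Fin.snoc b' y : Fin 4 → Fin 4 → ℚ))
        = (B.map (Int.cast : ℤ → ℚ)).updateRow (Fin.last 3) y := by
      ext i j
      refine Fin.lastCases ?_ (fun i => ?_) i
      · rw [Matrix.updateRow_self, Matrix.of_apply, Fin.snoc_last]
      · rw [Matrix.updateRow_ne (Fin.castSucc_lt_last i).ne]
        simp [hB, b', Fin.snoc_castSucc]
    have e7 : ∀ k, ((B.map (Int.cast : ℤ → ℚ)).updateRow (Fin.last 3) (Pi.single k 1)).det = 0 := by
      intro k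
      have e8 : (B.map (Int.cast : ℤ → ℚ)).updateRow (Fin.last 3) (Pi.single k 1)
          = (B.updateRow (Fin.last 3) (Pi.single k 1)).map (Int.cast : ℤ → ℚ) := by
        ext i j
        refine Fin.lastCases ?_ (fun i => ?_) i
        · simp only [Matrix.updateRow_self, Matrix.map_apply]
          by_cases hj : j = k
          · subst hj; simp
          · simp [hj]
        · rw [Matrix.updateRow_ne (Fin.castSucc_lt_last i).ne, Matrix.map_apply,
            Matrix.map_apply, Matrix.updateRow_ne (Fin.castSucc_lt_last i).ne]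
      rw [e8]
      have e9 : ((B.updateRow (Fin.last 3) (Pi.single k 1)).map (Int.cast : ℤ → ℚ)).det
          = (((B.updateRow (Fin.last 3) (Pi.single k 1)).det : ℤ) : ℚ) :=
        (Int.cast_det (R := ℚ) _).symm
      rw [e9, hdet0]
      simp
    rw [e6, ← Matrix.cramer_transpose_apply, Matrix.cramer_eq_adjugate_mulVec]
    have e10 : ∀ k, (B.map (Int.cast : ℤ → ℚ))ᵀ.adjugate (Fin.last 3) k = 0 := by
      intro k
      have := e7 k
      rw [← Matrix.cramer_transpose_apply, Matrix.cramer_eq_adjugate_mulVec,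
        Matrix.mulVec_single_one] at this
      exact this
    simp only [Matrix.mulVec, dotProduct, e10, zero_mul, Finset.sum_const_zero]
  -- divisibility
  have hdiv : ∀ k, (P : ℤ) ∣ 4096 * (G *ᵥ z) k := by
    intro k
    have e1 := h1 (B.updateRow (Fin.last 3) ((64 : ℤ) • (G *ᵥ (Pi.single k 1)))) (by
      intro r
      refine Fin.lastCases ?_ (fun i => ?_) r
      · rw [hrow3]
        exact h2 _
      · rw [hrow]
        exact hb i)
    rw [hdety] at e1
    have e2 : 2 ^ 6 * ∑ j, z j * ((64 : ℤ) • (G *ᵥ (Pi.single k 1))) j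
        = 4096 * (G *ᵥ z) k := by
      rw [Matrix.mulVec_single_one]
      simp only [Pi.smul_apply, smul_eq_mul, Matrix.col_apply, Matrix.mulVec, dotProduct]
      rw [Finset.mul_sum, Finset.mul_sum]
      refine Finset.sum_congr rfl fun j _ => ?_
      rw [hsym j k]
      ring
    rw [e2] at e1
    exact e1
  have hGz : G *ᵥ z ≠ 0 := fun h => hz0 (Matrix.eq_zero_of_mulVec_eq_zero hdet h)
  have hNW : 0 ≤ N * W := mul_nonneg hN0 hWpos.le
  rw [mul_assoc]
  apply max_le
  · obtain ⟨k, hk⟩ : ∃ k, z k ≠ 0 := by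
      by_contra hcon
      push Not at hcon
      exact hz0 (funext hcon)
    have e1 : (1 : ℝ) ≤ |(z k : ℝ)| := by
      have : (1 : ℤ) ≤ |z k| := Int.one_le_abs hk
      exact_mod_cast this
    have e2 : w k ≤ |(z k : ℝ)| * w k := le_mul_of_one_le_left (hw k).le e1
    have e3 := hzb k
    have e4 := hmin k
    nlinarith
  · obtain ⟨k, hk⟩ : ∃ k, (G *ᵥ z) k ≠ 0 := by
      by_contra hcon
      push Not at hcon
      exact hGz (funext hcon)
    have hwm : 0 < wmax := lt_of_lt_of_le (hw k) (hmax k)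
    have e1 : (P : ℝ) ≤ 4096 * |((G *ᵥ z) k : ℝ)| := by
      have h4 : 4096 * (G *ᵥ z) k ≠ 0 := mul_ne_zero (by norm_num) hk
      have h5 : (P : ℤ) ≤ |4096 * (G *ᵥ z) k| :=
        Int.le_of_dvd (abs_pos.2 h4) ((dvd_abs _ _).2 (hdiv k))
      have h6 : |4096 * (G *ᵥ z) k| = 4096 * |(G *ᵥ z) k| := by
        rw [abs_mul]; norm_num
      rw [h6] at h5
      exact_mod_cast h5
    have e2 : |((G *ᵥ z) k : ℝ)| ≤ 4 * (C0 * w k / X0 * (6 * (N * W))) := by
      have e3 : ((G *ᵥ z) k : ℝ) = ∑ r, (G k r : ℝ) * (z r : ℝ) := by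
        simp only [Matrix.mulVec, dotProduct]
        push_cast
        rfl
      rw [e3]
      refine (Finset.abs_sum_le_sum_abs _ _).trans ?_
      have e4 : ∀ r, |(G k r : ℝ) * (z r : ℝ)| ≤ C0 * w k / X0 * (6 * (N * W)) := by
        intro r
        rw [abs_mul]
        calc |(G k r : ℝ)| * |(z r : ℝ)| ≤ (C0 * w k * w r / X0) * |(z r : ℝ)| :=
              mul_le_mul_of_nonneg_right (hG k r) (abs_nonneg _)
          _ = C0 * w k / X0 * (|(z r : ℝ)| * w r) := by ring
          _ ≤ C0 * w k / X0 * (6 * (N * W)) :=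
              mul_le_mul_of_nonneg_left (hzb r)
                (div_nonneg (mul_nonneg hC.le (hw k).le) hX.le)
      calc ∑ r, |(G k r : ℝ) * (z r : ℝ)| ≤ ∑ _r : Fin 4, C0 * w k / X0 * (6 * (N * W)) :=
            Finset.sum_le_sum fun r _ => e4 r
        _ = 4 * (C0 * w k / X0 * (6 * (N * W))) := by
            rw [Finset.sum_const, Finset.card_univ, Fintype.card_fin, nsmul_eq_mul]
            norm_num
    rw [div_le_iff₀ (mul_pos hC hwm)]
    have e5 : (P : ℝ) * X0 ≤ 98304 * (N * W) * (C0 * w k) := by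
      have e6 : (P : ℝ) ≤ 4096 * (4 * (C0 * w k / X0 * (6 * (N * W)))) :=
        e1.trans (mul_le_mul_of_nonneg_left e2 (by norm_num))
      calc (P : ℝ) * X0 ≤ 4096 * (4 * (C0 * w k / X0 * (6 * (N * W)))) * X0 :=
            mul_le_mul_of_nonneg_right e6 hX.le
        _ = 98304 * (N * W) * (C0 * w k) := by
            field_simp
            ring
    calc (P : ℝ) * X0 ≤ 98304 * (N * W) * (C0 * w k) := e5
      _ ≤ 98304 * (N * W) * (C0 * wmax) := by
          refine mul_le_mul_of_nonneg_left ?_ (by positivity)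
          exact mul_le_mul_of_nonneg_left (hmax k) hC.le
      _ ≤ 10 ^ 5 * (N * W) * (C0 * wmax) := by
          refine mul_le_mul_of_nonneg_right ?_ (mul_pos hC hwm).le
          refine mul_le_mul_of_nonneg_right (by norm_num) hNW

end Pool.Agent.PP5N
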