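import Pool.Agent.PP5N.Defs

/-!
# PP5 (d1): the congruences of a bad m
-/

set_option autoImplicit false
set_option linter.unusedSimpArgs false

namespace Pool.Agent.PP5N

open Matrix Pool.Agent.PP5B

theorem Cng_ex (m : Fin 4 → ℤ) (hm : Pr4 m) : ∃ f : Fin 4 → ℤ, m ⬝ᵥ f = 1 := by
  obtain ⟨U, _, hU⟩ := ex_U m hm
  refine ⟨U *ᵥ ![0, 0, 0, 1], ?_⟩
  rw [Matrix.dotProduct_mulVec, hU]
  simp [dotProduct, Fin.sum_univ_four]

theorem Cng_symm {G : Matrix (Fin 4) (Fin 4) ℤ} (hsym : ∀ i j, G i j = G j i)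
    (u w : Fin 4 → ℤ) : u ⬝ᵥ (G *ᵥ w) = w ⬝ᵥ (G *ᵥ u) := by
  have hT : Gᵀ = G := by
    ext i j
    exact hsym j i
  rw [Matrix.dotProduct_mulVec, ← Matrix.mulVec_transpose, hT, dotProduct_comm]

/-- the nine term sum -/
def CngQ (a : Fin 4 → ℤ) (B : Fin 4 → Fin 4 → ℤ) (i j k i' j' k' : Fin 4) : ℤ :=
  a i * a i' * (B j j' * B k k' - B j k' * B k j')
  - a i * a j' * (B j i' * B k k' - B j k' * B k i')
  + a i * a k' * (B j i' * B k j' - B j j' * B k i')
  - a j * a i' * (B i j' * B k k' - B i k' * B k j')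
  + a j * a j' * (B i i' * B k k' - B i k' * B k i')
  - a j * a k' * (B i i' * B k j' - B i j' * B k i')
  + a k * a i' * (B i j' * B j k' - B i k' * B j j')
  - a k * a j' * (B i i' * B j k' - B i k' * B j i')
  + a k * a k' * (B i i' * B j j' - B i j' * B j i')

theorem CngQ_eq (a b : Fin 4 → ℤ) (β : ℤ) (B : Fin 4 → Fin 4 → ℤ) (i j k i' j' k' : Fin 4) :
    CngQ a (fun i k => B i k - a k * b i - a i * b k + a i * a k * β) i j k i' j' k'
      = CngQ a B i j k i' j' k' := by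
  unfold CngQ
  ring

theorem CngQ_dvd {n : ℤ} (a : Fin 4 → ℤ) (B : Fin 4 → Fin 4 → ℤ)
    (h : ∀ i j k r, n ∣ B i k * B j r - B i r * B j k) (i j k i' j' k' : Fin 4) :
    n ∣ CngQ a B i j k i' j' k' := by
  unfold CngQ
  refine dvd_add (dvd_sub (dvd_add (dvd_sub (dvd_add (dvd_sub (dvd_add (dvd_sub ?_ ?_) ?_) ?_) ?_) ?_) ?_) ?_) ?_
  all_goals exact Dvd.dvd.mul_left (h _ _ _ _) _

/-- size 3.  Let `f` be a vector with `m . f = 1` (`m` is primitive: Bezout, or `ex_U` of PP5B/Uni), `a i = m . e i`,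
`e' i = e i - a i * f`, so `m . e' i = 0`.  For the bilinear form `B u w = u . G w` put
`P (u, u'; w, w') = B u w * B u' w' - B u w' * B u' w`, so `n | P (e' i, e' j; e' k, e' r)` for all `i j k r`.
For `i < j < k` let `W_ijk = a i (e_j ^ e_k) - a j (e_i ^ e_k) + a k (e_i ^ e_j)`; it does not change when `e` is replaced by `e'`
(the terms with `f` cancel).  So the pairing `P (W_ijk, W_i'j'k')` (9 terms) computed with `e'` is divisible by `n`; computed with
`e` and orthogonality it is `a 2 * a 3 * (d 0 * d 1)` for `W_012, W_013`, etc., and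
`a 0 ^ 2 * d 1 * d 2 + a 1 ^ 2 * d 0 * d 2 + a 2 ^ 2 * d 0 * d 1` for `W_012, W_012`.  In Lean: a polynomial identity in
the numbers `a i`, `B (e i) (e k)`, `B (e i) f`, `B f f` (with `B (e i) (e k) = 0` for `i ≠ k`, `B` symmetric):
`B (e' i) (e' k) = B (e i) (e k) - a k * B (e i) f - a i * B (e k) f + a i * a k * B f f`. -/
theorem cng {G : Matrix (Fin 4) (Fin 4) ℤ} (hsym : ∀ i j, G i j = G j i) {e : Fin 4 → Fin 4 → ℤ}
    {d : Fin 4 → ℤ} (horth : ∀ i k, i ≠ k → e i ⬝ᵥ (G *ᵥ e k) = 0)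
    (hd : ∀ i, e i ⬝ᵥ (G *ᵥ e i) = d i) {m : Fin 4 → ℤ} (hm : Pr4 m) {n : ℤ} (h : mnQ G m n) :
    Cg n d (fun i => m ⬝ᵥ e i) := by
  obtain ⟨f, hf⟩ := Cng_ex m hm
  set a : Fin 4 → ℤ := fun i => m ⬝ᵥ e i with ha
  have he : ∀ i, m ⬝ᵥ (e i - a i • f) = 0 := by
    intro i
    rw [dotProduct_sub, dotProduct_smul, hf]
    simp [ha]
  set b : Fin 4 → ℤ := fun i => e i ⬝ᵥ (G *ᵥ f) with hb
  set β : ℤ := f ⬝ᵥ (G *ᵥ f) with hβ
  set B : Fin 4 → Fin 4 → ℤ := fun i k => e i ⬝ᵥ (G *ᵥ e k) with hB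
  have hB1 : ∀ i k, (e i - a i • f) ⬝ᵥ (G *ᵥ (e k - a k • f))
      = B i k - a k * b i - a i * b k + a i * a k * β := by
    intro i k
    have h1 : f ⬝ᵥ (G *ᵥ e k) = b k := Cng_symm hsym _ _
    rw [Matrix.mulVec_sub, Matrix.mulVec_smul, sub_dotProduct, dotProduct_sub, dotProduct_sub,
      dotProduct_smul, smul_dotProduct, smul_dotProduct, dotProduct_smul, h1]
    simp only [smul_eq_mul, hB, hb, hβ]
    ring
  have key : ∀ i j k i' j' k' : Fin 4, n ∣ CngQ a B i j k i' j' k' := by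
    intro i j k i' j' k'
    rw [← CngQ_eq a b β B]
    apply CngQ_dvd
    intro i j k r
    rw [← hB1, ← hB1, ← hB1, ← hB1]
    exact h _ _ _ _ (he _) (he _) (he _) (he _)
  have B01 : B 0 1 = 0 := horth 0 1 (by decide)
  have B02 : B 0 2 = 0 := horth 0 2 (by decide)
  have B03 : B 0 3 = 0 := horth 0 3 (by decide)
  have B10 : B 1 0 = 0 := horth 1 0 (by decide)
  have B12 : B 1 2 = 0 := horth 1 2 (by decide)
  have B13 : B 1 3 = 0 := horth 1 3 (by decide)
  have B20 : B 2 0 = 0 := horth 2 0 (by decide)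
  have B21 : B 2 1 = 0 := horth 2 1 (by decide)
  have B23 : B 2 3 = 0 := horth 2 3 (by decide)
  have B30 : B 3 0 = 0 := horth 3 0 (by decide)
  have B31 : B 3 1 = 0 := horth 3 1 (by decide)
  have B32 : B 3 2 = 0 := horth 3 2 (by decide)
  have B00 : B 0 0 = d 0 := hd 0
  have B11 : B 1 1 = d 1 := hd 1
  have B22 : B 2 2 = d 2 := hd 2
  have B33 : B 3 3 = d 3 := hd 3
  refine ⟨?_, ?_, ?_, ?_, ?_, ?_, ?_⟩
  · have h1 := key 0 1 2 0 1 3
    unfold CngQ at h1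
    simp only [B01, B02, B03, B10, B12, B13, B20, B21, B23, B30, B31, B32, B00, B11, B22, B33] at h1
    refine (Int.dvd_iff_dvd_of_dvd_sub ?_).1 h1
    exact ⟨0, by ring⟩
  · have h1 := key 0 1 3 1 2 3
    unfold CngQ at h1
    simp only [B01, B02, B03, B10, B12, B13, B20, B21, B23, B30, B31, B32, B00, B11, B22, B33] at h1
    rw [← dvd_neg] at h1
    refine (Int.dvd_iff_dvd_of_dvd_sub ?_).1 h1
    exact ⟨0, by ring⟩
  · have h1 := key 0 1 3 0 2 3
    unfold CngQ at h1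
    simp only [B01, B02, B03, B10, B12, B13, B20, B21, B23, B30, B31, B32, B00, B11, B22, B33] at h1
    refine (Int.dvd_iff_dvd_of_dvd_sub ?_).1 h1
    exact ⟨0, by ring⟩
  · have h1 := key 0 1 2 1 2 3
    unfold CngQ at h1
    simp only [B01, B02, B03, B10, B12, B13, B20, B21, B23, B30, B31, B32, B00, B11, B22, B33] at h1
    refine (Int.dvd_iff_dvd_of_dvd_sub ?_).1 h1
    exact ⟨0, by ring⟩
  · have h1 := key 0 1 2 0 2 3
    unfold CngQ at h1
    simp only [B01, B02, B03, B10, B12, B13, B20, B21, B23, B30, B31, B32, B00, B11, B22, B33] at h1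
    rw [← dvd_neg] at h1
    refine (Int.dvd_iff_dvd_of_dvd_sub ?_).1 h1
    exact ⟨0, by ring⟩
  · have h1 := key 0 1 2 0 1 2
    unfold CngQ at h1
    simp only [B01, B02, B03, B10, B12, B13, B20, B21, B23, B30, B31, B32, B00, B11, B22, B33] at h1
    unfold ff
    refine (Int.dvd_iff_dvd_of_dvd_sub ?_).1 h1
    exact ⟨0, by ring⟩
  · have h1 := key 0 1 3 0 1 3
    unfold CngQ at h1
    simp only [B01, B02, B03, B10, B12, B13, B20, B21, B23, B30, B31, B32, B00, B11, B22, B33] at h1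
    unfold ff
    refine (Int.dvd_iff_dvd_of_dvd_sub ?_).1 h1
    exact ⟨0, by ring⟩

end Pool.Agent.PP5N
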