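import Pool.Agent.PP5N.Defs

/-!
# PP5 (d1): few lattices: the local lemma
-/

set_option autoImplicit false

namespace Pool.Agent.PP5N

open Matrix Pool.Agent.PP5B

/-- truncated exponent of `l` in `x` -/
private def LmA_T (l N : ℕ) (x : ℤ) (w : ℕ) : Prop :=
  (l : ℤ) ^ w ∣ x ∧ (N ≤ w ∨ ∃ u, x = (l : ℤ) ^ w * u ∧ ¬ (l : ℤ) ∣ u)

private theorem LmA_ex {l : ℕ} (hl : l.Prime) (N : ℕ) (x : ℤ) : ∃ w, LmA_T l N x w := by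
  by_cases hx : x = 0
  · exact ⟨N, by rw [hx]; exact dvd_zero _, Or.inl le_rfl⟩
  · have hlp : Prime (l : ℤ) := Nat.prime_iff_prime_int.1 hl
    have hf : FiniteMultiplicity (l : ℤ) x := by
      apply Int.finiteMultiplicity_iff.2
      refine ⟨?_, hx⟩
      rw [Int.natAbs_natCast]
      exact hl.one_lt.ne'
    obtain ⟨u, hu, hu'⟩ := hf.exists_eq_pow_mul_and_not_dvd
    exact ⟨_, ⟨u, hu⟩, Or.inr ⟨u, hu, hu'⟩⟩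

private theorem LmA_pow {l : ℕ} (hl : l.Prime) {n k : ℕ} {u : ℤ} (hu : ¬ (l : ℤ) ∣ u)
    (h : (l : ℤ) ^ n ∣ (l : ℤ) ^ k * u) : n ≤ k := by
  by_contra hc
  have hlp : Prime (l : ℤ) := Nat.prime_iff_prime_int.1 hl
  have h1 : (l : ℤ) ^ (k + 1) ∣ (l : ℤ) ^ k * u := (pow_dvd_pow _ (by omega)).trans h
  rw [pow_succ] at h1
  exact hu ((mul_dvd_mul_iff_left (pow_ne_zero _ hlp.ne_zero)).1 h1)

private theorem LmA_mul {l n N : ℕ} (hl : l.Prime) (hN : n ≤ N) {x y d e : ℤ} {p q s t : ℕ}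
    (hx : LmA_T l N x p) (hy : LmA_T l N y q)
    (hd : ∃ g : ℤ, d = (l : ℤ) ^ s * g ∧ ¬ (l : ℤ) ∣ g)
    (he : ∃ g : ℤ, e = (l : ℤ) ^ t * g ∧ ¬ (l : ℤ) ∣ g)
    (h : (l : ℤ) ^ n ∣ x * y * (d * e)) : n ≤ p + q + s + t := by
  have hlp : Prime (l : ℤ) := Nat.prime_iff_prime_int.1 hl
  obtain ⟨-, hx | ⟨u, hu, hu'⟩⟩ := hx
  · omega
  obtain ⟨-, hy | ⟨r, hr, hr'⟩⟩ := hy
  · omega
  obtain ⟨g, hg, hg'⟩ := hd
  obtain ⟨f, hf, hf'⟩ := he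
  refine LmA_pow hl (u := u * r * (g * f)) ?_ ?_
  · intro hc
    rcases hlp.dvd_or_dvd hc with hc | hc
    · rcases hlp.dvd_or_dvd hc with hc | hc
      · exact hu' hc
      · exact hr' hc
    · rcases hlp.dvd_or_dvd hc with hc | hc
      · exact hg' hc
      · exact hf' hc
  · have : x * y * (d * e) = (l : ℤ) ^ (p + q + s + t) * (u * r * (g * f)) := by
      rw [hu, hr, hg, hf]; ring
    rwa [this] at h

private theorem LmA_ff {l n κ : ℕ} (hl : l.Prime) {d0 d1 d2 a0 a1 a2 : ℤ} {v0 v1 v2 : ℕ}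
    (h0 : ∃ g : ℤ, d0 = (l : ℤ) ^ v0 * g ∧ ¬ (l : ℤ) ∣ g)
    (h1 : ∃ g : ℤ, d1 = (l : ℤ) ^ v1 * g ∧ ¬ (l : ℤ) ∣ g)
    (h2 : ∃ g : ℤ, d2 = (l : ℤ) ^ v2 * g ∧ ¬ (l : ℤ) ∣ g) (h01 : v0 ≤ v1) (h12 : v1 ≤ v2)
    (ha0 : (l : ℤ) ^ (κ + 1) ∣ a0) (ha1 : (l : ℤ) ^ (κ + 1) ∣ a1)
    (ha2 : ¬ (l : ℤ) ^ (κ + 1) ∣ a2) (hn : v0 + v1 + 2 * κ < n)
    (h : (l : ℤ) ^ n ∣ d1 * d2 * a0 ^ 2 + d0 * d2 * a1 ^ 2 + d0 * d1 * a2 ^ 2) : False := by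
  have hlp : Prime (l : ℤ) := Nat.prime_iff_prime_int.1 hl
  obtain ⟨w, hw, hw'⟩ := LmA_ex hl (κ + 1) a2
  have hwk : w ≤ κ := by
    by_contra hc
    exact ha2 ((pow_dvd_pow _ (by omega)).trans hw)
  rcases hw' with hw' | ⟨u, hu, hu'⟩
  · omega
  obtain ⟨g0, hg0, hg0'⟩ := h0
  obtain ⟨g1, hg1, hg1'⟩ := h1
  obtain ⟨g2, hg2, hg2'⟩ := h2
  obtain ⟨b0, hb0⟩ := ha0
  obtain ⟨b1, hb1⟩ := ha1
  have e1 : (l : ℤ) ^ (v0 + v1 + 2 * w + 1) ∣ d1 * d2 * a0 ^ 2 := by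
    have : d1 * d2 * a0 ^ 2 = (l : ℤ) ^ (v1 + v2 + 2 * (κ + 1)) * (g1 * g2 * b0 ^ 2) := by
      rw [hg1, hg2, hb0]; ring
    rw [this]
    exact (pow_dvd_pow _ (by omega)).mul_right _
  have e2 : (l : ℤ) ^ (v0 + v1 + 2 * w + 1) ∣ d0 * d2 * a1 ^ 2 := by
    have : d0 * d2 * a1 ^ 2 = (l : ℤ) ^ (v0 + v2 + 2 * (κ + 1)) * (g0 * g2 * b1 ^ 2) := by
      rw [hg0, hg2, hb1]; ring
    rw [this]
    exact (pow_dvd_pow _ (by omega)).mul_right _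
  have e3 : (l : ℤ) ^ (v0 + v1 + 2 * w + 1) ∣ d0 * d1 * a2 ^ 2 := by
    have h' := (pow_dvd_pow (l : ℤ) (show v0 + v1 + 2 * w + 1 ≤ n by omega)).trans h
    exact (dvd_add_right (dvd_add e1 e2)).1 h'
  have e4 : d0 * d1 * a2 ^ 2 = (l : ℤ) ^ (v0 + v1 + 2 * w) * (g0 * g1 * u ^ 2) := by
    rw [hg0, hg1, hu]; ring
  rw [e4] at e3
  have := LmA_pow hl (u := g0 * g1 * u ^ 2) (by
    intro hc
    rcases hlp.dvd_or_dvd hc with hc | hc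
    · rcases hlp.dvd_or_dvd hc with hc | hc
      · exact hg0' hc
      · exact hg1' hc
    · exact hu' (hlp.dvd_of_dvd_pow hc)) e3
  omega

/-- size 3.  `N1 = n - (v 0 + v 1 + 2 κ)` (natural subtraction).  Let `w r` be the exponent of `l` in `a r`
(infinite if `a r = 0`).  CLAIM: if `N1 > 0` then `min (w 2) (v 2) + min (w 3) (v 3) ≥ N1`; then take
`i = min (w 2) (v 2) N1`.  Proof of the claim, `α = v 0 + v 1`: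
`w 2 + w 3 + α ≥ n` (c23) and `v 2 + v 3 + α ≥ n` (hn).  Case 1: `w 0 ≤ κ` or `w 1 ≤ κ`.  If `w 0 ≤ κ`: (c02) gives
`w 2 + v 1 + v 3 + κ ≥ n`, (c03) gives `w 3 + v 1 + v 2 + κ ≥ n`; if `w 1 ≤ κ` use (c12), (c13).  Case 2: `w 0, w 1 ≥ κ + 1`,
so `w 2 ≤ κ` or `w 3 ≤ κ`.  Say `w 2 ≤ κ`: `d 0 * d 1 * a 2 ^ 2` has exponent exactly `α + 2 w 2 ≤ α + 2 κ < n`
(as `N1 > 0`), while `d 2 * (d 1 * a 0 ^ 2 + d 0 * a 1 ^ 2)` is divisible by `l ^ (v 2 + v 0 + 2 κ + 2)` and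
`v 2 + v 0 + 2 κ + 2 > v 1 + v 0 + 2 κ`, so `f2` (divisible by `l ^ n`, `n > α + 2 w 2`) is impossible:
`l ^ (α + 2 w 2 + 1)` divides two of the three terms and the sum but not the third.  If `w 3 ≤ κ` the same with `f3`
(`v 3 ≥ v 1`). -/
theorem lmA {l n κ : ℕ} (hl : l.Prime) {d a : Fin 4 → ℤ} {v : Fin 4 → ℕ} (hd : Vd l d v)
    (h : Cg ((l : ℤ) ^ n) d a) (ha : ∃ i, ¬ (l : ℤ) ^ (κ + 1) ∣ a i)
    (hn : n ≤ v 0 + v 1 + v 2 + v 3) :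
    ∃ i, i ≤ v 2 ∧ i ≤ n - (v 0 + v 1 + 2 * κ) ∧ n - (v 0 + v 1 + 2 * κ) - i ≤ v 3 ∧
      (l : ℤ) ^ i ∣ a 2 ∧ (l : ℤ) ^ (n - (v 0 + v 1 + 2 * κ) - i) ∣ a 3 := by
  by_cases hN1 : n ≤ v 0 + v 1 + 2 * κ
  · refine ⟨0, Nat.zero_le _, Nat.zero_le _, by omega, by simp, ?_⟩
    rw [show n - (v 0 + v 1 + 2 * κ) - 0 = 0 by omega]
    simp
  push Not at hN1
  obtain ⟨w0, hw0⟩ := LmA_ex hl (n + κ + 1) (a 0)
  obtain ⟨w1, hw1⟩ := LmA_ex hl (n + κ + 1) (a 1)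
  obtain ⟨w2, hw2⟩ := LmA_ex hl (n + κ + 1) (a 2)
  obtain ⟨w3, hw3⟩ := LmA_ex hl (n + κ + 1) (a 3)
  have k23 := LmA_mul hl (by omega) hw2 hw3 (hd.val 0) (hd.val 1) h.c23
  have k02 := LmA_mul hl (by omega) hw0 hw2 (hd.val 1) (hd.val 3) h.c02
  have k12 := LmA_mul hl (by omega) hw1 hw2 (hd.val 0) (hd.val 3) h.c12
  have k03 := LmA_mul hl (by omega) hw0 hw3 (hd.val 1) (hd.val 2) h.c03
  have k13 := LmA_mul hl (by omega) hw1 hw3 (hd.val 0) (hd.val 2) h.c13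
  have m01 := hd.m01
  have m12 := hd.m12
  have m23 := hd.m23
  have key : w0 ≤ κ ∨ w1 ≤ κ := by
    by_contra hc
    push Not at hc
    have z0 : (l : ℤ) ^ (κ + 1) ∣ a 0 := (pow_dvd_pow _ (by omega)).trans hw0.1
    have z1 : (l : ℤ) ^ (κ + 1) ∣ a 1 := (pow_dvd_pow _ (by omega)).trans hw1.1
    obtain ⟨i, hi⟩ := ha
    fin_cases i
    · exact hi z0
    · exact hi z1
    · exact LmA_ff hl (hd.val 0) (hd.val 1) (hd.val 2) m01 m12 z0 z1 hi hN1 h.f2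
    · exact LmA_ff hl (hd.val 0) (hd.val 1) (hd.val 3) m01 (m12.trans m23) z0 z1 hi hN1 h.f3
  have q2 : w2 + v 3 ≥ n - (v 0 + v 1 + 2 * κ) := by rcases key with key | key <;> omega
  have q3 : w3 + v 2 ≥ n - (v 0 + v 1 + 2 * κ) := by rcases key with key | key <;> omega
  refine ⟨min (min w2 (v 2)) (n - (v 0 + v 1 + 2 * κ)), by omega, by omega, by omega,
    (pow_dvd_pow _ (by omega)).trans hw2.1, (pow_dvd_pow _ (by omega)).trans hw3.1⟩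

end Pool.Agent.PP5N
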