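import Pool.Agent.PP5N.Defs

/-!
# PP5 (d1): determinantal divisors in orthogonal coordinates
-/

set_option autoImplicit false

namespace Pool.Agent.PP5N

open Matrix Pool.Agent.PP5B

variable {G : Matrix (Fin 4) (Fin 4) ℤ} {l : ℕ} {e : Fin 4 → Fin 4 → ℤ} {d : Fin 4 → ℤ} {v : Fin 4 → ℕ}

theorem OrA_strip {l : ℕ} (hl : l.Prime) {D x : ℤ} {k V c : ℕ} (hD : ¬ (l : ℤ) ^ (k + 1) ∣ D)
    (h : (l : ℤ) ^ V ∣ D ^ c * x) : (l : ℤ) ^ V ∣ (l : ℤ) ^ (c * k) * x := by
  have hlp : Prime (l : ℤ) := Nat.prime_iff_prime_int.1 hl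
  have hD0 : D ≠ 0 := by
    rintro rfl
    exact hD (dvd_zero _)
  have hfin : FiniteMultiplicity (l : ℤ) D :=
    Int.finiteMultiplicity_iff.2 ⟨by rw [Int.natAbs_natCast]; exact hl.ne_one, hD0⟩
  obtain ⟨g, hg, hng⟩ := hfin.exists_eq_pow_mul_and_not_dvd
  set s : ℕ := multiplicity (l : ℤ) D with hs
  have hsk : s ≤ k := by
    by_contra hcon
    apply hD
    exact (pow_dvd_pow _ (by omega)).trans ⟨g, hg⟩
  have hcop : IsCoprime ((l : ℤ) ^ V) (g ^ c) := by
    apply IsCoprime.pow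
    exact (Prime.coprime_iff_not_dvd hlp).2 hng
  have h2 : (l : ℤ) ^ V ∣ (g ^ c) * ((l : ℤ) ^ (s * c) * x) := by
    rw [hg, mul_pow, ← pow_mul] at h
    have e : (g ^ c) * ((l : ℤ) ^ (s * c) * x) = (l : ℤ) ^ (s * c) * g ^ c * x := by ring
    rw [e]
    exact h
  have h3 := hcop.dvd_of_dvd_mul_left h2
  refine h3.trans (mul_dvd_mul_right (pow_dvd_pow _ ?_) _)
  rw [mul_comm]
  exact Nat.mul_le_mul_left _ hsk

theorem OrA_dvd {l : ℕ} {d : Fin 4 → ℤ} {v : Fin 4 → ℕ} (h : Vd l d v) (i : Fin 4) :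
    (l : ℤ) ^ v i ∣ d i := by
  obtain ⟨g, hg, _⟩ := h.val i
  exact ⟨g, hg⟩

theorem OrA_dvd2 {l : ℕ} {d : Fin 4 → ℤ} {v : Fin 4 → ℕ} (h : Vd l d v) (i j : Fin 4)
    (hij : v 0 + v 1 ≤ v i + v j) : (l : ℤ) ^ (v 0 + v 1) ∣ d i * d j := by
  refine (pow_dvd_pow _ hij).trans ?_
  rw [pow_add]
  exact mul_dvd_mul (OrA_dvd h i) (OrA_dvd h j)

theorem OrA_dvd3 {l : ℕ} {d : Fin 4 → ℤ} {v : Fin 4 → ℕ} (h : Vd l d v) (i j k : Fin 4)
    (hij : v 0 + v 1 + v 2 ≤ v i + v j + v k) :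
    (l : ℤ) ^ (v 0 + v 1 + v 2) ∣ d i * d j * d k := by
  refine (pow_dvd_pow _ hij).trans ?_
  rw [pow_add, pow_add]
  exact mul_dvd_mul (mul_dvd_mul (OrA_dvd h i) (OrA_dvd h j)) (OrA_dvd h k)

theorem OrA_cb (A : Matrix (Fin 4) (Fin 4) ℤ) (d : Fin 4 → ℤ) (i i' k k' : Fin 4) :
    (∑ p, A i p * d p * A k p) * (∑ p, A i' p * d p * A k' p)
      - (∑ p, A i p * d p * A k' p) * (∑ p, A i' p * d p * A k p)
    = (A i 0 * A i' 1 - A i 1 * A i' 0) * (A k 0 * A k' 1 - A k 1 * A k' 0) * (d 0 * d 1)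
    + (A i 0 * A i' 2 - A i 2 * A i' 0) * (A k 0 * A k' 2 - A k 2 * A k' 0) * (d 0 * d 2)
    + (A i 0 * A i' 3 - A i 3 * A i' 0) * (A k 0 * A k' 3 - A k 3 * A k' 0) * (d 0 * d 3)
    + (A i 1 * A i' 2 - A i 2 * A i' 1) * (A k 1 * A k' 2 - A k 2 * A k' 1) * (d 1 * d 2)
    + (A i 1 * A i' 3 - A i 3 * A i' 1) * (A k 1 * A k' 3 - A k 3 * A k' 1) * (d 1 * d 3)
    + (A i 2 * A i' 3 - A i 3 * A i' 2) * (A k 2 * A k' 3 - A k 3 * A k' 2) * (d 2 * d 3) := by
  simp only [Fin.sum_univ_four]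
  ring

/-- size 3.  With `E = Matrix.of e`: `E * G * E^T = diagonal d` -/
theorem Orth.diag (h : Orth G l e d v) :
    Matrix.of e * G * (Matrix.of e)ᵀ = Matrix.diagonal d := by
  have h1 : ∀ i k, (Matrix.of e * G * (Matrix.of e)ᵀ) i k = e i ⬝ᵥ (G *ᵥ e k) := by
    intro i k
    rw [Matrix.mul_assoc]
    simp only [Matrix.mul_apply, Matrix.transpose_apply, Matrix.of_apply, dotProduct,
      Matrix.mulVec]
  ext i k
  rw [h1]
  by_cases hik : i = k
  · subst hik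
    rw [Matrix.diagonal_apply_eq]
    exact h.dd i
  · rw [Matrix.diagonal_apply_ne _ hik]
    exact h.orth i k hik

/-- `(det E) ^ 2 * det G = d 0 * d 1 * d 2 * d 3` -/
theorem Orth.det_eq (h : Orth G l e d v) :
    (Matrix.of e).det ^ 2 * G.det = d 0 * d 1 * d 2 * d 3 := by
  have h1 := congrArg Matrix.det h.diag
  rw [Matrix.det_mul, Matrix.det_mul, Matrix.det_transpose, Matrix.det_diagonal,
    Fin.prod_univ_four] at h1
  rw [← h1]
  ring

/-- the exponent of `l` in the determinant -/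
theorem Orth.det_le (hl : l.Prime) (h : Orth G l e d v) {n : ℕ} (hn : (l : ℤ) ^ n ∣ G.det) :
    n ≤ v 0 + v 1 + v 2 + v 3 := by
  have hlp : Prime (l : ℤ) := Nat.prime_iff_prime_int.1 hl
  have h1 : (l : ℤ) ^ n ∣ d 0 * d 1 * d 2 * d 3 := by
    rw [← h.det_eq]
    exact hn.mul_left _
  obtain ⟨g0, e0, n0⟩ := h.vd.val 0
  obtain ⟨g1, e1, n1⟩ := h.vd.val 1
  obtain ⟨g2, e2, n2⟩ := h.vd.val 2
  obtain ⟨g3, e3, n3⟩ := h.vd.val 3
  have h2 : d 0 * d 1 * d 2 * d 3 = (l : ℤ) ^ (v 0 + v 1 + v 2 + v 3) * (g0 * g1 * g2 * g3) := by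
    rw [e0, e1, e2, e3, pow_add, pow_add, pow_add]
    ring
  have h3 : ¬ (l : ℤ) ∣ g0 * g1 * g2 * g3 := by
    intro hd
    rcases hlp.dvd_or_dvd hd with hd | hd
    · rcases hlp.dvd_or_dvd hd with hd | hd
      · rcases hlp.dvd_or_dvd hd with hd | hd
        · exact n0 hd
        · exact n1 hd
      · exact n2 hd
    · exact n3 hd
  rw [h2] at h1
  by_contra hcon
  push Not at hcon
  apply h3
  have h4 : (l : ℤ) ^ (v 0 + v 1 + v 2 + v 3) * (l : ℤ)
      ∣ (l : ℤ) ^ (v 0 + v 1 + v 2 + v 3) * (g0 * g1 * g2 * g3) := by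
    rw [← pow_succ]
    exact (pow_dvd_pow _ (by omega)).trans h1
  exact (mul_dvd_mul_iff_left (pow_ne_zero _ hlp.ne_zero)).1 h4

/-- `adj E * E = det E`, hence `(det E) ^ 2 * G = adj E * diagonal d * (adj E)^T`, and
`(det E) ^ 4 * (2 x 2 minor of G)` is a combination of the products `d p * d q`, `p < q` (write the minor of
`(i, k) -> sum_p a i p * a k p * d p` explicitly, `ring`), each divisible by `l ^ (v 0 + v 1)`.  The exponent of `l` in
`det E` is at most `kp l`, so `(det E) ^ 4` can be replaced by `l ^ (4 * kp l)` (the prime to `l` part of `det E` is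
coprime to `l ^ (v 0 + v 1)`). -/
theorem Orth.minors2 (hl : l.Prime) (h : Orth G l e d v) (i i' k k' : Fin 4) :
    (l : ℤ) ^ (v 0 + v 1) ∣ (l : ℤ) ^ (4 * kp l) * (G i k * G i' k' - G i k' * G i' k) := by
  apply OrA_strip hl h.det
  set E : Matrix (Fin 4) (Fin 4) ℤ := Matrix.of e with hE
  set A : Matrix (Fin 4) (Fin 4) ℤ := E.adjugate with hA
  have h1 : E.det ^ 2 • G = A * Matrix.diagonal d * Aᵀ := by
    have e1 : A * E = E.det • (1 : Matrix (Fin 4) (Fin 4) ℤ) := Matrix.adjugate_mul E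
    have e2 : Eᵀ * Aᵀ = E.det • (1 : Matrix (Fin 4) (Fin 4) ℤ) := by
      rw [← Matrix.transpose_mul, e1, Matrix.transpose_smul, Matrix.transpose_one]
    rw [← h.diag]
    calc E.det ^ 2 • G = (A * E) * G * (Eᵀ * Aᵀ) := by
          rw [e1, e2, Matrix.smul_mul, Matrix.one_mul, Matrix.mul_smul, Matrix.mul_one, smul_smul,
            pow_two]
      _ = A * (E * G * Eᵀ) * Aᵀ := by simp only [Matrix.mul_assoc]
  have h2 : ∀ i k, E.det ^ 2 * G i k = ∑ p, A i p * d p * A k p := by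
    intro i k
    have := congrFun (congrFun h1 i) k
    rw [Matrix.smul_apply, smul_eq_mul] at this
    rw [this, Matrix.mul_apply]
    simp only [Matrix.mul_diagonal, Matrix.transpose_apply]
  have h3 : E.det ^ 4 * (G i k * G i' k' - G i k' * G i' k)
      = (∑ p, A i p * d p * A k p) * (∑ p, A i' p * d p * A k' p)
      - (∑ p, A i p * d p * A k' p) * (∑ p, A i' p * d p * A k p) := by
    rw [← h2, ← h2, ← h2, ← h2]
    ring
  rw [h3, OrA_cb]
  have m01 := h.vd.m01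
  have m12 := h.vd.m12
  have m23 := h.vd.m23
  refine dvd_add (dvd_add (dvd_add (dvd_add (dvd_add ?_ ?_) ?_) ?_) ?_) ?_
  · exact (OrA_dvd2 h.vd 0 1 (by omega)).mul_left _
  · exact (OrA_dvd2 h.vd 0 2 (by omega)).mul_left _
  · exact (OrA_dvd2 h.vd 0 3 (by omega)).mul_left _
  · exact (OrA_dvd2 h.vd 1 2 (by omega)).mul_left _
  · exact (OrA_dvd2 h.vd 1 3 (by omega)).mul_left _
  · exact (OrA_dvd2 h.vd 2 3 (by omega)).mul_left _

/-- taking adjugates in `E * G * E^T = D`: `(det E) ^ 2 * adj G = E^T * adj D * E`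
(from `adj (E^T) * adj G * adj E = adj D`, `E^T * adj (E^T) = det E`, `adj E * E = det E`), and `adj D` is diagonal with
entries the products of three of the `d i`, divisible by `l ^ (v 0 + v 1 + v 2)`. -/
theorem Orth.minors3 (hl : l.Prime) (h : Orth G l e d v) (i k : Fin 4) :
    (l : ℤ) ^ (v 0 + v 1 + v 2) ∣ (l : ℤ) ^ (2 * kp l) * G.adjugate i k := by
  apply OrA_strip hl h.det
  set E : Matrix (Fin 4) (Fin 4) ℤ := Matrix.of e with hE
  have h1 : E.det ^ 2 • G.adjugate = Eᵀ * (Matrix.diagonal d).adjugate * E := by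
    rw [← h.diag, Matrix.adjugate_mul_distrib, Matrix.adjugate_mul_distrib]
    have e1 : E.adjugate * E = E.det • (1 : Matrix (Fin 4) (Fin 4) ℤ) := Matrix.adjugate_mul E
    have e2 : Eᵀ * Eᵀ.adjugate = E.det • (1 : Matrix (Fin 4) (Fin 4) ℤ) := by
      rw [Matrix.mul_adjugate, Matrix.det_transpose]
    calc E.det ^ 2 • G.adjugate = (Eᵀ * Eᵀ.adjugate) * G.adjugate * (E.adjugate * E) := by
          rw [e1, e2, Matrix.smul_mul, Matrix.one_mul, Matrix.mul_smul, Matrix.mul_one, smul_smul,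
            pow_two]
      _ = Eᵀ * (Eᵀ.adjugate * (G.adjugate * E.adjugate)) * E := by
          simp only [Matrix.mul_assoc]
  have h2 : E.det ^ 2 * G.adjugate i k = ∑ p, E p i * (∏ j ∈ Finset.univ.erase p, d j) * E p k := by
    have := congrFun (congrFun h1 i) k
    rw [Matrix.smul_apply, smul_eq_mul] at this
    rw [this, Matrix.adjugate_diagonal, Matrix.mul_apply]
    simp only [Matrix.mul_diagonal, Matrix.transpose_apply]
  rw [h2]
  have m01 := h.vd.m01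
  have m12 := h.vd.m12
  have m23 := h.vd.m23
  apply Finset.dvd_sum
  intro p _
  apply Dvd.dvd.mul_right
  apply Dvd.dvd.mul_left
  fin_cases p
  · have e0 : ∏ j ∈ Finset.univ.erase (0 : Fin 4), d j = d 1 * d 2 * d 3 := by
      rw [show Finset.univ.erase (0 : Fin 4) = {1, 2, 3} by decide]
      rw [Finset.prod_insert (by decide), Finset.prod_insert (by decide), Finset.prod_singleton]
      ring
    show _ ∣ ∏ j ∈ Finset.univ.erase (0 : Fin 4), d j
    rw [e0]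
    exact OrA_dvd3 h.vd 1 2 3 (by omega)
  · have e0 : ∏ j ∈ Finset.univ.erase (1 : Fin 4), d j = d 0 * d 2 * d 3 := by
      rw [show Finset.univ.erase (1 : Fin 4) = {0, 2, 3} by decide]
      rw [Finset.prod_insert (by decide), Finset.prod_insert (by decide), Finset.prod_singleton]
      ring
    show _ ∣ ∏ j ∈ Finset.univ.erase (1 : Fin 4), d j
    rw [e0]
    exact OrA_dvd3 h.vd 0 2 3 (by omega)
  · have e0 : ∏ j ∈ Finset.univ.erase (2 : Fin 4), d j = d 0 * d 1 * d 3 := by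
      rw [show Finset.univ.erase (2 : Fin 4) = {0, 1, 3} by decide]
      rw [Finset.prod_insert (by decide), Finset.prod_insert (by decide), Finset.prod_singleton]
      ring
    show _ ∣ ∏ j ∈ Finset.univ.erase (2 : Fin 4), d j
    rw [e0]
    exact OrA_dvd3 h.vd 0 1 3 (by omega)
  · have e0 : ∏ j ∈ Finset.univ.erase (3 : Fin 4), d j = d 0 * d 1 * d 2 := by
      rw [show Finset.univ.erase (3 : Fin 4) = {0, 1, 2} by decide]
      rw [Finset.prod_insert (by decide), Finset.prod_insert (by decide), Finset.prod_singleton]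
      ring
    show _ ∣ ∏ j ∈ Finset.univ.erase (3 : Fin 4), d j
    rw [e0]
    exact OrA_dvd3 h.vd 0 1 2 le_rfl

/-- consequence for the gcd's -/
theorem Orth.mi2_ge (hl : l.Prime) (h : Orth G l e d v) : l ^ (v 0 + v 1) ∣ l ^ (4 * kp l) * mi2 G := by
  unfold mi2
  have h1 := Finset.gcd_mul_left (s := (Finset.univ : Finset ((Fin 4 × Fin 4) × (Fin 4 × Fin 4))))
    (f := fun p => (G p.1.1 p.2.1 * G p.1.2 p.2.2 - G p.1.1 p.2.2 * G p.1.2 p.2.1).natAbs)
    (a := l ^ (4 * kp l))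
  rw [normalize_eq] at h1
  rw [← h1]
  apply Finset.dvd_gcd
  intro p _
  have h2 := h.minors2 hl p.1.1 p.1.2 p.2.1 p.2.2
  have h3 := Int.natAbs_dvd_natAbs.2 h2
  rw [Int.natAbs_mul, Int.natAbs_pow, Int.natAbs_pow, Int.natAbs_natCast] at h3
  exact h3

theorem Orth.mi3_ge (hl : l.Prime) (h : Orth G l e d v) : l ^ (v 0 + v 1 + v 2) ∣ l ^ (2 * kp l) * mi3 G := by
  unfold mi3
  have h1 := Finset.gcd_mul_left (s := (Finset.univ : Finset (Fin 4 × Fin 4)))
    (f := fun p => (G.adjugate p.1 p.2).natAbs) (a := l ^ (2 * kp l))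
  rw [normalize_eq] at h1
  rw [← h1]
  apply Finset.dvd_gcd
  intro p _
  have h2 := h.minors3 hl p.1 p.2
  have h3 := Int.natAbs_dvd_natAbs.2 h2
  rw [Int.natAbs_mul, Int.natAbs_pow, Int.natAbs_pow, Int.natAbs_natCast] at h3
  exact h3

end Pool.Agent.PP5N
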