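import Pool.Agent.PP5N.Defs

/-!
# PP5 (d1): orthogonal vectors, general dimension
-/

set_option autoImplicit false

namespace Pool.Agent.PP5N

open Matrix Pool.Agent.PP5B

private def OrI_B {n : ℕ} (G : Matrix (Fin n) (Fin n) ℤ) (x y : Fin n → ℤ) : ℤ := x ⬝ᵥ (G *ᵥ y)

section bilinear

variable {n : ℕ} (G : Matrix (Fin n) (Fin n) ℤ)

private theorem OrI_add_left (x y z : Fin n → ℤ) :
    OrI_B G (x + y) z = OrI_B G x z + OrI_B G y z := by
  unfold OrI_B
  rw [add_dotProduct]

private theorem OrI_add_right (x y z : Fin n → ℤ) :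
    OrI_B G x (y + z) = OrI_B G x y + OrI_B G x z := by
  unfold OrI_B
  rw [mulVec_add, dotProduct_add]

private theorem OrI_sub_right (x y z : Fin n → ℤ) :
    OrI_B G x (y - z) = OrI_B G x y - OrI_B G x z := by
  unfold OrI_B
  rw [mulVec_sub, dotProduct_sub]

private theorem OrI_smul_left (c : ℤ) (x y : Fin n → ℤ) :
    OrI_B G (c • x) y = c * OrI_B G x y := by
  unfold OrI_B
  rw [smul_dotProduct, smul_eq_mul]

private theorem OrI_smul_right (c : ℤ) (x y : Fin n → ℤ) :
    OrI_B G x (c • y) = c * OrI_B G x y := by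
  unfold OrI_B
  rw [mulVec_smul, dotProduct_smul, smul_eq_mul]

private theorem OrI_sum (x y : Fin n → ℤ) :
    OrI_B G x y = ∑ i, ∑ j, x i * G i j * y j := by
  unfold OrI_B
  simp only [dotProduct, Matrix.mulVec, Finset.mul_sum]
  refine Finset.sum_congr rfl fun i _ => Finset.sum_congr rfl fun j _ => ?_
  ring

private theorem OrI_symm (hs : ∀ i j, G i j = G j i) (x y : Fin n → ℤ) :
    OrI_B G x y = OrI_B G y x := by
  rw [OrI_sum, OrI_sum, Finset.sum_comm]
  refine Finset.sum_congr rfl fun i _ => Finset.sum_congr rfl fun j _ => ?_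
  rw [hs j i]
  ring

private theorem OrI_single (i j : Fin n) : OrI_B G (Pi.single i 1) (Pi.single j 1) = G i j := by
  rw [OrI_sum]
  simp [Pi.single_apply]

private theorem OrI_entry (M : Matrix (Fin n) (Fin n) ℤ) (i k : Fin n) :
    (M * G * Mᵀ) i k = OrI_B G (M i) (M k) := by
  rw [OrI_sum, Matrix.mul_apply]
  simp only [Matrix.mul_apply, Matrix.transpose_apply, Finset.sum_mul]
  rw [Finset.sum_comm]

private theorem OrI_two (hs : ∀ i j, G i j = G j i) (x y : Fin n → ℤ) :
    2 * OrI_B G x y = OrI_B G (x + y) (x + y) - OrI_B G x x - OrI_B G y y := by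
  rw [OrI_add_left, OrI_add_right, OrI_add_right, OrI_symm G hs y x]
  ring

end bilinear

private theorem OrI_val {l : ℕ} (hl : l.Prime) {x : ℤ} (hx : x ≠ 0) :
    ∃ (a : ℕ) (g : ℤ), x = (l : ℤ) ^ a * g ∧ ¬ (l : ℤ) ∣ g := by
  have hf : FiniteMultiplicity (l : ℤ) x := by
    rw [Int.finiteMultiplicity_iff]
    refine ⟨?_, hx⟩
    rw [Int.natAbs_natCast]
    exact hl.ne_one
  obtain ⟨c, hc1, hc2⟩ := hf.exists_eq_pow_mul_and_not_dvd
  exact ⟨_, c, hc1, hc2⟩

/-- the matrix with first row `w` and the other rows `f k` -/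
private def OrI_M {n : ℕ} (w : Fin (n + 1) → ℤ) (f : Fin n → Fin (n + 1) → ℤ) :
    Matrix (Fin (n + 1)) (Fin (n + 1)) ℤ := Matrix.of (Fin.cons w f)

private theorem OrI_M0 {n : ℕ} (w : Fin (n + 1) → ℤ) (f : Fin n → Fin (n + 1) → ℤ) :
    OrI_M w f 0 = w := rfl

private theorem OrI_Ms {n : ℕ} (w : Fin (n + 1) → ℤ) (f : Fin n → Fin (n + 1) → ℤ) (k : Fin n) :
    OrI_M w f k.succ = f k := rfl

private theorem OrI_detM {n : ℕ} (w : Fin (n + 1) → ℤ) (i0 : Fin (n + 1)) (c : ℤ) (t : Fin n → ℤ) :
    (OrI_M w (fun k => c • (Pi.single (i0.succAbove k) 1 : Fin (n + 1) → ℤ) - t k • w)).det =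
      (-1) ^ (i0 : ℕ) * w i0 * c ^ n := by
  have h1 : (OrI_M w (fun k => c • (Pi.single (i0.succAbove k) 1 : Fin (n + 1) → ℤ) - t k • w)).det
      = (OrI_M w (fun k => c • (Pi.single (i0.succAbove k) 1 : Fin (n + 1) → ℤ))).det := by
    refine Matrix.det_eq_of_forall_row_eq_smul_add_const (Fin.cons 0 (fun k => -t k)) 0 rfl ?_
    intro i j
    refine Fin.cases ?_ (fun k => ?_) i
    · rw [OrI_M0, OrI_M0]
      simp
    · rw [OrI_Ms, OrI_Ms, OrI_M0]
      simp only [Pi.sub_apply, Pi.smul_apply, smul_eq_mul, Fin.cons_succ]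
      ring
  rw [h1, Matrix.det_succ_row_zero, Finset.sum_eq_single i0]
  · have h2 : (OrI_M w (fun k => c • (Pi.single (i0.succAbove k) 1 : Fin (n + 1) → ℤ))).submatrix
        Fin.succ i0.succAbove = c • (1 : Matrix (Fin n) (Fin n) ℤ) := by
      ext a b
      rw [Matrix.submatrix_apply, OrI_Ms, Matrix.smul_apply, Pi.smul_apply, Matrix.one_apply,
        Pi.single_apply]
      by_cases hab : a = b
      · subst hab
        simp
      · rw [if_neg hab, if_neg]
        intro h
        exact hab (Fin.succAbove_right_injective h).symm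
    rw [h2, Matrix.det_smul, Matrix.det_one, Fintype.card_fin, OrI_M0, mul_one]
  · intro j _ hj
    obtain ⟨k, hk⟩ := Fin.exists_succAbove_eq hj
    have h3 : ((OrI_M w (fun k => c • (Pi.single (i0.succAbove k) 1 : Fin (n + 1) → ℤ))).submatrix
        Fin.succ j.succAbove).det = 0 := by
      refine Matrix.det_eq_zero_of_row_eq_zero k fun b => ?_
      rw [Matrix.submatrix_apply, OrI_Ms, Pi.smul_apply, hk, Pi.single_apply, if_neg, smul_zero]
      exact Fin.succAbove_ne j b
    rw [h3, mul_zero]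
  · intro h
    exact absurd (Finset.mem_univ _) h

/-- determinant of a matrix whose first row is concentrated in the first entry -/
private theorem OrI_det0 {n : ℕ} (A : Matrix (Fin (n + 1)) (Fin (n + 1)) ℤ)
    (h : ∀ k : Fin n, A 0 k.succ = 0) :
    A.det = A 0 0 * (A.submatrix Fin.succ Fin.succ).det := by
  rw [Matrix.det_succ_row_zero, Fin.sum_univ_succ]
  have h1 : ∑ i : Fin n, (-1 : ℤ) ^ ((i.succ : Fin (n + 1)) : ℕ) * A 0 i.succ *
      (A.submatrix Fin.succ (i.succ).succAbove).det = 0 :=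
    Finset.sum_eq_zero fun i _ => by rw [h i]; ring
  rw [h1, add_zero]
  have h2 : A.submatrix Fin.succ (Fin.succAbove 0) = A.submatrix Fin.succ Fin.succ := by
    ext a b
    simp
  rw [h2]
  simp

private theorem OrI_main {l : ℕ} (hl : l.Prime) (n : ℕ) : ∀ G : Matrix (Fin n) (Fin n) ℤ,
    (∀ i j, G i j = G j i) → G.det ≠ 0 → ∃ (E : Matrix (Fin n) (Fin n) ℤ) (v : Fin n → ℕ),
      (∀ i k, i ≠ k → (E * G * Eᵀ) i k = 0) ∧
      (∀ i, ∃ g : ℤ, (E * G * Eᵀ) i i = (l : ℤ) ^ (v i) * g ∧ ¬ (l : ℤ) ∣ g) ∧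
      (∀ i k, i ≤ k → v i ≤ v k) ∧ ∃ (b : ℕ) (g : ℤ), b ≤ ta l * (n * (n - 1) / 2) ∧
        E.det = (l : ℤ) ^ b * g ∧ ¬ (l : ℤ) ∣ g := by
  have hp : Prime (l : ℤ) := Nat.prime_iff_prime_int.mp hl
  have hl0 : (l : ℤ) ≠ 0 := hp.ne_zero
  induction n with
  | zero =>
    intro G _ _
    refine ⟨1, fun _ => 0, ?_, ?_, ?_, 0, 1, Nat.zero_le _, ?_, ?_⟩
    · intro i; exact i.elim0
    · intro i; exact i.elim0
    · intro i; exact i.elim0
    · simp
    · intro h
      exact hp.not_isUnit (isUnit_of_dvd_one h)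
  | succ n ih =>
    intro G hs hdet
    -- a vector with non zero value
    have hex : ∃ x : Fin (n + 1) → ℤ, OrI_B G x x ≠ 0 := by
      by_contra hno
      push Not at hno
      apply hdet
      have hG : G = 0 := by
        ext i j
        have h1 := OrI_two G hs (Pi.single i 1) (Pi.single j 1)
        rw [hno, hno, hno, OrI_single] at h1
        have h2 : G i j = 0 := by linarith
        rw [h2]
        rfl
      rw [hG]
      exact Matrix.det_zero
    have hexa : ∃ a : ℕ, ∃ (x : Fin (n + 1) → ℤ) (g : ℤ), OrI_B G x x = (l : ℤ) ^ a * g ∧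
        ¬ (l : ℤ) ∣ g := by
      obtain ⟨x, hx⟩ := hex
      obtain ⟨a, g, h1, h2⟩ := OrI_val hl hx
      exact ⟨a, x, g, h1, h2⟩
    classical
    obtain ⟨w, g, hw, hg⟩ := Nat.find_spec hexa
    set a := Nat.find hexa with ha
    have hP : ∀ x, (l : ℤ) ^ a ∣ OrI_B G x x := by
      intro x
      by_cases hx : OrI_B G x x = 0
      · rw [hx]; exact dvd_zero _
      · obtain ⟨b, g', h1, h2⟩ := OrI_val hl hx
        have hab : a ≤ b := Nat.find_min' hexa ⟨x, g', h1, h2⟩
        rw [h1]
        exact Dvd.dvd.mul_right (pow_dvd_pow _ hab) _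
    have hla : (l : ℤ) ^ a ≠ 0 := pow_ne_zero _ hl0
    -- a coordinate prime to l
    have hi0 : ∃ i0, ¬ (l : ℤ) ∣ w i0 := by
      by_contra hno
      push Not at hno
      choose w' hw' using hno
      have hww : w = (l : ℤ) • w' := by
        funext i
        rw [Pi.smul_apply, smul_eq_mul]
        exact hw' i
      obtain ⟨c, hc⟩ := hP w'
      rw [hww, OrI_smul_left, OrI_smul_right, hc] at hw
      have h3 : (l : ℤ) ^ a * ((l : ℤ) * ((l : ℤ) * c)) = (l : ℤ) ^ a * g := by
        rw [← hw]; ring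
      have h4 := mul_left_cancel₀ hla h3
      exact hg ⟨_, h4.symm⟩
    obtain ⟨i0, hi0⟩ := hi0
    -- divisibility of the polar form
    have hpol : ∀ u, (l : ℤ) ^ a ∣ (l : ℤ) ^ ta l * OrI_B G w u := by
      intro u
      have h1 : (l : ℤ) ^ a ∣ 2 * OrI_B G w u := by
        rw [OrI_two G hs]
        exact dvd_sub (dvd_sub (hP _) (hP _)) (hP _)
      by_cases h2 : l = 2
      · have h3 : ta l = 1 := by rw [ta, if_pos h2]
        rw [h3, pow_one, h2]
        rw [h2] at h1
        exact_mod_cast h1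
      · have h3 : ta l = 0 := by rw [ta, if_neg h2]
        rw [h3, pow_zero, one_mul]
        have hcop : IsCoprime ((l : ℤ) ^ a) 2 := by
          apply IsCoprime.pow_left
          have h4 : Nat.Coprime l 2 := (Nat.coprime_primes hl Nat.prime_two).mpr h2
          exact_mod_cast Nat.isCoprime_iff_coprime.mpr h4
        exact hcop.dvd_of_dvd_mul_left h1
    choose tt htt using hpol
    set c : ℤ := g * (l : ℤ) ^ ta l with hc
    set f : Fin n → Fin (n + 1) → ℤ := fun k =>
      c • (Pi.single (i0.succAbove k) 1 : Fin (n + 1) → ℤ) -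
        tt (Pi.single (i0.succAbove k) 1) • w with hf
    have hwf : ∀ k, OrI_B G w (f k) = 0 := by
      intro k
      rw [hf]
      simp only
      rw [OrI_sub_right, OrI_smul_right, OrI_smul_right, hw]
      have h1 := htt (Pi.single (i0.succAbove k) 1)
      rw [hc]
      linear_combination g * h1
    set M := OrI_M w f with hM
    have hMdet : M.det = (-1) ^ (i0 : ℕ) * w i0 * c ^ n := OrI_detM w i0 c _
    have hMdet0 : M.det ≠ 0 := by
      rw [hMdet]
      have h1 : w i0 ≠ 0 := fun h => hi0 (by rw [h]; exact dvd_zero _)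
      have h2 : g ≠ 0 := fun h => hg (by rw [h]; exact dvd_zero _)
      have h3 : c ≠ 0 := mul_ne_zero h2 (pow_ne_zero _ hl0)
      exact mul_ne_zero (mul_ne_zero (pow_ne_zero _ (by norm_num)) h1) (pow_ne_zero _ h3)
    set H := M * G * Mᵀ with hH
    have hHe : ∀ i k, H i k = OrI_B G (M i) (M k) := fun i k => OrI_entry G M i k
    have hH00 : H 0 0 = (l : ℤ) ^ a * g := by rw [hHe]; exact hw
    have hH0s : ∀ k : Fin n, H 0 k.succ = 0 := by
      intro k; rw [hHe]; exact hwf k
    have hHsym : ∀ i k, H i k = H k i := by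
      intro i k
      rw [hHe, hHe, OrI_symm G hs]
    have hHs0 : ∀ k : Fin n, H k.succ 0 = 0 := by
      intro k; rw [hHsym]; exact hH0s k
    set G' := H.submatrix Fin.succ Fin.succ with hG'
    have hdetH : H.det = M.det * G.det * M.det := by
      rw [hH, Matrix.det_mul, Matrix.det_mul, Matrix.det_transpose]
    have hG'det : G'.det ≠ 0 := by
      intro h0
      have h1 := OrI_det0 H hH0s
      rw [← hG', h0, mul_zero, hdetH] at h1
      exact (mul_ne_zero (mul_ne_zero hMdet0 hdet) hMdet0) h1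
    obtain ⟨E', v', e1, e2, e3, b', g', hb', e4, e5⟩ := ih G' (fun i j => hHsym _ _) hG'det
    set N : Matrix (Fin (n + 1)) (Fin (n + 1)) ℤ :=
      OrI_M (Pi.single 0 1) (fun k => Fin.cons 0 (E' k)) with hN
    have hN00 : N 0 0 = 1 := by rw [hN, OrI_M0]; simp
    have hN0s : ∀ k : Fin n, N 0 k.succ = 0 := by
      intro k
      rw [hN, OrI_M0, Pi.single_apply, if_neg (Fin.succ_ne_zero k)]
    have hNs0 : ∀ k : Fin n, N k.succ 0 = 0 := by
      intro k
      rw [hN, OrI_Ms]
      rfl
    have hNss : ∀ k j : Fin n, N k.succ j.succ = E' k j := by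
      intro k j
      rw [hN, OrI_Ms]
      rfl
    have hNdet : N.det = E'.det := by
      rw [OrI_det0 N hN0s, hN00, one_mul]
      congr 1
    have hfin : ∀ i k, ((N * M) * G * (N * M)ᵀ) i k = (N * H * Nᵀ) i k := by
      intro i k
      have h1 : (N * M) * G * (N * M)ᵀ = N * H * Nᵀ := by
        rw [hH, Matrix.transpose_mul]
        simp only [Matrix.mul_assoc]
      rw [h1]
    have hNH : ∀ i k, (N * H * Nᵀ) i k = ∑ q, (∑ p, N i p * H p q) * N k q := by
      intro i k
      rw [Matrix.mul_apply]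
      refine Finset.sum_congr rfl fun q _ => ?_
      rw [Matrix.mul_apply, Matrix.transpose_apply]
    have h00 : (N * H * Nᵀ) 0 0 = (l : ℤ) ^ a * g := by
      rw [hNH, Fin.sum_univ_succ]
      simp only [hN0s, hN00, mul_zero, mul_one, Finset.sum_const_zero, add_zero]
      rw [Fin.sum_univ_succ]
      simp only [hN0s, hN00, zero_mul, one_mul, Finset.sum_const_zero, add_zero]
      exact hH00
    have h0s : ∀ k : Fin n, (N * H * Nᵀ) 0 k.succ = 0 := by
      intro k
      rw [hNH, Fin.sum_univ_succ, hNs0, mul_zero, zero_add]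
      refine Finset.sum_eq_zero fun q _ => ?_
      rw [Fin.sum_univ_succ]
      simp only [hN0s, hN00, zero_mul, one_mul, Finset.sum_const_zero, add_zero, hH0s]
    have hs0 : ∀ k : Fin n, (N * H * Nᵀ) k.succ 0 = 0 := by
      intro k
      rw [hNH, Fin.sum_univ_succ]
      simp only [hN0s, hN00, mul_zero, mul_one, Finset.sum_const_zero, add_zero]
      rw [Fin.sum_univ_succ]
      simp only [hNs0, hHs0, zero_mul, mul_zero, Finset.sum_const_zero, add_zero]
    have hss : ∀ i k : Fin n, (N * H * Nᵀ) i.succ k.succ = (E' * G' * E'ᵀ) i k := by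
      intro i k
      have h2 : (E' * G' * E'ᵀ) i k = ∑ q, (∑ p, E' i p * G' p q) * E' k q := by
        rw [Matrix.mul_apply]
        refine Finset.sum_congr rfl fun q _ => ?_
        rw [Matrix.mul_apply, Matrix.transpose_apply]
      rw [h2, hNH, Fin.sum_univ_succ, hNs0, mul_zero, zero_add]
      refine Finset.sum_congr rfl fun q _ => ?_
      rw [Fin.sum_univ_succ, hNs0, zero_mul, zero_add, hNss]
      congr 1
    refine ⟨N * M, Fin.cons a v', ?_, ?_, ?_, ?_⟩
    · intro i k hik
      rw [hfin]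
      revert hik
      refine Fin.cases ?_ (fun i' => ?_) i
      · refine Fin.cases ?_ (fun k' => ?_) k
        · intro h; exact absurd rfl h
        · intro _; exact h0s k'
      · refine Fin.cases ?_ (fun k' => ?_) k
        · intro _; exact hs0 i'
        · intro h
          rw [hss]
          exact e1 i' k' (fun h' => h (by rw [h']))
    · intro i
      rw [hfin]
      refine Fin.cases ?_ (fun i' => ?_) i
      · exact ⟨g, by rw [h00]; rfl, hg⟩
      · obtain ⟨g1, q1, q2⟩ := e2 i'
        exact ⟨g1, by rw [hss, q1]; rfl, q2⟩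
    · have hav : ∀ k, a ≤ v' k := by
        intro k
        obtain ⟨g1, q1, q2⟩ := e2 k
        refine Nat.find_min' hexa ⟨(N * M) k.succ, g1, ?_, q2⟩
        rw [← OrI_entry, hfin, hss, q1]
      intro i k
      refine Fin.cases ?_ (fun i' => ?_) i
      · refine Fin.cases ?_ (fun k' => ?_) k
        · intro _; exact le_rfl
        · intro _; exact hav k'
      · refine Fin.cases ?_ (fun k' => ?_) k
        · intro h
          exact absurd h (by simp)
        · intro h
          exact e3 i' k' (Fin.succ_le_succ_iff.mp h)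
    · refine ⟨b' + ta l * n, g' * ((-1) ^ (i0 : ℕ) * w i0 * g ^ n), ?_, ?_, ?_⟩
      · have h1 := Nat.triangle_succ n
        rw [h1, Nat.mul_add]
        exact Nat.add_le_add_right hb' _
      · rw [Matrix.det_mul, hNdet, e4, hMdet, hc, mul_pow, ← pow_mul, pow_add]
        ring
      · intro h
        rcases hp.dvd_or_dvd h with h | h
        · exact e5 h
        · rcases hp.dvd_or_dvd h with h | h
          · rcases hp.dvd_or_dvd h with h | h
            · have h1 := hp.dvd_of_dvd_pow h
              rw [Int.dvd_neg] at h1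
              exact hp.not_isUnit (isUnit_of_dvd_one h1)
            · exact hi0 h
          · exact hg (hp.dvd_of_dvd_pow h)

/-- ORTHOGONAL VECTORS (size 4).  A symmetric integral matrix with non zero determinant is diagonalised by an integral
matrix `E` whose determinant is almost prime to `l`; the valuations of the diagonal are nondecreasing.

Proof: induction on `n` (`n = 0` trivial).  For `n + 1`: some `w` has `w . G w ≠ 0` (otherwise by polarisation `G = 0`).
Choose `w` with `w . G w = l ^ a * g`, `l` not dividing `g`, and `a` minimal.  (i) some coordinate `w i0` is prime to `l`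
(otherwise `w = l w'` and `w'` has exponent `a - 2`).  (ii) for every `u`: `l ^ a` divides `l ^ ta l * (w . G u)`:
`2 (w . G u) = q (w + u) - q w - q u`, where `q x = x . G x` is divisible by `l ^ a` for all `x` (it is `0` or has
valuation `≥ a`); for odd `l` cancel the 2.  Put `f k = g * l ^ ta l * e_(i0.succAbove k) - (l ^ ta l * (w . G e_(..)) / l ^ a) * w`,
`k : Fin n`: `w . G (f k) = 0`.  The matrix `M` with rows `w, f 0, .., f (n-1)` has determinant `± w i0 * (g * l ^ ta l) ^ n`
(subtract multiples of the first row), so its `l`-valuation is exactly `n * ta l`.  `M G M^T` is the block matrix of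
`w . G w` and `G' k k' = f k . G f k'`, so `det G' ≠ 0`; apply the induction hypothesis to `G'` and put
`E = (1, E') * M`.  The exponents: `v 0 = a ≤ v i` because every value of `q` is `0` or has valuation `≥ a`. -/
theorem orth_n {l : ℕ} (hl : l.Prime) (n : ℕ) : ∀ G : Matrix (Fin n) (Fin n) ℤ, (∀ i j, G i j = G j i) →
    G.det ≠ 0 → ∃ (E : Matrix (Fin n) (Fin n) ℤ) (v : Fin n → ℕ),
      (∀ i k, i ≠ k → (E * G * Eᵀ) i k = 0) ∧
      (∀ i, ∃ g : ℤ, (E * G * Eᵀ) i i = (l : ℤ) ^ (v i) * g ∧ ¬ (l : ℤ) ∣ g) ∧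
      (∀ i k, i ≤ k → v i ≤ v k) ∧ ¬ (l : ℤ) ^ (ta l * (n * (n - 1) / 2) + 1) ∣ E.det := by
  intro G hs hdet
  obtain ⟨E, v, h1, h2, h3, b, g, hb, h4, h5⟩ := OrI_main hl n G hs hdet
  refine ⟨E, v, h1, h2, h3, ?_⟩
  intro h
  apply h5
  have hl0 : (l : ℤ) ≠ 0 := by exact_mod_cast hl.ne_zero
  have h6 : (l : ℤ) ^ (b + 1) ∣ (l : ℤ) ^ b * g := by
    rw [← h4]
    exact (pow_dvd_pow _ (by omega)).trans h
  rw [pow_succ] at h6
  exact Int.dvd_of_mul_dvd_mul_left (pow_ne_zero _ hl0) h6

end Pool.Agent.PP5N
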