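import Pool.Agent.PP5N.Defs
import Pool.Agent.PP5N.OrI

/-!
# PP5 (d1): orthogonal vectors for a quaternary form
-/

set_option autoImplicit false

namespace Pool.Agent.PP5N

open Matrix Pool.Agent.PP5B

private theorem OrV_entry (E G : Matrix (Fin 4) (Fin 4) ℤ) (i k : Fin 4) :
    (E * G * Eᵀ) i k = E i ⬝ᵥ (G *ᵥ E k) := by
  rw [Matrix.mul_apply]
  simp only [Matrix.mul_apply, Matrix.transpose_apply, dotProduct, Matrix.mulVec, Finset.sum_mul,
    Finset.mul_sum]
  rw [Finset.sum_comm]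
  refine Finset.sum_congr rfl fun p _ => Finset.sum_congr rfl fun j _ => ?_
  ring

/-- size 2.  `orth_n` with `n = 4`, `e i = E i` (rows), `d i = (E * G * E^T) i i`; `4 * 3 / 2 = 6` and `ta l * 6 = kp l`.
`(E * G * E^T) i k = E i . (G *v E k)`. -/
theorem exists_orth {G : Matrix (Fin 4) (Fin 4) ℤ} (hsym : ∀ i j, G i j = G j i) (hdet : G.det ≠ 0)
    {l : ℕ} (hl : l.Prime) : ∃ e d v, Orth G l e d v := by
  obtain ⟨E, v, h1, h2, h3, h4⟩ := orth_n hl 4 G hsym hdet
  refine ⟨fun i => E i, fun i => (E * G * Eᵀ) i i, v, ?_⟩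
  refine ⟨?_, ?_, ?_, ?_⟩
  · intro i k hik
    rw [← OrV_entry]
    exact h1 i k hik
  · intro i
    rw [← OrV_entry]
  · exact ⟨h2, h3 0 1 (by decide), h3 1 2 (by decide), h3 2 3 (by decide)⟩
  · have hk : kp l = ta l * (4 * (4 - 1) / 2) := by
      unfold kp ta
      split_ifs <;> rfl
    rw [hk]
    exact h4

end Pool.Agent.PP5N
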