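import Pool.Agent.PP5N.Defs
import Pool.Agent.PP5N.OrV
import Pool.Agent.PP5N.OrA
import Pool.Agent.PP5N.Cng
import Pool.Agent.PP5N.LmA

/-!
# PP5 (d1): the lattices at one prime
-/

set_option autoImplicit false

namespace Pool.Agent.PP5N

open Matrix Pool.Agent.PP5B

variable {G : Matrix (Fin 4) (Fin 4) ℤ} {l : ℕ} {e : Fin 4 → Fin 4 → ℤ} {d : Fin 4 → ℤ} {v : Fin 4 → ℕ}

/-- a factor whose exponent is at most `k` can be replaced by `l ^ k` -/
private theorem GmL_slack (hl : l.Prime) {k n : ℕ} {D x : ℤ} (hD : ¬ (l : ℤ) ^ (k + 1) ∣ D)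
    (h : (l : ℤ) ^ n ∣ D * x) : (l : ℤ) ^ n ∣ (l : ℤ) ^ k * x := by
  have hlp : Prime (l : ℤ) := Nat.prime_iff_prime_int.mp hl
  have hfin : FiniteMultiplicity (l : ℤ) D := by
    by_contra hcon
    exact hD (FiniteMultiplicity.not_iff_forall.mp hcon (k + 1))
  obtain ⟨g, hg, hlg⟩ := hfin.exists_eq_pow_mul_and_not_dvd
  set b := multiplicity (l : ℤ) D with hb
  have hbk : b ≤ k := by
    by_contra hcon
    apply hD
    rw [hg]
    exact Dvd.dvd.mul_right (pow_dvd_pow _ (by omega)) _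
  have hcop : IsCoprime ((l : ℤ) ^ n) g :=
    IsCoprime.pow_left ((hlp.irreducible.coprime_iff_not_dvd).mpr hlg)
  have h1 : (l : ℤ) ^ n ∣ g * ((l : ℤ) ^ b * x) := by
    have : D * x = g * ((l : ℤ) ^ b * x) := by rw [hg]; ring
    rwa [this] at h
  have h2 : (l : ℤ) ^ n ∣ (l : ℤ) ^ b * x := hcop.dvd_of_dvd_mul_left h1
  exact h2.trans (mul_dvd_mul_right (pow_dvd_pow _ hbk) _)

/-- size 2.  Four vectors of `gam e l i j`: `det M * det E = det (M * E^T)`, whose columns 2 and 3 are divisible by `l ^ i`, `l ^ j`;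
the exponent of `l` in `det E` is at most `kp l`. -/
theorem gam_det (hl : l.Prime) (h : Orth G l e d v) (i j : ℕ) (M : Matrix (Fin 4) (Fin 4) ℤ)
    (hM : ∀ r, M r ∈ gam e l i j) : (l : ℤ) ^ (i + j) ∣ (l : ℤ) ^ kp l * M.det := by
  refine GmL_slack hl h.det ?_
  choose x hx using fun r => (mem_gam.1 (hM r)).1
  choose y hy using fun r => (mem_gam.1 (hM r)).2
  let A : Matrix (Fin 4) (Fin 4) ℤ := Matrix.of fun r c =>
    if c = 2 then x r else if c = 3 then y r else (M * (Matrix.of e)ᵀ) r c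
  have hA : M * (Matrix.of e)ᵀ = A * Matrix.diagonal ![1, 1, (l : ℤ) ^ i, (l : ℤ) ^ j] := by
    ext r c
    rw [Matrix.mul_diagonal]
    have hME : (M * (Matrix.of e)ᵀ) r c = M r ⬝ᵥ e c := rfl
    fin_cases c
    · simp [A]
    · simp [A]
    · have : (M * (Matrix.of e)ᵀ) r 2 = x r * (l : ℤ) ^ i := by
        show M r ⬝ᵥ e 2 = _
        rw [hx r]; ring
      simpa [A] using this
    · have : (M * (Matrix.of e)ᵀ) r 3 = y r * (l : ℤ) ^ j := by
        show M r ⬝ᵥ e 3 = _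
        rw [hy r]; ring
      simpa [A] using this
  have hdet : (Matrix.of e).det * M.det = A.det * ((l : ℤ) ^ i * (l : ℤ) ^ j) := by
    have h1 := congrArg Matrix.det hA
    rw [Matrix.det_mul, Matrix.det_mul, Matrix.det_transpose, Matrix.det_diagonal,
      Fin.prod_univ_four] at h1
    rw [mul_comm, h1]
    simp
  rw [hdet, pow_add]
  exact Dvd.intro_left _ rfl

/-- size 2.  `det E * w = sum c k e k` with integers `c k` (`adj E`), so `det E * ((G w) . e r) = c r * d r`, divisible by `l ^ (v r)`,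
and the exponent of `l` in `det E` is at most `kp l`: `l ^ (v r) | l ^ kp l * ((G w) . e r)`. -/
theorem gam_img (hl : l.Prime) (hsym : ∀ i j, G i j = G j i) (h : Orth G l e d v) {i j : ℕ}
    (hi : i ≤ v 2) (hj : j ≤ v 3) (w : Fin 4 → ℤ) : ((l : ℤ) ^ kp l) • (G *ᵥ w) ∈ gam e l i j := by
  have key : ∀ r, (l : ℤ) ^ (v r) ∣ (((l : ℤ) ^ kp l) • (G *ᵥ w)) ⬝ᵥ e r := by
    intro r
    rw [smul_dotProduct, smul_eq_mul]
    refine GmL_slack hl h.det ?_
    set E : Matrix (Fin 4) (Fin 4) ℤ := Matrix.of e with hE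
    have h1 : Eᵀ *ᵥ (w ᵥ* E.adjugate) = E.det • w := by
      rw [Matrix.mulVec_transpose, Matrix.vecMul_vecMul, Matrix.adjugate_mul, Matrix.vecMul_smul,
        Matrix.vecMul_one]
    have h2 : E.det * ((G *ᵥ w) ⬝ᵥ e r) = d r * (w ᵥ* E.adjugate) r := by
      have h3 : E.det * ((G *ᵥ w) ⬝ᵥ e r) = (E *ᵥ (G *ᵥ (Eᵀ *ᵥ (w ᵥ* E.adjugate)))) r := by
        rw [h1, Matrix.mulVec_smul, Matrix.mulVec_smul, Pi.smul_apply, smul_eq_mul, dotProduct_comm]
        rfl
      rw [h3, Matrix.mulVec_mulVec, Matrix.mulVec_mulVec, h.diag,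
        Matrix.mulVec_diagonal]
    rw [h2]
    obtain ⟨g, hg, -⟩ := h.vd.val r
    rw [hg, mul_assoc]
    exact Dvd.intro _ rfl
  exact mem_gam.2 ⟨(pow_dvd_pow _ hi).trans (key 2), (pow_dvd_pow _ hj).trans (key 3)⟩

private theorem GmL_pow (l : ℕ) : l ^ kp l = 2 ^ kp l := by
  unfold kp
  split_ifs with h
  · rw [h]
  · simp

/-- size 3.  The lattices at one prime: at most `n + 1` lattices `Γ a`, the index is at least `l ^ N1` up to `2 ^ 6`, where
`l ^ n | 2 ^ (36 * ta l) * mi2 G * l ^ N1`, `64 G w ∈ Γ a`, and all bad `m` are covered.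
Proof: `exists_orth`; `κ = kp l`, `N1 = n - (v 0 + v 1 + 2 κ)`; the index set is `Fin (n + 1)`, and
`Γ a = gam e l i (N1 - i)` with `i = a` if `a ≤ v 2`, `a ≤ N1`, `N1 - a ≤ v 3`; if `a` does not satisfy this use some fixed good `i`
(there is one: `v 2 + v 3 ≥ N1` by `Orth.det_le`, take `i = min (v 2) N1`).  The coordinates `m . e i` of a primitive `m` are not all divisible by
`l ^ (κ + 1)` (`adj E * (E m) = det E * m`).  `cng` and `lmA`.  `mi2`: `Orth.mi2_ge`, `4 κ + 2 κ = 36 * ta l`.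
`l ^ kp l` divides 64 and `64 G w = (64 / l ^ kp l) * (l ^ kp l * G w)`. -/
theorem gmL (hsym : ∀ i j, G i j = G j i) (hdet : G.det ≠ 0) (hl : l.Prime) (n : ℕ)
    (hn : (l : ℤ) ^ n ∣ G.det) :
    ∃ (N1 : ℕ) (Γ : Fin (n + 1) → AddSubgroup (Fin 4 → ℤ)), l ^ n ∣ 2 ^ (36 * ta l) * mi2 G * l ^ N1 ∧
      (∀ a, ∀ M : Matrix (Fin 4) (Fin 4) ℤ, (∀ r, M r ∈ Γ a) → (l : ℤ) ^ N1 ∣ 2 ^ kp l * M.det) ∧
      (∀ a w, (64 : ℤ) • (G *ᵥ w) ∈ Γ a) ∧
      ∀ m, Pr4 m → mnQ G m ((l : ℤ) ^ n) → ∃ a, m ∈ Γ a := by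
  classical
  obtain ⟨e, d, v, h⟩ := exists_orth hsym hdet hl
  have hle := h.det_le hl hn
  have hpow := GmL_pow l
  have hpowZ : (l : ℤ) ^ kp l = 2 ^ kp l := by exact_mod_cast hpow
  set N1 := n - (v 0 + v 1 + 2 * kp l) with hN1
  let f : ℕ → ℕ := fun a => if a ≤ v 2 ∧ a ≤ N1 ∧ N1 - a ≤ v 3 then a else min (v 2) N1
  have hf : ∀ a, f a ≤ v 2 ∧ f a ≤ N1 ∧ N1 - f a ≤ v 3 := by
    intro a
    by_cases hc : a ≤ v 2 ∧ a ≤ N1 ∧ N1 - a ≤ v 3
    · have : f a = a := by simp only [f, if_pos hc]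
      rw [this]; exact hc
    · have : f a = min (v 2) N1 := by simp only [f, if_neg hc]
      rw [this]
      refine ⟨min_le_left _ _, min_le_right _ _, ?_⟩
      rcases le_total (v 2) N1 with h1 | h1
      · rw [min_eq_left h1]; omega
      · rw [min_eq_right h1]; omega
  refine ⟨N1, fun a => gam e l (f a) (N1 - f a), ?_, ?_, ?_, ?_⟩
  · have h6 : l ^ (6 * kp l) = 2 ^ (36 * ta l) := by
      unfold kp ta
      split_ifs with hh
      · rw [hh]
      · simp
    have h1 : l ^ n ∣ l ^ (v 0 + v 1) * (l ^ (2 * kp l) * l ^ N1) := by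
      rw [← pow_add, ← pow_add]
      exact pow_dvd_pow _ (by omega)
    have h2 : l ^ (v 0 + v 1) * (l ^ (2 * kp l) * l ^ N1) ∣
        (l ^ (4 * kp l) * mi2 G) * (l ^ (2 * kp l) * l ^ N1) :=
      mul_dvd_mul_right (h.mi2_ge hl) _
    have h3 : (l ^ (4 * kp l) * mi2 G) * (l ^ (2 * kp l) * l ^ N1) =
        2 ^ (36 * ta l) * mi2 G * l ^ N1 := by
      rw [← h6]
      have : l ^ (6 * kp l) = l ^ (4 * kp l) * l ^ (2 * kp l) := by
        rw [← pow_add]; congr 1; ring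
      rw [this]; ring
    rw [← h3]
    exact h1.trans h2
  · intro a M hM
    have h1 := gam_det hl h (f a) (N1 - f a) M hM
    rw [hpowZ] at h1
    have : f a + (N1 - f a) = N1 := by have := (hf a).2.1; omega
    rwa [this] at h1
  · intro a w
    have h1 := gam_img hl hsym h (hf a).1 (hf a).2.2 w
    by_cases hh : l = 2
    · have : ((l : ℤ) ^ kp l) = 64 := by
        rw [hpowZ]; unfold kp; rw [if_pos hh]; norm_num
      rwa [this] at h1
    · have : ((l : ℤ) ^ kp l) = 1 := by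
        unfold kp; rw [if_neg hh]; norm_num
      rw [this, one_smul] at h1
      exact AddSubgroup.zsmul_mem _ h1 64
  · intro m hm hbad
    have hcg := cng hsym h.orth h.dd hm hbad
    have ha : ∃ i, ¬ (l : ℤ) ^ (kp l + 1) ∣ (fun i => m ⬝ᵥ e i) i := by
      by_contra hcon
      push Not at hcon
      apply hm l hl
      intro i
      have h1 : (Matrix.of e).adjugate *ᵥ ((Matrix.of e) *ᵥ m) = (Matrix.of e).det • m := by
        rw [Matrix.mulVec_mulVec, Matrix.adjugate_mul, Matrix.smul_mulVec, Matrix.one_mulVec]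
      have h2 : (l : ℤ) ^ (kp l + 1) ∣ (Matrix.of e).det * m i := by
        have h3 : (Matrix.of e).det * m i = ((Matrix.of e).adjugate *ᵥ ((Matrix.of e) *ᵥ m)) i := by
          rw [h1]; rfl
        rw [h3]
        have h5 : ((Matrix.of e).adjugate *ᵥ ((Matrix.of e) *ᵥ m)) i =
            ∑ k, (Matrix.of e).adjugate i k * ((Matrix.of e) *ᵥ m) k := rfl
        rw [h5]
        refine Finset.dvd_sum fun k _ => Dvd.dvd.mul_left ?_ _
        have h4 : ((Matrix.of e) *ᵥ m) k = m ⬝ᵥ e k := by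
          rw [dotProduct_comm]; rfl
        rw [h4]
        exact hcon k
      have h3 := GmL_slack hl h.det h2
      rw [pow_succ] at h3
      exact (mul_dvd_mul_iff_left (pow_ne_zero _ (by exact_mod_cast hl.ne_zero))).1 h3
    obtain ⟨i, h1, h2, h3, h4, h5⟩ := lmA hl h.vd hcg ha hle
    have hin : i < n + 1 := by omega
    refine ⟨⟨i, hin⟩, ?_⟩
    have hfi : f i = i := by
      simp only [f]
      rw [if_pos ⟨h1, h2, h3⟩]
    show m ∈ gam e l (f i) (N1 - f i)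
    rw [hfi]
    exact mem_gam.2 ⟨h4, h5⟩

end Pool.Agent.PP5N
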