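import Pool.Agent.PP5N.Defs
import Pool.Agent.PP5N.GmL

/-!
# PP5 (d1): the lattices for all primes
-/

set_option autoImplicit false

namespace Pool.Agent.PP5N

open Matrix Pool.Agent.PP5B

private theorem cop {S : Finset ℕ} (hS : ∀ l ∈ S, Nat.Prime l) (f : S → ℕ) :
    Pairwise (Function.onFun IsCoprime fun l : S => (((l : ℕ) : ℤ)) ^ f l) := by
  intro a b hab
  show IsCoprime ((((a : ℕ) : ℤ)) ^ f a) ((((b : ℕ) : ℤ)) ^ f b)
  apply IsCoprime.pow
  rw [Nat.isCoprime_iff_coprime]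
  exact (Nat.coprime_primes (hS a a.2) (hS b b.2)).2 fun h => hab (Subtype.ext h)

/-- size 4.  Intersections over the primes `l | s` of the lattices of `gmL` with `n = 2 * s.factorization l`
(`l ^ n | G.det` from `hsd`).  Index set: the functions choosing `a_l : Fin (n_l + 1)` for every `l ∈ s.primeFactors`
(`Fintype.piFinset` or dependent functions, transported to `Fin ι` by `Fintype.equivFin`), `ι = ∏ (2 * s.factorization l + 1)`.
`P = ∏ l ^ (N1 l)`; `P | 2 ^ 6 * det M` (coprime prime powers; only `l = 2` needs `2 ^ 6`), and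
`s ^ 2 | 2 ^ 36 * mi2 G * P`. -/
theorem gmG {G : Matrix (Fin 4) (Fin 4) ℤ} (hsym : ∀ i j, G i j = G j i) (hdet : G.det ≠ 0)
    {s : ℕ} (hs : 0 < s) (hsd : ((s : ℤ) ^ 2) ∣ G.det) :
    ∃ (ι P : ℕ) (Γ : Fin ι → AddSubgroup (Fin 4 → ℤ)),
      ι ≤ ∏ l ∈ s.primeFactors, (2 * s.factorization l + 1) ∧ 0 < P ∧ s ^ 2 ∣ 2 ^ 36 * mi2 G * P ∧
      (∀ a, ∀ M : Matrix (Fin 4) (Fin 4) ℤ, (∀ r, M r ∈ Γ a) → (P : ℤ) ∣ 2 ^ 6 * M.det) ∧
      (∀ a w, (64 : ℤ) • (G *ᵥ w) ∈ Γ a) ∧
      ∀ m, Pr4 m → mnQ G m ((s : ℤ) ^ 2) → ∃ a, m ∈ Γ a := by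
  classical
  have hl : ∀ l : s.primeFactors, (l : ℕ).Prime := fun l => Nat.prime_of_mem_primeFactors l.2
  have hdv : ∀ l : ℕ, l ^ (2 * s.factorization l) ∣ s ^ 2 := by
    intro l
    rw [mul_comm, pow_mul]
    exact pow_dvd_pow_of_dvd (Nat.ordProj_dvd s l) 2
  have hdz : ∀ l : ℕ, ((l : ℤ)) ^ (2 * s.factorization l) ∣ (s : ℤ) ^ 2 := by
    intro l
    exact_mod_cast hdv l
  choose N1 Γ h1 h2 h3 h4 using fun l : s.primeFactors =>
    gmL hsym hdet (hl l) (2 * s.factorization (l : ℕ)) ((hdz l).trans hsd)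
  have hcz := fun f : s.primeFactors → ℕ =>
    cop (S := s.primeFactors) (fun l hl => Nat.prime_of_mem_primeFactors hl) f
  refine ⟨Fintype.card ((l : s.primeFactors) → Fin (2 * s.factorization (l : ℕ) + 1)),
    ∏ l : s.primeFactors, (l : ℕ) ^ N1 l,
    fun a => ⨅ l : s.primeFactors, Γ l ((Fintype.equivFin
      ((l : s.primeFactors) → Fin (2 * s.factorization (l : ℕ) + 1))).symm a l), ?_, ?_, ?_, ?_, ?_, ?_⟩
  · rw [Fintype.card_pi]
    simp only [Fintype.card_fin]
    exact le_of_eq (Finset.prod_coe_sort s.primeFactors fun l => 2 * s.factorization l + 1)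
  · exact Finset.prod_pos fun l _ => pow_pos (hl l).pos _
  · have e1 : (s : ℤ) ^ 2 = ∏ l : s.primeFactors, (((l : ℕ) : ℤ)) ^ (2 * s.factorization (l : ℕ)) := by
      have e2 : s = ∏ l ∈ s.primeFactors, l ^ s.factorization l := by
        have := Nat.prod_factorization_pow_eq_self hs.ne'
        rw [Finsupp.prod, Nat.support_factorization] at this
        exact this.symm
      have e3 : ((s : ℤ)) = ∏ l ∈ s.primeFactors, ((l : ℤ)) ^ s.factorization l := by
        conv_lhs => rw [e2]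
        push_cast
        rfl
      rw [Finset.prod_coe_sort s.primeFactors fun l : ℕ => ((l : ℤ)) ^ (2 * s.factorization l)]
      conv_lhs => rw [e3]
      rw [← Finset.prod_pow]
      refine Finset.prod_congr rfl fun l _ => ?_
      rw [← pow_mul, mul_comm]
    have e4 : (s : ℤ) ^ 2 ∣ ((2 ^ 36 * mi2 G * ∏ l : s.primeFactors, (l : ℕ) ^ N1 l : ℕ) : ℤ) := by
      rw [e1]
      refine Fintype.prod_dvd_of_coprime (hcz _) fun l => ?_
      have h5 : (l : ℕ) ^ (2 * s.factorization (l : ℕ)) ∣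
          2 ^ 36 * mi2 G * ∏ l : s.primeFactors, (l : ℕ) ^ N1 l := by
        refine (h1 l).trans (mul_dvd_mul (mul_dvd_mul_right ?_ _) ?_)
        · refine pow_dvd_pow _ ?_
          unfold ta
          split_ifs <;> norm_num
        · exact Finset.dvd_prod_of_mem (fun l : s.primeFactors => (l : ℕ) ^ N1 l) (Finset.mem_univ l)
      exact_mod_cast h5
    exact_mod_cast e4
  · intro a M hM
    have e1 : ((∏ l : s.primeFactors, (l : ℕ) ^ N1 l : ℕ) : ℤ) =
        ∏ l : s.primeFactors, (((l : ℕ) : ℤ)) ^ N1 l := by push_cast; rfl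
    rw [e1]
    refine Fintype.prod_dvd_of_coprime (hcz _) fun l => ?_
    have h5 := h2 l _ M fun r => (AddSubgroup.mem_iInf.1 (hM r)) l
    have h6 : (2 : ℤ) ^ kp (l : ℕ) ∣ 2 ^ 6 := by
      refine pow_dvd_pow _ ?_
      unfold kp
      split_ifs <;> norm_num
    exact h5.trans (mul_dvd_mul_right h6 _)
  · intro a w
    rw [AddSubgroup.mem_iInf]
    intro l
    exact h3 l _ w
  · intro m hm hq
    have h5 : ∀ l : s.primeFactors, ∃ a, m ∈ Γ l a := by
      intro l
      refine h4 l m hm ?_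
      intro u u' w w' c1 c2 c3 c4
      exact (hdz l).trans (hq u u' w w' c1 c2 c3 c4)
    choose a ha using h5
    refine ⟨Fintype.equivFin _ a, ?_⟩
    rw [AddSubgroup.mem_iInf]
    intro l
    rw [Equiv.symm_apply_apply]
    exact ha l

end Pool.Agent.PP5N
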