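import Pool.Agent.PP5N.Defs

/-!
# PP5 (d1): counting in a plane
-/

set_option autoImplicit false

namespace Pool.Agent.PP5N

open Matrix Pool.Agent.PP5B

private theorem PlC_bez {c : Fin 4 → ℤ} (hc : Pr4 c) : ∃ b : Fin 4 → ℤ, ∑ i, c i * b i = 1 := by
  obtain ⟨U, -, hU⟩ := ex_U c hc
  refine ⟨fun i => U i 3, ?_⟩
  have := congrFun hU 3
  simpa [vecMul, dotProduct] using this

private theorem PlC_prop {c : Fin 4 → ℤ} (hc : Pr4 c) {v : Fin 4 → ℤ}
    (h : ∀ i k, c i * v k = c k * v i) : ∃ t : ℤ, v = t • c := by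
  obtain ⟨b, hb⟩ := PlC_bez hc
  refine ⟨∑ k, b k * v k, ?_⟩
  funext i
  have h1 : v i = v i * ∑ k, c k * b k := by rw [hb, mul_one]
  rw [h1, Finset.mul_sum, Pi.smul_apply, smul_eq_mul, Finset.sum_mul]
  refine Finset.sum_congr rfl fun k _ => ?_
  have := h i k
  linear_combination (-(b k)) * this

private theorem PlC_pm {c v : Fin 4 → ℤ} (hv : Pr4 v) {t : ℤ} (h : v = t • c) :
    v = c ∨ v = -c := by
  have ht : t.natAbs = 1 := by
    by_contra h1
    obtain ⟨p, hp, hd⟩ := Nat.exists_prime_and_dvd h1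
    refine hv p hp fun i => ?_
    rw [h, Pi.smul_apply, smul_eq_mul]
    exact dvd_mul_of_dvd_left (Int.natCast_dvd.2 hd) _
  rcases Int.natAbs_eq_iff.1 ht with h2 | h2
  · left; rw [h, h2]; simp
  · right; rw [h, h2]; simp

private theorem PlC_ne {p q : Fin 4 → ℤ} (hpq : Pr2 p q) : ∃ i k, p i * q k - p k * q i ≠ 0 := by
  obtain ⟨i, k, h⟩ := hpq 2 Nat.prime_two
  exact ⟨i, k, fun h0 => h (by rw [h0]; exact dvd_zero _)⟩

/-- size 4.  Primitive vectors of a plane with all `2 x 2` minors of pairs divisible by `n`.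
Proof: if `X` is empty fine.  Let `X1 ∈ X` have the largest weighted norm `u1 = max |X1 i| / w i` (`≤ u`).  If all minors of `(X1, Z)`, `Z ∈ X`,
vanish, then every `Z = ± X1` (both primitive): at most 2 points.  Otherwise let `(i, k)` be a pair of coordinates with
`p i q k - p k q i ≠ 0` and `D Z = X1 i * Z k - X1 k * Z i`; for all `Z`, `Z'` in the plane `D Z = 0` implies that `X1, Z` are
proportional.  `D Z` is a multiple of `n` with `|D Z| ≤ 2 u ^ 2 w i w k ≤ 2 u ^ 2 B`: at most `1 + 4 u ^ 2 B / n` values.  If `D Z = D Z'` then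
`Z - Z' = t X1` with `t` an integer (`X1` is primitive, `Z - Z'` integral and proportional to `X1`) and
`|t| u1 ≤ 2 u1`: at most 5 points for one value.  Some `D Z ≠ 0`, so `n ≤ 2 u ^ 2 B`, and
`card X ≤ 5 (1 + 4 u ^ 2 B / n) ≤ 30 u ^ 2 B / n`. -/
theorem plC {w : Fin 4 → ℝ} (hw : ∀ i, 0 < w i) {u B : ℝ} (hu : 0 < u)
    (hB : ∀ i k, i ≠ k → w i * w k ≤ B) {n : ℕ} (hn : 0 < n) {p q : Fin 4 → ℤ} (hpq : Pr2 p q)
    (X : Finset (Fin 4 → ℤ)) (h1 : ∀ m ∈ X, Pr4 m) (h2 : ∀ m ∈ X, ∀ i, |(m i : ℝ)| ≤ u * w i)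
    (h3 : ∀ m ∈ X, ∃ x y : ℤ, m = x • p + y • q)
    (h4 : ∀ m ∈ X, ∀ m' ∈ X, ∀ i k, (n : ℤ) ∣ m i * m' k - m k * m' i) :
    (X.card : ℝ) ≤ 2 + 30 * u ^ 2 * B / n := by
  classical
  have hnR : (0 : ℝ) < n := by exact_mod_cast hn
  have hB0 : 0 < B := lt_of_lt_of_le (mul_pos (hw 0) (hw 1)) (hB 0 1 (by decide))
  have hM0 : 0 ≤ u ^ 2 * B / n := by positivity
  have hgoal : 30 * u ^ 2 * B / n = 30 * (u ^ 2 * B / n) := by ring
  rw [hgoal]
  rcases X.eq_empty_or_nonempty with hX | hX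
  · rw [hX]; simp only [Finset.card_empty, Nat.cast_zero]; linarith
  -- the largest coordinate
  obtain ⟨⟨X1, i0⟩, hmem, hmax⟩ := Finset.exists_max_image (X ×ˢ (Finset.univ : Finset (Fin 4)))
    (fun z => |(z.1 z.2 : ℝ)| / w z.2) (hX.product Finset.univ_nonempty)
  have hX1 : X1 ∈ X := (Finset.mem_product.1 hmem).1
  have hle : ∀ Z ∈ X, |Z i0| ≤ |X1 i0| := by
    intro Z hZ
    have := hmax (Z, i0) (Finset.mem_product.2 ⟨hZ, Finset.mem_univ _⟩)
    simp only at this
    rw [div_le_div_iff_of_pos_right (hw i0)] at this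
    exact_mod_cast this
  have hne : X1 i0 ≠ 0 := by
    intro h0
    have hall : ∀ i, X1 i = 0 := by
      intro i
      have := hmax (X1, i) (Finset.mem_product.2 ⟨hX1, Finset.mem_univ _⟩)
      simp only [h0, Int.cast_zero, abs_zero, zero_div] at this
      have h5 : |(X1 i : ℝ)| ≤ 0 := by
        by_contra hc
        push Not at hc
        have : 0 < |(X1 i : ℝ)| / w i := div_pos hc (hw i)
        linarith
      have h6 : (X1 i : ℝ) = 0 := abs_nonpos_iff.1 h5
      exact_mod_cast h6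
    exact h1 X1 hX1 2 Nat.prime_two fun i => by rw [hall i]; exact dvd_zero _
  obtain ⟨i, k, hik⟩ := PlC_ne hpq
  have hikne : i ≠ k := by
    rintro rfl
    exact hik (by ring)
  set D : (Fin 4 → ℤ) → ℤ := fun Z => X1 i * Z k - X1 k * Z i with hD
  obtain ⟨x1, y1, hxy1⟩ := h3 X1 hX1
  have hprop : ∀ Z : Fin 4 → ℤ, (∃ x y : ℤ, Z = x • p + y • q) → D Z = 0 → ∃ t : ℤ, Z = t • X1 := by
    rintro Z ⟨x, y, hZ⟩ h0
    have h5 : (x1 * y - x * y1) * (p i * q k - p k * q i) = 0 := by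
      rw [← h0, hD]
      simp only
      rw [hZ, hxy1]
      simp only [Pi.add_apply, Pi.smul_apply, smul_eq_mul]
      ring
    have h6 : x1 * y - x * y1 = 0 := (mul_eq_zero.1 h5).resolve_right hik
    refine PlC_prop (h1 X1 hX1) fun a b => ?_
    rw [hZ, hxy1]
    simp only [Pi.add_apply, Pi.smul_apply, smul_eq_mul]
    linear_combination (p a * q b - p b * q a) * h6
  by_cases hall : ∀ Z ∈ X, D Z = 0
  · have hsub : X ⊆ {X1, -X1} := by
      intro Z hZ
      obtain ⟨t, ht⟩ := hprop Z (h3 Z hZ) (hall Z hZ)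
      rcases PlC_pm (h1 Z hZ) ht with h5 | h5 <;> simp [h5]
    have := Finset.card_le_card hsub
    have h5 : ({X1, -X1} : Finset (Fin 4 → ℤ)).card ≤ 2 := Finset.card_le_two
    have h6 : (X.card : ℝ) ≤ 2 := by exact_mod_cast this.trans h5
    linarith
  · push Not at hall
    obtain ⟨Z0, hZ0, hDZ0⟩ := hall
    have hdvd : ∀ Z ∈ X, (n : ℤ) ∣ D Z := fun Z hZ => h4 X1 hX1 Z hZ i k
    have hbd : ∀ Z ∈ X, |(D Z : ℝ)| ≤ 2 * (u ^ 2 * B) := by
      intro Z hZ
      have e1 : (D Z : ℝ) = X1 i * Z k - X1 k * Z i := by simp [hD]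
      rw [e1]
      have a1 := h2 X1 hX1 i
      have a2 := h2 X1 hX1 k
      have a3 := h2 Z hZ i
      have a4 := h2 Z hZ k
      have b1 : |(X1 i : ℝ) * Z k| ≤ u ^ 2 * B := by
        rw [abs_mul]
        calc |(X1 i : ℝ)| * |(Z k : ℝ)| ≤ (u * w i) * (u * w k) :=
              mul_le_mul a1 a4 (abs_nonneg _) (by have := hw i; positivity)
          _ = u ^ 2 * (w i * w k) := by ring
          _ ≤ u ^ 2 * B := mul_le_mul_of_nonneg_left (hB i k hikne) (by positivity)
      have b2 : |(X1 k : ℝ) * Z i| ≤ u ^ 2 * B := by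
        rw [abs_mul]
        calc |(X1 k : ℝ)| * |(Z i : ℝ)| ≤ (u * w k) * (u * w i) :=
              mul_le_mul a2 a3 (abs_nonneg _) (by have := hw k; positivity)
          _ = u ^ 2 * (w i * w k) := by ring
          _ ≤ u ^ 2 * B := mul_le_mul_of_nonneg_left (hB i k hikne) (by positivity)
      calc |(X1 i : ℝ) * Z k - X1 k * Z i| ≤ |(X1 i : ℝ) * Z k| + |(X1 k : ℝ) * Z i| := abs_sub _ _
        _ ≤ 2 * (u ^ 2 * B) := by linarith
    have hnle : (n : ℝ) ≤ 2 * (u ^ 2 * B) := by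
      have h5 : (n : ℤ) ≤ |D Z0| :=
        Int.le_of_dvd (abs_pos.2 hDZ0) ((dvd_abs _ _).2 (hdvd Z0 hZ0))
      have h6 : (n : ℝ) ≤ |(D Z0 : ℝ)| := by exact_mod_cast h5
      exact h6.trans (hbd Z0 hZ0)
    set M : ℝ := 2 * (u ^ 2 * B / n) with hMdef
    have hM1 : 1 ≤ M := by
      rw [hMdef, ← mul_div_assoc, le_div_iff₀ hnR]; linarith
    -- fibres
    have hfib : ∀ v ∈ X.image (fun Z => D Z / n), (X.filter fun Z => D Z / n = v).card ≤ 5 := by
      intro v hv
      obtain ⟨Z', hZ', hv'⟩ := Finset.mem_image.1 hv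
      have hsub : (X.filter fun Z => D Z / n = v) ⊆
          (Finset.Icc (-2 : ℤ) 2).image (fun t => Z' + t • X1) := by
        intro Z hZ
        obtain ⟨hZX, hZv⟩ := Finset.mem_filter.1 hZ
        have e1 : D Z = D Z' := by
          have a1 := Int.ediv_mul_cancel (hdvd Z hZX)
          have a2 := Int.ediv_mul_cancel (hdvd Z' hZ')
          rw [← a1, ← a2, hZv, hv']
        have e2 : D (Z - Z') = 0 := by
          have : D (Z - Z') = D Z - D Z' := by
            simp only [hD, Pi.sub_apply]; ring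
          rw [this, e1, sub_self]
        obtain ⟨x, y, hxy⟩ := h3 Z hZX
        obtain ⟨x', y', hxy'⟩ := h3 Z' hZ'
        obtain ⟨t, ht⟩ := hprop (Z - Z') ⟨x - x', y - y', by
          rw [hxy, hxy', sub_smul, sub_smul]; abel⟩ e2
        refine Finset.mem_image.2 ⟨t, ?_, ?_⟩
        · have e3 : Z i0 - Z' i0 = t * X1 i0 := by
            have := congrFun ht i0
            simpa using this
          have e4 : |t| * |X1 i0| ≤ 2 * |X1 i0| := by
            rw [← abs_mul, ← e3]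
            have a1 := hle Z hZX
            have a2 := hle Z' hZ'
            have a3 := abs_sub (Z i0) (Z' i0)
            linarith
          have e5 : |t| ≤ 2 := le_of_mul_le_mul_right e4 (abs_pos.2 hne)
          exact Finset.mem_Icc.2 (abs_le.1 e5)
        · rw [← ht]; abel
      refine (Finset.card_le_card hsub).trans (Finset.card_image_le.trans ?_)
      simp
    have hcard := Finset.card_le_mul_card_image (f := fun Z => D Z / (n : ℤ)) X 5 hfib
    have himg : X.image (fun Z => D Z / (n : ℤ)) ⊆ Finset.Icc (-⌊M⌋) ⌊M⌋ := by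
      intro v hv
      obtain ⟨Z, hZ, hv'⟩ := Finset.mem_image.1 hv
      have a1 := Int.ediv_mul_cancel (hdvd Z hZ)
      have a2 : |(v : ℝ)| ≤ M := by
        have a3 := hbd Z hZ
        have a4 : (D Z : ℝ) = v * n := by
          have hv2 : D Z / (n : ℤ) = v := hv'
          rw [← a1, hv2]; push_cast; ring
        rw [a4, abs_mul, abs_of_pos hnR] at a3
        rw [hMdef, ← mul_div_assoc, le_div_iff₀ hnR]
        exact a3
      have a5 := abs_le.1 a2
      rw [Finset.mem_Icc]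
      constructor
      · have : ((-v : ℤ) : ℝ) ≤ M := by push_cast; linarith [a5.1]
        have := Int.le_floor.2 this
        linarith
      · exact Int.le_floor.2 a5.2
    have hcI : ((Finset.Icc (-⌊M⌋) ⌊M⌋).card : ℝ) ≤ 2 * M + 1 := by
      rw [Int.card_Icc]
      have h5 : (0 : ℤ) ≤ ⌊M⌋ := Int.floor_nonneg.2 (by linarith)
      have h6 : (((⌊M⌋ + 1 - -⌊M⌋).toNat : ℤ) : ℝ) = ((⌊M⌋ + 1 - -⌊M⌋ : ℤ) : ℝ) := by
        rw [Int.toNat_of_nonneg (by linarith)]
      have h7 : (((⌊M⌋ + 1 - -⌊M⌋).toNat : ℕ) : ℝ) = ((⌊M⌋ + 1 - -⌊M⌋ : ℤ) : ℝ) := by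
        rw [← h6]; push_cast; rfl
      rw [h7]
      push_cast
      have := Int.floor_le M
      linarith
    have hcard2 : (X.card : ℝ) ≤ 5 * (2 * M + 1) := by
      have h5 : (X.card : ℝ) ≤ 5 * ((X.image (fun Z => D Z / (n : ℤ))).card : ℝ) := by
        exact_mod_cast hcard
      have h6 : ((X.image (fun Z => D Z / (n : ℤ))).card : ℝ) ≤
          ((Finset.Icc (-⌊M⌋) ⌊M⌋).card : ℝ) := by
        exact_mod_cast Finset.card_le_card himg
      linarith
    have : u ^ 2 * B / n = M / 2 := by rw [hMdef]; ring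
    rw [this]
    linarith

end Pool.Agent.PP5N
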