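import Pool.Agent.PP5N.Defs

/-!
# PP5 (d1): planes: the content of the forms
-/

set_option autoImplicit false

namespace Pool.Agent.PP5N

open Matrix Pool.Agent.PP5B

private theorem LmB_fac {L A : ℤ} : ∀ {n : ℕ}, ¬ L ^ (n + 1) ∣ A →
    ∃ a u, a ≤ n ∧ A = L ^ a * u ∧ ¬ L ∣ u
  | 0, h => ⟨0, A, le_rfl, by ring, by simpa using h⟩
  | n + 1, h => by
    by_cases h1 : L ^ (n + 1) ∣ A
    · obtain ⟨u, hu⟩ := h1
      refine ⟨n + 1, u, le_rfl, hu, ?_⟩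
      rintro ⟨w, hw⟩
      exact h ⟨w, by rw [hu, hw]; ring⟩
    · obtain ⟨a, u, ha, hA, hu⟩ := LmB_fac h1
      exact ⟨a, u, by omega, hA, hu⟩

private theorem LmB_fac4 {L a b a' b' : ℤ} : ∀ {n : ℕ},
    ¬ (L ^ (n + 1) ∣ a ∧ L ^ (n + 1) ∣ b ∧ L ^ (n + 1) ∣ a' ∧ L ^ (n + 1) ∣ b') →
    ∃ t, t ≤ n ∧ ∃ a1 b1 a2 b2, a = L ^ t * a1 ∧ b = L ^ t * b1 ∧ a' = L ^ t * a2 ∧
      b' = L ^ t * b2 ∧ ¬ (L ∣ a1 ∧ L ∣ b1 ∧ L ∣ a2 ∧ L ∣ b2)
  | 0, h => ⟨0, le_rfl, a, b, a', b', by ring, by ring, by ring, by ring, by simpa using h⟩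
  | n + 1, h => by
    by_cases h1 : (L ^ (n + 1) ∣ a ∧ L ^ (n + 1) ∣ b ∧ L ^ (n + 1) ∣ a' ∧ L ^ (n + 1) ∣ b')
    · obtain ⟨⟨a1, h1⟩, ⟨b1, h2⟩, ⟨a2, h3⟩, ⟨b2, h4⟩⟩ := h1
      refine ⟨n + 1, le_rfl, a1, b1, a2, b2, h1, h2, h3, h4, ?_⟩
      rintro ⟨⟨w1, k1⟩, ⟨w2, k2⟩, ⟨w3, k3⟩, ⟨w4, k4⟩⟩
      exact h ⟨⟨w1, by rw [h1, k1]; ring⟩, ⟨w2, by rw [h2, k2]; ring⟩,
        ⟨w3, by rw [h3, k3]; ring⟩, ⟨w4, by rw [h4, k4]; ring⟩⟩
    · obtain ⟨t, ht, r⟩ := LmB_fac4 h1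
      exact ⟨t, by omega, r⟩

private theorem LmB_le {L u : ℤ} (hL : Prime L) (hu : ¬ L ∣ u) {m n : ℕ}
    (h : L ^ m ∣ L ^ n * u) : m ≤ n := by
  by_contra hmn
  rw [not_le] at hmn
  have h1 : L ^ (n + 1) ∣ L ^ n * u := (pow_dvd_pow L hmn).trans h
  rw [pow_succ] at h1
  exact hu ((mul_dvd_mul_iff_left (pow_ne_zero n hL.ne_zero)).1 h1)

private theorem LmB_S {L : ℤ} (hL : Prime L) {κ : ℕ} {a b a' b' : ℤ}
    (h : L ^ (2 * κ + 1) ∣ a * b' - b * a') :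
    ∃ x y : ℤ, (¬ L ∣ x ∨ ¬ L ∣ y) ∧ L ^ (κ + 1) ∣ x * a + y * a' ∧
      L ^ (κ + 1) ∣ x * b + y * b' := by
  by_cases h0 : (L ^ (κ + 1) ∣ a ∧ L ^ (κ + 1) ∣ b ∧ L ^ (κ + 1) ∣ a' ∧ L ^ (κ + 1) ∣ b')
  · refine ⟨1, 0, Or.inl ?_, ?_, ?_⟩
    · intro hh
      exact hL.not_isUnit (isUnit_of_dvd_one hh)
    · simpa using h0.1
    · simpa using h0.2.1
  · obtain ⟨t, ht, a1, b1, a2, b2, e1, e2, e3, e4, hn⟩ := LmB_fac4 h0
    have hμ : L ^ (κ + 1 - t) ∣ a1 * b2 - b1 * a2 := by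
      have h1 : L ^ (2 * t) * (a1 * b2 - b1 * a2) = a * b' - b * a' := by
        rw [e1, e2, e3, e4]; ring
      rw [← h1] at h
      have h2 : L ^ (2 * κ + 1) = L ^ (2 * t) * L ^ (2 * κ + 1 - 2 * t) := by
        rw [← pow_add]; congr 1; omega
      rw [h2] at h
      have h3 := (mul_dvd_mul_iff_left (pow_ne_zero _ hL.ne_zero)).1 h
      exact (pow_dvd_pow L (by omega)).trans h3
    obtain ⟨w, hw⟩ := hμ
    have hp : L ^ t * L ^ (κ + 1 - t) = L ^ (κ + 1) := by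
      rw [← pow_add]; congr 1; omega
    by_cases hc : L ∣ a1 ∧ L ∣ a2
    · refine ⟨-b2, b1, ?_, ?_, ?_⟩
      · by_contra hh
        push Not at hh
        exact hn ⟨hc.1, hh.2, hc.2, (dvd_neg.1 hh.1)⟩
      · refine ⟨-w, ?_⟩
        rw [e1, e3, ← hp]
        linear_combination (-L ^ t) * hw
      · rw [e2, e4]
        exact ⟨0, by ring⟩
    · refine ⟨-a2, a1, ?_, ?_, ?_⟩
      · by_contra hh
        push Not at hh
        exact hc ⟨hh.2, dvd_neg.1 hh.1⟩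
      · rw [e1, e3]
        exact ⟨0, by ring⟩
      · refine ⟨w, ?_⟩
        rw [e2, e4, ← hp]
        linear_combination (L ^ t) * hw

private theorem LmB_c1 {l κ : ℕ} (hl : l.Prime) {d : Fin 4 → ℤ} {v : Fin 4 → ℕ} (hd : Vd l d v)
    (k : Fin 4) (hk : v 1 ≤ v k) (m : Fin 4 → ℤ) (h0 : (l : ℤ) ^ (κ + 1) ∣ m 0)
    (h1 : (l : ℤ) ^ (κ + 1) ∣ m 1) (hmk : ¬ (l : ℤ) ^ (κ + 1) ∣ m k) {c : ℕ}
    (hc : v 0 + v 1 + 2 * κ + 1 ≤ c) : ¬ (l : ℤ) ^ c ∣ ff d k m := by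
  have hL : Prime (l : ℤ) := Nat.prime_iff_prime_int.1 hl
  intro h
  obtain ⟨g0, e0, n0⟩ := hd.val 0
  obtain ⟨g1, e1, n1⟩ := hd.val 1
  obtain ⟨gk, ek, nk⟩ := hd.val k
  obtain ⟨w, u, hw, eu, nu⟩ := LmB_fac hmk
  obtain ⟨m0, hm0⟩ := h0
  obtain ⟨m1, hm1⟩ := h1
  have hv := hd.m01
  have a1 : (l : ℤ) ^ (v 0 + v 1 + 2 * w + 1) ∣ d 1 * d k * m 0 ^ 2 := by
    have : d 1 * d k * m 0 ^ 2 = (l : ℤ) ^ (v 1 + v k + 2 * (κ + 1)) * (g1 * gk * m0 ^ 2) := by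
      rw [e1, ek, hm0]; ring
    rw [this]
    exact Dvd.dvd.mul_right (pow_dvd_pow _ (by omega)) _
  have a2 : (l : ℤ) ^ (v 0 + v 1 + 2 * w + 1) ∣ d 0 * d k * m 1 ^ 2 := by
    have : d 0 * d k * m 1 ^ 2 = (l : ℤ) ^ (v 0 + v k + 2 * (κ + 1)) * (g0 * gk * m1 ^ 2) := by
      rw [e0, ek, hm1]; ring
    rw [this]
    exact Dvd.dvd.mul_right (pow_dvd_pow _ (by omega)) _
  have a3 : (l : ℤ) ^ (v 0 + v 1 + 2 * w + 1) ∣ ff d k m :=
    (pow_dvd_pow _ (by omega)).trans h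
  have a4 : (l : ℤ) ^ (v 0 + v 1 + 2 * w + 1) ∣
      (l : ℤ) ^ (v 0 + v 1 + 2 * w) * (g0 * g1 * u ^ 2) := by
    have : (l : ℤ) ^ (v 0 + v 1 + 2 * w) * (g0 * g1 * u ^ 2) =
        ff d k m - d 1 * d k * m 0 ^ 2 - d 0 * d k * m 1 ^ 2 := by
      have h5 : (l : ℤ) ^ (v 0 + v 1 + 2 * w) * (g0 * g1 * u ^ 2) = d 0 * d 1 * m k ^ 2 := by
        rw [e0, e1, eu]; ring
      rw [h5]
      unfold ff
      ring
    rw [this]
    exact dvd_sub (dvd_sub a3 a1) a2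
  have hn : ¬ (l : ℤ) ∣ g0 * g1 * u ^ 2 := by
    intro hh
    rcases hL.dvd_or_dvd hh with hh | hh
    · rcases hL.dvd_or_dvd hh with hh | hh
      · exact n0 hh
      · exact n1 hh
    · exact nu (hL.dvd_of_dvd_pow hh)
  have := LmB_le hL hn a4
  omega

private theorem LmB_two {L : ℤ} (hL : Prime L) {D g A P u : ℤ} {s w : ℕ} (hD : D = L ^ w * g)
    (hg : ¬ L ∣ g) (hP : P = L ^ s * u) (hu : ¬ L ∣ u) (h : L ^ (s + 1) ∣ P + D * A ^ 2) :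
    ∃ a A', A = L ^ a * A' ∧ ¬ L ∣ A' ∧ w + 2 * a = s := by
  have hA : ¬ L ^ (s + 1) ∣ A := by
    intro hh
    have h1 : L ^ (s + 1) ∣ D * A ^ 2 := Dvd.dvd.mul_left (hh.trans (dvd_pow_self A two_ne_zero)) D
    have h2 : L ^ (s + 1) ∣ P := by
      have := dvd_sub h h1
      simpa using this
    rw [hP] at h2
    have := LmB_le hL hu h2
    omega
  obtain ⟨a, A', -, eA, nA⟩ := LmB_fac hA
  refine ⟨a, A', eA, nA, ?_⟩
  have hn : ¬ L ∣ g * A' ^ 2 := by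
    intro hh
    rcases hL.dvd_or_dvd hh with hh | hh
    · exact hg hh
    · exact nA (hL.dvd_of_dvd_pow hh)
  have hQ : D * A ^ 2 = L ^ (w + 2 * a) * (g * A' ^ 2) := by
    rw [hD, eA]; ring
  rcases lt_trichotomy (w + 2 * a) s with hlt | heq | hgt
  · exfalso
    have h1 : L ^ (w + 2 * a + 1) ∣ P := by
      rw [hP]
      exact Dvd.dvd.mul_right (pow_dvd_pow _ (by omega)) _
    have h2 : L ^ (w + 2 * a + 1) ∣ P + D * A ^ 2 := (pow_dvd_pow _ (by omega)).trans h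
    have h3 : L ^ (w + 2 * a + 1) ∣ D * A ^ 2 := by
      have := dvd_sub h2 h1
      simpa using this
    rw [hQ] at h3
    have := LmB_le hL hn h3
    omega
  · exact heq
  · exfalso
    have h1 : L ^ (s + 1) ∣ D * A ^ 2 := by
      rw [hQ]
      exact Dvd.dvd.mul_right (pow_dvd_pow _ (by omega)) _
    have h2 : L ^ (s + 1) ∣ P := by
      have := dvd_sub h h1
      simpa using this
    rw [hP] at h2
    have := LmB_le hL hu h2
    omega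

/-- size 4.  Put `c = v 0 + v 1 + v 2 + 4 κ + ta l + 1`, `α = v 0 + v 1`, `μ = p 0 * q 1 - p 1 * q 0`, and for integers `x y`:
`m = x p + y q`; `ff d k m = x ^ 2 ff d k p + x y fp d k p q + y ^ 2 ff d k q`.
Remark (R): if `(x, y)` are not both divisible by `l` then some `m i` is not divisible by `l ^ (κ + 1)`
(say `l` does not divide `x`; `m i * q k - m k * q i = x * (p i * q k - p k * q i)`).
Case 1: `l ^ (2 κ + 1) | μ`.  There are `(x, y)`, not both divisible by `l`, with `l ^ (κ + 1) | m 0, m 1`: if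
`l ^ (κ + 1)` divides `p 0, p 1, q 0, q 1` take `(1, 0)`; otherwise one of the four, say `p 0`, is `l ^ b * unit` with `b ≤ κ` minimal
among the four exponents; take `x = - q 0 / l ^ b`, `y = p 0 / l ^ b` (a unit): `m 0 = 0`, `m 1 = μ / l ^ b` up to sign, divisible by
`l ^ (2 κ + 1 - b)`, `2 κ + 1 - b ≥ κ + 1` (the other three cases are symmetric: exchange `p, q` and the coordinates `0, 1`).
By (R) `m 2` or `m 3` is not divisible by `l ^ (κ + 1)`; say `m k`, exponent `w ≤ κ`: `d 0 * d 1 * m k ^ 2` has exponent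
`α + 2 w ≤ α + 2 κ < c`, and `d k * (d 1 * m 0 ^ 2 + d 0 * m 1 ^ 2)` is divisible by `l ^ (v k + v 0 + 2 κ + 2)`,
`v k ≥ v 1`: so `l ^ (α + 2 w + 1)` does not divide `ff d k m`, hence `l ^ c` does not divide it and not all three coefficients.
Case 2: `μ` has exponent `β ≤ 2 κ`; show that `k = 2` works.  With `X = q 1 * p - p 1 * q` (coordinates 0, 1, 2: `μ, 0, A`,
`A = p 2 * q 1 - q 2 * p 1`) and `Y = p 0 * q - q 0 * p` (coordinates `0, μ, B`, `B = p 0 * q 2 - q 0 * p 2`):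
`ff d 2 X = d 1 d 2 μ ^ 2 + d 0 d 1 A ^ 2`, `ff d 2 Y = d 0 d 2 μ ^ 2 + d 0 d 1 B ^ 2`, `fp d 2 X Y = 2 d 0 d 1 A B`, all divisible by
`l ^ c` if the three coefficients are.  Since `c > v 1 + v 2 + 2 β` and `c > v 0 + v 2 + 2 β`:
`v 0 + 2 w(A) = v 2 + 2 β`, `v 1 + 2 w(B) = v 2 + 2 β`; and `ta l + v 0 + v 1 + w(A) + w(B) ≥ c`; multiply by 2:
`2 ta l + 2 v 0 + 2 v 1 + (v 2 - v 0 + 2 β) + (v 2 - v 1 + 2 β) ≥ 2 c`, i.e. `2 ta l + v 0 + v 1 + 2 v 2 + 4 β ≥ 2 c`: false. -/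
theorem lmB {l κ : ℕ} (hl : l.Prime) {d : Fin 4 → ℤ} {v : Fin 4 → ℕ} (hd : Vd l d v)
    (p q : Fin 4 → ℤ) (h : ∃ i k, ¬ (l : ℤ) ^ (κ + 1) ∣ p i * q k - p k * q i) :
    ∃ k : Fin 4, (k = 2 ∨ k = 3) ∧
      ¬ ((l : ℤ) ^ (v 0 + v 1 + v 2 + 4 * κ + ta l + 1) ∣ ff d k p ∧
        (l : ℤ) ^ (v 0 + v 1 + v 2 + 4 * κ + ta l + 1) ∣ fp d k p q ∧
        (l : ℤ) ^ (v 0 + v 1 + v 2 + 4 * κ + ta l + 1) ∣ ff d k q) := by
  have hL : Prime (l : ℤ) := Nat.prime_iff_prime_int.1 hl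
  have hm01 := hd.m01
  have hm12 := hd.m12
  have hm23 := hd.m23
  by_cases hμ : (l : ℤ) ^ (2 * κ + 1) ∣ p 0 * q 1 - p 1 * q 0
  · obtain ⟨x, y, hxy, h0, h1⟩ := LmB_S hL hμ
    obtain ⟨i, hi⟩ : ∃ i, ¬ (l : ℤ) ^ (κ + 1) ∣ x * p i + y * q i := by
      by_contra hcon
      push Not at hcon
      obtain ⟨i, k, hik⟩ := h
      rcases hxy with hx | hy
      · have h2 : (l : ℤ) ^ (κ + 1) ∣ x * (p i * q k - p k * q i) := by
          have h3 : x * (p i * q k - p k * q i) =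
              (x * p i + y * q i) * q k - (x * p k + y * q k) * q i := by ring
          rw [h3]
          exact dvd_sub (Dvd.dvd.mul_right (hcon i) _) (Dvd.dvd.mul_right (hcon k) _)
        have h4 : IsCoprime ((l : ℤ) ^ (κ + 1)) x :=
          IsCoprime.pow_left ((Prime.coprime_iff_not_dvd hL).2 hx)
        exact hik (h4.dvd_of_dvd_mul_left h2)
      · have h2 : (l : ℤ) ^ (κ + 1) ∣ y * (p i * q k - p k * q i) := by
          have h3 : y * (p i * q k - p k * q i) =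
              (x * p k + y * q k) * p i - (x * p i + y * q i) * p k := by ring
          rw [h3]
          exact dvd_sub (Dvd.dvd.mul_right (hcon k) _) (Dvd.dvd.mul_right (hcon i) _)
        have h4 : IsCoprime ((l : ℤ) ^ (κ + 1)) y :=
          IsCoprime.pow_left ((Prime.coprime_iff_not_dvd hL).2 hy)
        exact hik (h4.dvd_of_dvd_mul_left h2)
    have key : ∀ k : Fin 4, v 1 ≤ v k → ¬ (l : ℤ) ^ (κ + 1) ∣ x * p k + y * q k →
        ¬ ((l : ℤ) ^ (v 0 + v 1 + v 2 + 4 * κ + ta l + 1) ∣ ff d k p ∧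
        (l : ℤ) ^ (v 0 + v 1 + v 2 + 4 * κ + ta l + 1) ∣ fp d k p q ∧
        (l : ℤ) ^ (v 0 + v 1 + v 2 + 4 * κ + ta l + 1) ∣ ff d k q) := by
      rintro k hk hmk ⟨b1, b2, b3⟩
      refine LmB_c1 hl hd k hk (fun i => x * p i + y * q i) h0 h1 hmk
        (c := v 0 + v 1 + v 2 + 4 * κ + ta l + 1) (by omega) ?_
      have h5 : ff d k (fun i => x * p i + y * q i) =
          x ^ 2 * ff d k p + x * y * fp d k p q + y ^ 2 * ff d k q := by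
        unfold ff fp
        ring
      rw [h5]
      exact dvd_add (dvd_add (Dvd.dvd.mul_left b1 _) (Dvd.dvd.mul_left b2 _))
        (Dvd.dvd.mul_left b3 _)
    have h4 : ∀ j : Fin 4, j = 0 ∨ j = 1 ∨ j = 2 ∨ j = 3 := by decide
    rcases h4 i with rfl | rfl | rfl | rfl
    · exact absurd h0 hi
    · exact absurd h1 hi
    · exact ⟨2, Or.inl rfl, key 2 hm12 hi⟩
    · exact ⟨3, Or.inr rfl, key 3 (hm12.trans hm23) hi⟩
  · refine ⟨2, Or.inl rfl, ?_⟩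
    rintro ⟨b1, b2, b3⟩
    obtain ⟨β, μ, hβ, eμ, nμ⟩ := LmB_fac hμ
    obtain ⟨g0, e0, n0⟩ := hd.val 0
    obtain ⟨g1, e1, n1⟩ := hd.val 1
    obtain ⟨g2, e2, n2⟩ := hd.val 2
    have hnP : ¬ (l : ℤ) ∣ g2 * μ ^ 2 := by
      intro hh
      rcases hL.dvd_or_dvd hh with hh | hh
      · exact n2 hh
      · exact nμ (hL.dvd_of_dvd_pow hh)
    have hP : d 2 * (p 0 * q 1 - p 1 * q 0) ^ 2 = (l : ℤ) ^ (v 2 + 2 * β) * (g2 * μ ^ 2) := by
      rw [e2, eμ]; ring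
    -- the vector X
    have hX : (l : ℤ) ^ (v 0 + v 1 + v 2 + 4 * κ + ta l + 1) ∣
        d 1 * (d 2 * (p 0 * q 1 - p 1 * q 0) ^ 2 + d 0 * (p 2 * q 1 - q 2 * p 1) ^ 2) := by
      have h5 : d 1 * (d 2 * (p 0 * q 1 - p 1 * q 0) ^ 2 + d 0 * (p 2 * q 1 - q 2 * p 1) ^ 2) =
          q 1 ^ 2 * ff d 2 p - q 1 * p 1 * fp d 2 p q + p 1 ^ 2 * ff d 2 q := by
        unfold ff fp
        ring
      rw [h5]
      exact dvd_add (dvd_sub (Dvd.dvd.mul_left b1 _) (Dvd.dvd.mul_left b2 _))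
        (Dvd.dvd.mul_left b3 _)
    have hY : (l : ℤ) ^ (v 0 + v 1 + v 2 + 4 * κ + ta l + 1) ∣
        d 0 * (d 2 * (p 0 * q 1 - p 1 * q 0) ^ 2 + d 1 * (p 0 * q 2 - q 0 * p 2) ^ 2) := by
      have h5 : d 0 * (d 2 * (p 0 * q 1 - p 1 * q 0) ^ 2 + d 1 * (p 0 * q 2 - q 0 * p 2) ^ 2) =
          p 0 ^ 2 * ff d 2 q - p 0 * q 0 * fp d 2 p q + q 0 ^ 2 * ff d 2 p := by
        unfold ff fp
        ring
      rw [h5]
      exact dvd_add (dvd_sub (Dvd.dvd.mul_left b3 _) (Dvd.dvd.mul_left b2 _))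
        (Dvd.dvd.mul_left b1 _)
    have hZ : (l : ℤ) ^ (v 0 + v 1 + v 2 + 4 * κ + ta l + 1) ∣
        2 * (d 0 * d 1 * ((p 2 * q 1 - q 2 * p 1) * (p 0 * q 2 - q 0 * p 2))) := by
      have h5 : 2 * (d 0 * d 1 * ((p 2 * q 1 - q 2 * p 1) * (p 0 * q 2 - q 0 * p 2))) =
          (q 1 * p 0 + p 1 * q 0) * fp d 2 p q - 2 * q 1 * q 0 * ff d 2 p -
            2 * p 1 * p 0 * ff d 2 q := by
        unfold ff fp
        ring
      rw [h5]
      exact dvd_sub (dvd_sub (Dvd.dvd.mul_left b2 _) (Dvd.dvd.mul_left b1 _))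
        (Dvd.dvd.mul_left b3 _)
    have canc : ∀ {D g S : ℤ} {w s : ℕ}, D = (l : ℤ) ^ w * g → ¬ (l : ℤ) ∣ g →
        (l : ℤ) ^ (w + s) ∣ D * S → (l : ℤ) ^ s ∣ S := by
      intro D g S w s hD hg hh
      rw [hD, pow_add, mul_assoc] at hh
      have h6 := (mul_dvd_mul_iff_left (pow_ne_zero w hL.ne_zero)).1 hh
      exact (IsCoprime.pow_left ((Prime.coprime_iff_not_dvd hL).2 hg)).dvd_of_dvd_mul_left h6
    have hX' := canc (s := v 2 + 2 * β + 1) e1 n1 ((pow_dvd_pow _ (by omega)).trans hX)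
    have hY' := canc (s := v 2 + 2 * β + 1) e0 n0 ((pow_dvd_pow _ (by omega)).trans hY)
    obtain ⟨a, A', eA, nA, ha⟩ := LmB_two hL e0 n0 hP hnP hX'
    obtain ⟨b, B', eB, nB, hb⟩ := LmB_two hL e1 n1 hP hnP hY'
    have hG : ¬ (l : ℤ) ∣ g0 * g1 * (A' * B') := by
      intro hh
      rcases hL.dvd_or_dvd hh with hh | hh
      · rcases hL.dvd_or_dvd hh with hh | hh
        · exact n0 hh
        · exact n1 hh
      · rcases hL.dvd_or_dvd hh with hh | hh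
        · exact nA hh
        · exact nB hh
    have hZ' : (2 * (d 0 * d 1 * ((p 2 * q 1 - q 2 * p 1) * (p 0 * q 2 - q 0 * p 2))) : ℤ) =
        2 * ((l : ℤ) ^ (v 0 + v 1 + a + b) * (g0 * g1 * (A' * B'))) := by
      rw [eA, eB, e0, e1]; ring
    rw [hZ'] at hZ
    have hfin : v 0 + v 1 + v 2 + 4 * κ + ta l + 1 ≤ v 0 + v 1 + a + b + ta l := by
      unfold ta at hZ ⊢
      split_ifs at hZ ⊢ with h2
      · subst h2
        refine LmB_le hL hG (n := v 0 + v 1 + a + b + 1) ?_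
        have h7 : (2 * (((2 : ℕ) : ℤ) ^ (v 0 + v 1 + a + b) * (g0 * g1 * (A' * B'))) : ℤ) =
            ((2 : ℕ) : ℤ) ^ (v 0 + v 1 + a + b + 1) * (g0 * g1 * (A' * B')) := by
          push_cast
          ring
        rw [h7] at hZ
        exact hZ
      · have hn2 : ¬ (l : ℤ) ∣ 2 * (g0 * g1 * (A' * B')) := by
          intro hh
          rcases hL.dvd_or_dvd hh with hh | hh
          · have h8 : l ∣ 2 := by exact_mod_cast hh
            rcases (Nat.dvd_prime Nat.prime_two).1 h8 with h9 | h9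
            · exact hl.one_lt.ne' h9
            · exact h2 h9
          · exact hG hh
        refine LmB_le hL hn2 (n := v 0 + v 1 + a + b + 0) ?_
        have h7 : (2 * ((l : ℤ) ^ (v 0 + v 1 + a + b) * (g0 * g1 * (A' * B'))) : ℤ) =
            (l : ℤ) ^ (v 0 + v 1 + a + b + 0) * (2 * (g0 * g1 * (A' * B'))) := by
          ring
        rw [h7] at hZ
        exact hZ
    omega

end Pool.Agent.PP5N
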