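import Pool.Agent.PP5N.Defs

/-!
# PP5 (d1): zeros of a binary form modulo a prime power
-/

set_option autoImplicit false

namespace Pool.Agent.PP5N

open Matrix Pool.Agent.PP5B

private theorem LmP_ex {l : ℕ} (hl : l.Prime) {z : ℤ} (hz : z ≠ 0) :
    ∃ (i : ℕ) (w : ℤ), z = (l : ℤ) ^ i * w ∧ ¬ (l : ℤ) ∣ w := by
  have hf : FiniteMultiplicity (l : ℤ) z := by
    rw [Int.finiteMultiplicity_iff]
    refine ⟨?_, hz⟩
    simpa using hl.one_lt.ne'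
  obtain ⟨w, hw, hd⟩ := hf.exists_eq_pow_mul_and_not_dvd
  exact ⟨_, w, hw, hd⟩

private theorem LmP_lt {l : ℕ} {i E : ℕ} {w : ℤ}
    (h : ¬ (l : ℤ) ^ E ∣ (l : ℤ) ^ i * w) : i < E := by
  by_contra hc
  exact h (Dvd.dvd.mul_right (pow_dvd_pow _ (not_lt.1 hc)) _)

private theorem LmP_or {l : ℕ} (hl : l.Prime) {E n : ℕ} (hE : 2 * E ≤ n + 1) {A B : ℤ}
    (h : (l : ℤ) ^ n ∣ A * B) : (l : ℤ) ^ E ∣ A ∨ (l : ℤ) ^ E ∣ B := by
  have hp : Prime (l : ℤ) := Nat.prime_iff_prime_int.1 hl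
  by_contra hc
  push Not at hc
  obtain ⟨hA, hB⟩ := hc
  have hA0 : A ≠ 0 := by rintro rfl; exact hA (dvd_zero _)
  have hB0 : B ≠ 0 := by rintro rfl; exact hB (dvd_zero _)
  obtain ⟨i, A', rfl, hA'⟩ := LmP_ex hl hA0
  obtain ⟨j, B', rfl, hB'⟩ := LmP_ex hl hB0
  have hi := LmP_lt hA
  have hj := LmP_lt hB
  have h1 : (l : ℤ) ^ n ∣ (l : ℤ) ^ (i + j) * (A' * B') := by
    have : (l : ℤ) ^ i * A' * ((l : ℤ) ^ j * B') = (l : ℤ) ^ (i + j) * (A' * B') := by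
      rw [pow_add]; ring
    rwa [this] at h
  have h2 : (l : ℤ) ^ (i + j) * (l : ℤ) ∣ (l : ℤ) ^ (i + j) * (A' * B') := by
    refine dvd_trans ?_ h1
    rw [← pow_succ]
    exact pow_dvd_pow _ (by omega)
  have h3 : (l : ℤ) ∣ A' * B' :=
    (mul_dvd_mul_iff_left (pow_ne_zero _ hp.ne_zero)).1 h2
  rcases hp.dvd_or_dvd h3 with h4 | h4
  · exact hA' h4
  · exact hB' h4

private theorem LmP_cancel {l : ℕ} (hl : l.Prime) {E : ℕ} {u A : ℤ} (hu : ¬ (l : ℤ) ∣ u)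
    (h : (l : ℤ) ^ E ∣ u * A) : (l : ℤ) ^ E ∣ A := by
  have hp : Prime (l : ℤ) := Nat.prime_iff_prime_int.1 hl
  exact hp.pow_dvd_of_dvd_mul_left E hu h

/-- the form with `l` prime to `a` -/
private theorem LmP_core {l : ℕ} (hl : l.Prime) (a b c : ℤ) (n E : ℕ) (hE : 2 * E ≤ n + 1)
    (h : ¬ (l : ℤ) ∣ a) :
    ∃ χ : ℤ → ℤ → Bool, ∀ x y x' y' : ℤ, ¬ ((l : ℤ) ∣ x ∧ (l : ℤ) ∣ y) → ¬ ((l : ℤ) ∣ x' ∧ (l : ℤ) ∣ y') →
      (l : ℤ) ^ n ∣ a * x ^ 2 + b * x * y + c * y ^ 2 →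
      (l : ℤ) ^ n ∣ a * x' ^ 2 + b * x' * y' + c * y' ^ 2 → χ x y = χ x' y' →
      (l : ℤ) ^ E ∣ x * y' - x' * y := by
  classical
  have hp : Prime (l : ℤ) := Nat.prime_iff_prime_int.1 hl
  rcases Nat.eq_zero_or_pos n with hn | hn
  · have hE0 : E = 0 := by omega
    subst hE0
    exact ⟨fun _ _ => true, fun _ _ _ _ _ _ _ _ _ => by simp⟩
  have key : ∀ x y : ℤ, ¬ ((l : ℤ) ∣ x ∧ (l : ℤ) ∣ y) →
      (l : ℤ) ^ n ∣ a * x ^ 2 + b * x * y + c * y ^ 2 → ¬ (l : ℤ) ∣ y := by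
    intro x y hxy hf hy
    apply hxy
    refine ⟨?_, hy⟩
    have h1 : (l : ℤ) ∣ a * x ^ 2 + b * x * y + c * y ^ 2 :=
      dvd_trans (dvd_pow_self _ hn.ne') hf
    have h2 : (l : ℤ) ∣ a * x ^ 2 := by
      have h3 : a * x ^ 2 = (a * x ^ 2 + b * x * y + c * y ^ 2) - y * (b * x + c * y) := by ring
      rw [h3]
      exact dvd_sub h1 (Dvd.dvd.mul_right hy _)
    rcases hp.dvd_or_dvd h2 with h4 | h4
    · exact absurd h4 h
    · exact hp.dvd_of_dvd_pow h4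
  by_cases hz : ∃ x0 y0 : ℤ, ¬ ((l : ℤ) ∣ x0 ∧ (l : ℤ) ∣ y0) ∧
      (l : ℤ) ^ n ∣ a * x0 ^ 2 + b * x0 * y0 + c * y0 ^ 2
  swap
  · refine ⟨fun _ _ => true, fun x y x' y' h1 h2 h3 h4 _ => ?_⟩
    exact absurd ⟨x, y, h1, h3⟩ hz
  obtain ⟨x0, y0, hz1, hz2⟩ := hz
  have hy0 := key x0 y0 hz1 hz2
  refine ⟨fun x y => decide ((l : ℤ) ^ E ∣ x * y0 - x0 * y), fun x y x' y' h1 h2 h3 h4 hχ => ?_⟩
  have hχ' : decide ((l : ℤ) ^ E ∣ x * y0 - x0 * y) = decide ((l : ℤ) ^ E ∣ x' * y0 - x0 * y') := hχ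
  have hor : ∀ x y : ℤ, (l : ℤ) ^ n ∣ a * x ^ 2 + b * x * y + c * y ^ 2 →
      (l : ℤ) ^ E ∣ x * y0 - x0 * y ∨ (l : ℤ) ^ E ∣ a * (x * y0 + x0 * y) + b * y * y0 := by
    intro x y hf
    apply LmP_or hl hE
    have : (x * y0 - x0 * y) * (a * (x * y0 + x0 * y) + b * y * y0) =
        y0 ^ 2 * (a * x ^ 2 + b * x * y + c * y ^ 2) -
          y ^ 2 * (a * x0 ^ 2 + b * x0 * y0 + c * y0 ^ 2) := by ring
    rw [this]
    exact dvd_sub (Dvd.dvd.mul_left hf _) (Dvd.dvd.mul_left hz2 _)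
  by_cases hc : (l : ℤ) ^ E ∣ x * y0 - x0 * y
  · have hc' : (l : ℤ) ^ E ∣ x' * y0 - x0 * y' := by
      have : decide ((l : ℤ) ^ E ∣ x' * y0 - x0 * y') = true := by
        rw [← hχ']; exact decide_eq_true hc
      exact of_decide_eq_true this
    apply LmP_cancel hl hy0
    have : y0 * (x * y' - x' * y) = y' * (x * y0 - x0 * y) - y * (x' * y0 - x0 * y') := by ring
    rw [this]
    exact dvd_sub (Dvd.dvd.mul_left hc _) (Dvd.dvd.mul_left hc' _)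
  · have hc' : ¬ (l : ℤ) ^ E ∣ x' * y0 - x0 * y' := by
      intro hh
      apply hc
      have : decide ((l : ℤ) ^ E ∣ x * y0 - x0 * y) = true := by
        have h5 : decide ((l : ℤ) ^ E ∣ x' * y0 - x0 * y') = true := decide_eq_true hh
        rw [← h5]; exact hχ'
      exact of_decide_eq_true this
    have e1 := (hor x y h3).resolve_left hc
    have e2 := (hor x' y' h4).resolve_left hc'
    apply LmP_cancel hl hy0
    apply LmP_cancel hl h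
    have : a * (y0 * (x * y' - x' * y)) =
        y' * (a * (x * y0 + x0 * y) + b * y * y0) - y * (a * (x' * y0 + x0 * y') + b * y' * y0) := by
      ring
    rw [this]
    exact dvd_sub (Dvd.dvd.mul_left e1 _) (Dvd.dvd.mul_left e2 _)

/-- a primitive form -/
private theorem LmP_prim {l : ℕ} (hl : l.Prime) (a b c : ℤ) (n E : ℕ) (hE : 2 * E ≤ n + 1)
    (h : ¬ ((l : ℤ) ∣ a ∧ (l : ℤ) ∣ b ∧ (l : ℤ) ∣ c)) :
    ∃ χ : ℤ → ℤ → Bool, ∀ x y x' y' : ℤ, ¬ ((l : ℤ) ∣ x ∧ (l : ℤ) ∣ y) → ¬ ((l : ℤ) ∣ x' ∧ (l : ℤ) ∣ y') →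
      (l : ℤ) ^ n ∣ a * x ^ 2 + b * x * y + c * y ^ 2 →
      (l : ℤ) ^ n ∣ a * x' ^ 2 + b * x' * y' + c * y' ^ 2 → χ x y = χ x' y' →
      (l : ℤ) ^ E ∣ x * y' - x' * y := by
  by_cases ha : (l : ℤ) ∣ a
  swap
  · exact LmP_core hl a b c n E hE ha
  by_cases hc : (l : ℤ) ∣ c
  swap
  · obtain ⟨χ, hχ⟩ := LmP_core hl c b a n E hE hc
    refine ⟨fun x y => χ y x, fun x y x' y' h1 h2 h3 h4 h5 => ?_⟩
    have h6 := hχ y x y' x' (fun hh => h1 ⟨hh.2, hh.1⟩) (fun hh => h2 ⟨hh.2, hh.1⟩)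
      (by have : c * y ^ 2 + b * y * x + a * x ^ 2 = a * x ^ 2 + b * x * y + c * y ^ 2 := by ring
          rw [this]; exact h3)
      (by have : c * y' ^ 2 + b * y' * x' + a * x' ^ 2 = a * x' ^ 2 + b * x' * y' + c * y' ^ 2 := by ring
          rw [this]; exact h4) h5
    have : x * y' - x' * y = -(y * x' - y' * x) := by ring
    rw [this]
    exact (dvd_neg).2 h6
  have hb : ¬ (l : ℤ) ∣ b := fun hb => h ⟨ha, hb, hc⟩
  have hs : ¬ (l : ℤ) ∣ a + b + c := by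
    intro hh
    apply hb
    have : b = (a + b + c) - a - c := by ring
    rw [this]
    exact dvd_sub (dvd_sub hh ha) hc
  obtain ⟨χ, hχ⟩ := LmP_core hl (a + b + c) (b + 2 * c) c n E hE hs
  refine ⟨fun x y => χ x (y - x), fun x y x' y' h1 h2 h3 h4 h5 => ?_⟩
  have h6 := hχ x (y - x) x' (y' - x')
    (fun hh => h1 ⟨hh.1, by
      have : y = (y - x) + x := by ring
      rw [this]; exact dvd_add hh.2 hh.1⟩)
    (fun hh => h2 ⟨hh.1, by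
      have : y' = (y' - x') + x' := by ring
      rw [this]; exact dvd_add hh.2 hh.1⟩)
    (by have : (a + b + c) * x ^ 2 + (b + 2 * c) * x * (y - x) + c * (y - x) ^ 2 =
          a * x ^ 2 + b * x * y + c * y ^ 2 := by ring
        rw [this]; exact h3)
    (by have : (a + b + c) * x' ^ 2 + (b + 2 * c) * x' * (y' - x') + c * (y' - x') ^ 2 =
          a * x' ^ 2 + b * x' * y' + c * y' ^ 2 := by ring
        rw [this]; exact h4) h5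
  have : x * y' - x' * y = x * (y' - x') - x' * (y - x) := by ring
  rw [this]
  exact h6

/-- the exact exponent of the content -/
private theorem LmP_content {l : ℕ} (a b c : ℤ) (c0 : ℕ)
    (h : ¬ ((l : ℤ) ^ (c0 + 1) ∣ a ∧ (l : ℤ) ^ (c0 + 1) ∣ b ∧ (l : ℤ) ^ (c0 + 1) ∣ c)) :
    ∃ (c1 : ℕ) (a' b' c' : ℤ), c1 ≤ c0 ∧ a = (l : ℤ) ^ c1 * a' ∧ b = (l : ℤ) ^ c1 * b' ∧
      c = (l : ℤ) ^ c1 * c' ∧ ¬ ((l : ℤ) ∣ a' ∧ (l : ℤ) ∣ b' ∧ (l : ℤ) ∣ c') := by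
  induction c0 with
  | zero => exact ⟨0, a, b, c, le_rfl, by simp, by simp, by simp, by simpa using h⟩
  | succ m ih =>
    by_cases hh : (l : ℤ) ^ (m + 1) ∣ a ∧ (l : ℤ) ^ (m + 1) ∣ b ∧ (l : ℤ) ^ (m + 1) ∣ c
    · obtain ⟨⟨a', ha⟩, ⟨b', hb⟩, ⟨c', hc⟩⟩ := hh
      refine ⟨m + 1, a', b', c', le_rfl, ha, hb, hc, ?_⟩
      rintro ⟨h1, h2, h3⟩
      apply h
      rw [ha, hb, hc, pow_succ (l : ℤ) (m + 1)]
      exact ⟨mul_dvd_mul_left _ h1, mul_dvd_mul_left _ h2, mul_dvd_mul_left _ h3⟩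
    · obtain ⟨c1, a', b', c', h1, h2⟩ := ih hh
      exact ⟨c1, a', b', c', by omega, h2⟩

/-- size 3.  Let `c1 ≤ c0` be the exact exponent of `l` in the content of `(a, b, c)`; divide by `l ^ c1`: a primitive form `f'` with
`l ^ (n - c1) | f'`; if `n ≤ c0` the claim is trivial (exponent 0).  After one of the unimodular substitutions
`(x, y)`, `(y, x)`, `(x, y + x)` the coefficient of `x ^ 2` is prime to `l` (if `a`, `c` are divisible by `l` then `b` is not and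
`a + b + c` is not); the determinant `x * y' - x' * y` only changes its sign.  So assume `l` does not divide `a`.
A primitive zero has `l` not dividing `y` (`l | y` gives `l | a x ^ 2`, `l | x`), here `n - c1 ≥ 1`.
For two zeros `z = (x, y)`, `z' = (x', y')` (mod `L = l ^ (n - c1)`): `y' ^ 2 f'(x, y) - y ^ 2 f'(x', y') =
(x y' - x' y) * (a (x y' + x' y) + b y y')`, so with `E = (n - c0 + 1) / 2`, `2 E ≤ n - c1 + 1`: `l ^ E` divides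
`D (z, z') := x y' - x' y` or `D' (z, z') := a (x y' + x' y) + b y y'`.
If there is no zero take any `χ`; otherwise fix a zero `z0` and `χ z = true` iff `l ^ E | D (z, z0)`.
Both `true`: `D (z, z0) = D (z', z0) = 0 mod l ^ E` gives `y0 * D (z, z') = y' * D (z, z0) - y * D (z', z0)` up to sign: fine.
Both `false`: `D' (z, z0) = D' (z', z0) = 0`: `y' * D' (z, z0) - y * D' (z', z0) = a * y0 * D (z, z')` up to sign, and
`a`, `y0` are prime to `l`. -/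
theorem lmP {l : ℕ} (hl : l.Prime) (a b c : ℤ) (n c0 : ℕ)
    (h : ¬ ((l : ℤ) ^ (c0 + 1) ∣ a ∧ (l : ℤ) ^ (c0 + 1) ∣ b ∧ (l : ℤ) ^ (c0 + 1) ∣ c)) :
    ∃ χ : ℤ → ℤ → Bool, ∀ x y x' y' : ℤ, ¬ ((l : ℤ) ∣ x ∧ (l : ℤ) ∣ y) → ¬ ((l : ℤ) ∣ x' ∧ (l : ℤ) ∣ y') →
      (l : ℤ) ^ n ∣ a * x ^ 2 + b * x * y + c * y ^ 2 →
      (l : ℤ) ^ n ∣ a * x' ^ 2 + b * x' * y' + c * y' ^ 2 → χ x y = χ x' y' →
      (l : ℤ) ^ ((n - c0 + 1) / 2) ∣ x * y' - x' * y := by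
  have hp : Prime (l : ℤ) := Nat.prime_iff_prime_int.1 hl
  obtain ⟨c1, a', b', c', hc1, rfl, rfl, rfl, hprim⟩ := LmP_content a b c c0 h
  obtain ⟨χ, hχ⟩ := LmP_prim hl a' b' c' (n - c1) ((n - c0 + 1) / 2) (by omega) hprim
  have hcan : ∀ x y : ℤ, (l : ℤ) ^ n ∣ (l : ℤ) ^ c1 * a' * x ^ 2 + (l : ℤ) ^ c1 * b' * x * y +
      (l : ℤ) ^ c1 * c' * y ^ 2 → (l : ℤ) ^ (n - c1) ∣ a' * x ^ 2 + b' * x * y + c' * y ^ 2 := by
    intro x y hd
    rcases le_or_gt c1 n with hn | hn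
    · have e1 : (l : ℤ) ^ n = (l : ℤ) ^ c1 * (l : ℤ) ^ (n - c1) := by
        rw [← pow_add]; congr 1; omega
      have e2 : (l : ℤ) ^ c1 * a' * x ^ 2 + (l : ℤ) ^ c1 * b' * x * y + (l : ℤ) ^ c1 * c' * y ^ 2 =
          (l : ℤ) ^ c1 * (a' * x ^ 2 + b' * x * y + c' * y ^ 2) := by ring
      rw [e1, e2] at hd
      exact (mul_dvd_mul_iff_left (pow_ne_zero _ hp.ne_zero)).1 hd
    · have : n - c1 = 0 := by omega
      rw [this]; simp
  exact ⟨χ, fun x y x' y' h1 h2 h3 h4 h5 => hχ x y x' y' h1 h2 (hcan x y h3) (hcan x' y' h4) h5⟩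

end Pool.Agent.PP5N
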