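import Pool.Agent.PP5N.Defs
import Pool.Agent.PP5N.OrV
import Pool.Agent.PP5N.OrA
import Pool.Agent.PP5N.Cng
import Pool.Agent.PP5N.LmB
import Pool.Agent.PP5N.LmP

/-!
# PP5 (d1): bad m in a plane, one prime
-/

set_option autoImplicit false

namespace Pool.Agent.PP5N

open Matrix Pool.Agent.PP5B

private theorem PlL_ex {l : ℕ} (hl : l.Prime) {z : ℤ} (hz : z ≠ 0) :
    ∃ (i : ℕ) (w : ℤ), z = (l : ℤ) ^ i * w ∧ ¬ (l : ℤ) ∣ w := by
  have hf : FiniteMultiplicity (l : ℤ) z := by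
    rw [Int.finiteMultiplicity_iff]
    refine ⟨?_, hz⟩
    simpa using hl.one_lt.ne'
  obtain ⟨w, hw, hd⟩ := hf.exists_eq_pow_mul_and_not_dvd
  exact ⟨_, w, hw, hd⟩

/-- the square of a determinant almost prime to `l` -/
private theorem PlL_sq {l : ℕ} (hl : l.Prime) {κ : ℕ} {D A : ℤ} (hD : ¬ (l : ℤ) ^ (κ + 1) ∣ D)
    (hA : ¬ (l : ℤ) ∣ A) : ¬ (l : ℤ) ^ (2 * κ + 1) ∣ D ^ 2 * A := by
  have hp : Prime (l : ℤ) := Nat.prime_iff_prime_int.1 hl
  intro h
  have hD0 : D ≠ 0 := by rintro rfl; exact hD (dvd_zero _)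
  obtain ⟨i, u, rfl, hu⟩ := PlL_ex hl hD0
  have hi : i ≤ κ := by
    by_contra hc
    exact hD (Dvd.dvd.mul_right (pow_dvd_pow _ (by omega)) _)
  have e : ((l : ℤ) ^ i * u) ^ 2 * A = (l : ℤ) ^ (2 * i) * (u ^ 2 * A) := by
    rw [mul_pow, ← pow_mul, mul_comm i 2]; ring
  rw [e] at h
  have h2 : (l : ℤ) ^ (2 * i) * (l : ℤ) ∣ (l : ℤ) ^ (2 * i) * (u ^ 2 * A) := by
    refine dvd_trans ?_ h
    rw [← pow_succ]
    exact pow_dvd_pow _ (by omega)
  have h3 : (l : ℤ) ∣ u ^ 2 * A :=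
    (mul_dvd_mul_iff_left (pow_ne_zero _ hp.ne_zero)).1 h2
  rcases hp.dvd_or_dvd h3 with h4 | h4
  · exact hu (hp.dvd_of_dvd_pow h4)
  · exact hA h4

/-- minors in the coordinates `e` -/
private theorem PlL_minor {e : Fin 4 → Fin 4 → ℤ} {p q : Fin 4 → ℤ} {N : ℤ}
    (h : ∀ i k, N ∣ (p ⬝ᵥ e i) * (q ⬝ᵥ e k) - (p ⬝ᵥ e k) * (q ⬝ᵥ e i)) (i k : Fin 4) :
    N ∣ (Matrix.of e).det ^ 2 * (p i * q k - p k * q i) := by
  set E0 := Matrix.of e with hE0
  have hP : ∀ (r : Fin 4 → ℤ) (i : Fin 4), E0.det * r i = ∑ s, E0.adjugate i s * (r ⬝ᵥ e s) := by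
    intro r i
    have h1 : (E0.adjugate * E0) *ᵥ r = E0.det • r := by
      rw [Matrix.adjugate_mul, Matrix.smul_mulVec, Matrix.one_mulVec]
    have h2 := congrFun h1 i
    rw [← Matrix.mulVec_mulVec] at h2
    rw [Pi.smul_apply, smul_eq_mul] at h2
    rw [← h2]
    simp only [Matrix.mulVec, dotProduct]
    refine Finset.sum_congr rfl fun s _ => ?_
    congr 1
    refine Finset.sum_congr rfl fun t _ => ?_
    rw [hE0, Matrix.of_apply, mul_comm]
  have e1 : E0.det ^ 2 * (p i * q k - p k * q i) =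
      ∑ s, ∑ t, E0.adjugate i s * E0.adjugate k t *
        ((p ⬝ᵥ e s) * (q ⬝ᵥ e t) - (p ⬝ᵥ e t) * (q ⬝ᵥ e s)) := by
    have : E0.det ^ 2 * (p i * q k - p k * q i) =
        (E0.det * p i) * (E0.det * q k) - (E0.det * p k) * (E0.det * q i) := by ring
    rw [this, hP p i, hP q k, hP p k, hP q i]
    simp only [Fin.sum_univ_four]
    ring
  rw [e1]
  exact Finset.dvd_sum fun s _ => Finset.dvd_sum fun t _ => Dvd.dvd.mul_left (h s t) _

private theorem PlL_ff (d : Fin 4 → ℤ) (k : Fin 4) (P Q : Fin 4 → ℤ) (x y : ℤ) :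
    ff d k (fun i => x * P i + y * Q i) =
      ff d k P * x ^ 2 + fp d k P Q * x * y + ff d k Q * y ^ 2 := by
  simp only [ff, fp]
  ring

private theorem PlL_ta {l : ℕ} : 10 * kp l + ta l = 61 * ta l := by
  unfold kp ta
  split_ifs <;> norm_num

private theorem PlL_pow {l : ℕ} : l ^ (61 * ta l) = 2 ^ (61 * ta l) := by
  unfold ta
  split_ifs with h
  · rw [h]
  · simp

/-- size 4.  For one prime `l` and `n ≥ 0`: the bad `m` of the plane `Z p + Z q` fall into two classes, such that for two bad `m, m'` of the same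
class `l ^ E` divides all `2 x 2` minors of `(m, m')`, where `2 E ≥ n - (exponent of mi3 G) - 61 * ta l`; in divisibility form:
`l ^ n | 2 ^ (61 * ta l) * l ^ (2 E) * mi3 G`.
Proof: `exists_orth`, `e, d, v`; `P i = p . e i`, `Q i = q . e i`, `m = x p + y q`, `m . e i = x P i + y Q i`; by `cng`
`l ^ n | ff d k (m . e)` for `k = 2, 3`, and `ff d k (x P + y Q) = x ^ 2 ff d k P + x y fp d k P Q + y ^ 2 ff d k Q`.
`κ = 2 * kp l`: not all minors `P i Q k - P k Q i` are divisible by `l ^ (κ + 1)`: with `E0 = Matrix.of e`,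
`P = E0 *v p`, and `adj E0 * E0 = det E0`, the number `(det E0) ^ 2 * (p i q k - p k q i)` is a combination of the minors of
`(P, Q)`; `l` does not divide some `p i q k - p k q i` (`hpq`), and `l ^ (2 kp l + 1)` does not divide `(det E0) ^ 2`
(the exponent of `l` in `det E0` is `≤ kp l`).  `lmB` gives `k` and `lmP` with `c0 = v 0 + v 1 + v 2 + 4 κ + ta l` the classes:
`E = (n - c0 + 1) / 2`, so `n ≤ c0 + 2 E`.  `(x, y)` are not both divisible by `l` because `m` is primitive; put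
`χ m = χ x y` with chosen `x, y` (they are unique, but a choice is enough: `Classical`).
`m i m' k - m k m' i = (x y' - x' y) (p i q k - p k q i)`.  Finally `l ^ (v 0 + v 1 + v 2) | l ^ (2 kp l) * mi3 G` (`Orth.mi3_ge`), and
`8 kp l + ta l + 2 kp l = 61 * ta l`. -/
theorem plL {G : Matrix (Fin 4) (Fin 4) ℤ} (hsym : ∀ i j, G i j = G j i) (hdet : G.det ≠ 0)
    {l : ℕ} (hl : l.Prime) {p q : Fin 4 → ℤ} (hpq : Pr2 p q) (n : ℕ) :
    ∃ (E : ℕ) (χ : (Fin 4 → ℤ) → Bool), l ^ n ∣ 2 ^ (61 * ta l) * l ^ (2 * E) * mi3 G ∧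
      ∀ m m' : Fin 4 → ℤ, (∃ x y : ℤ, m = x • p + y • q) → (∃ x y : ℤ, m' = x • p + y • q) →
        Pr4 m → Pr4 m' → mnQ G m ((l : ℤ) ^ n) → mnQ G m' ((l : ℤ) ^ n) → χ m = χ m' →
        ∀ i k, (l : ℤ) ^ E ∣ m i * m' k - m k * m' i := by
  classical
  obtain ⟨e, d, v, h⟩ := exists_orth hsym hdet hl
  have hmin : ∃ i k, ¬ (l : ℤ) ^ (2 * kp l + 1) ∣
      (p ⬝ᵥ e i) * (q ⬝ᵥ e k) - (p ⬝ᵥ e k) * (q ⬝ᵥ e i) := by
    by_contra hc
    push Not at hc
    obtain ⟨i, k, hik⟩ := hpq l hl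
    exact PlL_sq hl h.det hik (PlL_minor hc i k)
  obtain ⟨k, hk, hnd⟩ := lmB hl h.vd (fun i => p ⬝ᵥ e i) (fun i => q ⬝ᵥ e i) hmin
  obtain ⟨χ, hχ⟩ := lmP hl (ff d k fun i => p ⬝ᵥ e i) (fp d k (fun i => p ⬝ᵥ e i) fun i => q ⬝ᵥ e i)
    (ff d k fun i => q ⬝ᵥ e i) n _ hnd
  refine ⟨(n - (v 0 + v 1 + v 2 + 4 * (2 * kp l) + ta l) + 1) / 2,
    fun m => if hm : ∃ x y : ℤ, m = x • p + y • q then χ hm.choose hm.choose_spec.choose else true,
    ?_, ?_⟩
  · set c0 := v 0 + v 1 + v 2 + 4 * (2 * kp l) + ta l with hc0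
    have h1 : l ^ n ∣ l ^ (2 * ((n - c0 + 1) / 2) + (8 * kp l + ta l)) * l ^ (v 0 + v 1 + v 2) := by
      rw [← pow_add]
      exact pow_dvd_pow _ (by omega)
    have h2 : l ^ (2 * ((n - c0 + 1) / 2) + (8 * kp l + ta l)) * l ^ (v 0 + v 1 + v 2) ∣
        l ^ (2 * ((n - c0 + 1) / 2) + (8 * kp l + ta l)) * (l ^ (2 * kp l) * mi3 G) :=
      Nat.mul_dvd_mul_left _ (h.mi3_ge hl)
    refine dvd_trans h1 (dvd_trans h2 ?_)
    refine dvd_of_eq ?_
    rw [← PlL_pow, ← PlL_ta, pow_add, ← mul_assoc, pow_add l (8 * kp l), pow_add l (10 * kp l)]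
    have : l ^ (10 * kp l) = l ^ (8 * kp l) * l ^ (2 * kp l) := by
      rw [← pow_add]; congr 1; ring
    rw [this]; ring
  · intro m m' hm hm' pm pm' bm bm' hcc i r
    have hcc' : χ hm.choose hm.choose_spec.choose = χ hm'.choose hm'.choose_spec.choose := by
      have := hcc
      simp only [dif_pos hm, dif_pos hm'] at this
      exact this
    have key : ∀ (m : Fin 4 → ℤ) (x y : ℤ), m = x • p + y • q → Pr4 m → mnQ G m ((l : ℤ) ^ n) →
        ¬ ((l : ℤ) ∣ x ∧ (l : ℤ) ∣ y) ∧ (l : ℤ) ^ n ∣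
          (ff d k fun i => p ⬝ᵥ e i) * x ^ 2 +
            (fp d k (fun i => p ⬝ᵥ e i) fun i => q ⬝ᵥ e i) * x * y +
            (ff d k fun i => q ⬝ᵥ e i) * y ^ 2 := by
      intro m x y hmxy hpm hbm
      refine ⟨?_, ?_⟩
      · rintro ⟨hx, hy⟩
        apply hpm l hl
        intro i
        rw [hmxy, Pi.add_apply, Pi.smul_apply, Pi.smul_apply, smul_eq_mul, smul_eq_mul]
        exact dvd_add (Dvd.dvd.mul_right hx _) (Dvd.dvd.mul_right hy _)
      · rw [← PlL_ff]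
        have hcg := cng hsym h.orth h.dd hpm hbm
        have ha : (fun i => m ⬝ᵥ e i) = fun i => x * (p ⬝ᵥ e i) + y * (q ⬝ᵥ e i) := by
          funext i
          rw [hmxy, add_dotProduct, smul_dotProduct, smul_dotProduct, smul_eq_mul, smul_eq_mul]
        rw [ha] at hcg
        rcases hk with hk | hk
        · rw [hk]; exact hcg.f2
        · rw [hk]; exact hcg.f3
    obtain ⟨a1, a2⟩ := key m _ _ hm.choose_spec.choose_spec pm bm
    obtain ⟨b1, b2⟩ := key m' _ _ hm'.choose_spec.choose_spec pm' bm'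
    have hfin := hχ _ _ _ _ a1 b1 a2 b2 hcc'
    have e1 := hm.choose_spec.choose_spec
    have e2 := hm'.choose_spec.choose_spec
    generalize hm.choose_spec.choose = y at *
    generalize hm'.choose_spec.choose = y' at *
    generalize hm.choose = x at *
    generalize hm'.choose = x' at *
    have e3 : m i * m' r - m r * m' i = (x * y' - x' * y) * (p i * q r - p r * q i) := by
      rw [e1, e2]
      simp only [Pi.add_apply, Pi.smul_apply, smul_eq_mul]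
      ring
    rw [e3]
    exact Dvd.dvd.mul_right hfin _

end Pool.Agent.PP5N
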