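import Pool.Agent.PP5N.Defs
import Pool.Agent.PP5N.PlL

/-!
# PP5 (d1): bad m in a plane, all primes
-/

set_option autoImplicit false

namespace Pool.Agent.PP5N

open Matrix Pool.Agent.PP5B

private theorem PlG_cop {S : Finset ℕ} (hS : ∀ l ∈ S, Nat.Prime l) (f : S → ℕ) :
    Pairwise (Function.onFun IsCoprime fun l : S => (((l : ℕ) : ℤ)) ^ f l) := by
  intro a b hab
  show IsCoprime ((((a : ℕ) : ℤ)) ^ f a) ((((b : ℕ) : ℤ)) ^ f b)
  apply IsCoprime.pow
  rw [Nat.isCoprime_iff_coprime]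
  exact (Nat.coprime_primes (hS a a.2) (hS b b.2)).2 fun h => hab (Subtype.ext h)

/-- size 3.  Apply `plL` to every prime `l | s` with `n = 2 * s.factorization l`; `nP = ∏ l ^ E_l`, and
`χ m` = an injective coding of the vector of the `χ_l m` (`l ∈ s.primeFactors`) by a number `< 2 ^ (number of primes)`
(e.g. `Fintype.equivFin` of the functions `s.primeFactors -> Bool`).  `mnQ G m (s ^ 2)` implies `mnQ G m (l ^ (2 * s.factorization l))`.
`s ^ 2 | 2 ^ 61 * nP ^ 2 * mi3 G`: prime by prime (coprime factors), only the prime 2 uses the factor `2 ^ 61`. -/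
theorem plG {G : Matrix (Fin 4) (Fin 4) ℤ} (hsym : ∀ i j, G i j = G j i) (hdet : G.det ≠ 0)
    {p q : Fin 4 → ℤ} (hpq : Pr2 p q) {s : ℕ} (hs : 0 < s) :
    ∃ (nP : ℕ) (χ : (Fin 4 → ℤ) → ℕ), 0 < nP ∧ s ^ 2 ∣ 2 ^ 61 * nP ^ 2 * mi3 G ∧
      (∀ m, χ m < 2 ^ s.primeFactors.card) ∧
      ∀ m m' : Fin 4 → ℤ, (∃ x y : ℤ, m = x • p + y • q) → (∃ x y : ℤ, m' = x • p + y • q) →
        Pr4 m → Pr4 m' → mnQ G m ((s : ℤ) ^ 2) → mnQ G m' ((s : ℤ) ^ 2) → χ m = χ m' →
        ∀ i k, (nP : ℤ) ∣ m i * m' k - m k * m' i := by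
  classical
  have hl : ∀ l : s.primeFactors, (l : ℕ).Prime := fun l => Nat.prime_of_mem_primeFactors l.2
  have hdv : ∀ l : ℕ, l ^ (2 * s.factorization l) ∣ s ^ 2 := by
    intro l
    rw [mul_comm, pow_mul]
    exact pow_dvd_pow_of_dvd (Nat.ordProj_dvd s l) 2
  have hdz : ∀ l : ℕ, ((l : ℤ)) ^ (2 * s.factorization l) ∣ (s : ℤ) ^ 2 := by
    intro l
    exact_mod_cast hdv l
  choose E χ h1 h2 using fun l : s.primeFactors =>
    plL hsym hdet (hl l) hpq (2 * s.factorization (l : ℕ))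
  have hcz := fun f : s.primeFactors → ℕ =>
    PlG_cop (S := s.primeFactors) (fun l hl => Nat.prime_of_mem_primeFactors hl) f
  refine ⟨∏ l : s.primeFactors, (l : ℕ) ^ E l,
    fun m => (Fintype.equivFin (s.primeFactors → Bool) (fun l => χ l m) : Fin _).val, ?_, ?_, ?_, ?_⟩
  · exact Finset.prod_pos fun l _ => pow_pos (hl l).pos _
  · have e1 : (s : ℤ) ^ 2 = ∏ l : s.primeFactors, (((l : ℕ) : ℤ)) ^ (2 * s.factorization (l : ℕ)) := by
      have e2 : s = ∏ l ∈ s.primeFactors, l ^ s.factorization l := by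
        have := Nat.prod_factorization_pow_eq_self hs.ne'
        rw [Finsupp.prod, Nat.support_factorization] at this
        exact this.symm
      have e3 : ((s : ℤ)) = ∏ l ∈ s.primeFactors, ((l : ℤ)) ^ s.factorization l := by
        conv_lhs => rw [e2]
        push_cast
        rfl
      rw [Finset.prod_coe_sort s.primeFactors fun l : ℕ => ((l : ℤ)) ^ (2 * s.factorization l)]
      conv_lhs => rw [e3]
      rw [← Finset.prod_pow]
      refine Finset.prod_congr rfl fun l _ => ?_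
      rw [← pow_mul, mul_comm]
    have e4 : (s : ℤ) ^ 2 ∣ ((2 ^ 61 * (∏ l : s.primeFactors, (l : ℕ) ^ E l) ^ 2 * mi3 G : ℕ) : ℤ) := by
      rw [e1]
      refine Fintype.prod_dvd_of_coprime (hcz _) fun l => ?_
      have h5 : (l : ℕ) ^ (2 * s.factorization (l : ℕ)) ∣
          2 ^ 61 * (∏ l : s.primeFactors, (l : ℕ) ^ E l) ^ 2 * mi3 G := by
        refine (h1 l).trans (mul_dvd_mul_right (mul_dvd_mul ?_ ?_) _)
        · refine pow_dvd_pow _ ?_
          unfold ta
          split_ifs <;> norm_num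
        · rw [mul_comm 2 (E l), pow_mul]
          exact pow_dvd_pow_of_dvd (Finset.dvd_prod_of_mem (fun l : s.primeFactors => (l : ℕ) ^ E l)
            (Finset.mem_univ l)) 2
      exact_mod_cast h5
    exact_mod_cast e4
  · intro m
    have h6 := (Fintype.equivFin (s.primeFactors → Bool) (fun l => χ l m)).isLt
    have h7 : Fintype.card (s.primeFactors → Bool) = 2 ^ s.primeFactors.card := by
      rw [Fintype.card_fun, Fintype.card_bool, Fintype.card_coe]
    exact lt_of_lt_of_eq h6 h7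
  · intro m m' hm hm' hp hp' hb hb' hχ i k
    have h8 : (fun l : s.primeFactors => χ l m) = fun l => χ l m' :=
      (Fintype.equivFin (s.primeFactors → Bool)).injective (Fin.ext hχ)
    have h9 : ∀ l : s.primeFactors, (((l : ℕ) : ℤ)) ^ E l ∣ m i * m' k - m k * m' i := by
      intro l
      refine h2 l m m' hm hm' hp hp' ?_ ?_ (congrFun h8 l) i k
      · exact fun u u' w w' a1 a2 a3 a4 => (hdz l).trans (hb u u' w w' a1 a2 a3 a4)
      · exact fun u u' w w' a1 a2 a3 a4 => (hdz l).trans (hb' u u' w w' a1 a2 a3 a4)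
    have h10 := Fintype.prod_dvd_of_coprime (hcz E) h9
    push_cast
    exact h10

end Pool.Agent.PP5N
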