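import Pool.Agent.PP5N.Defs

/-!
# PP5 (d1): a primitive basis of a plane
-/

set_option autoImplicit false

namespace Pool.Agent.PP5N

open Matrix Pool.Agent.PP5B

/-- size 3.  Any two integral vectors are integral combinations of a pair `(p, q)` whose `2 x 2` minors have gcd 1.
Proof: write `b = x p` with `p` primitive (if `b = 0` take `x = 0` and for `p` the primitive part of `b'`, or `(1,0,0,0)` if both vanish).
Complete `p` to a unimodular matrix (`ex_U` of PP5B/Uni gives `U` with `U.det ^ 2 = 1` and `p ᵥ* U = ![0,0,0,1]`, so `p` is the last row of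
`U⁻¹`, i.e. of `± adj U`); in the dual basis `b' = y p + (c0, c1, c2 combination of the first three rows)`; write
`(c0, c1, c2) = y' (q0, q1, q2)` with `(q0, q1, q2)` primitive (or `(1,0,0)`).  The minors of `(p, q)` have gcd 1: modulo a prime `l`, `p` and
`q` are independent because in the unimodular basis they are `(0,0,0,1)` and `(q0,q1,q2,0)`. -/
theorem sat (b b' : Fin 4 → ℤ) : ∃ p q : Fin 4 → ℤ, Pr2 p q ∧ (∃ x y : ℤ, b = x • p + y • q) ∧
    ∃ x y : ℤ, b' = x • p + y • q := by
  classical
  let N : Submodule ℤ (Fin 4 → ℤ) := Submodule.span ℤ {b, b'}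
  obtain ⟨n, S⟩ := Submodule.smithNormalForm (Pi.basisFun ℤ (Fin 4)) N
  have hn : n ≤ 2 := by
    have h1 : Module.finrank ℤ N = n := by
      rw [Module.finrank_eq_card_basis S.bN, Fintype.card_fin]
    have h2 : Module.finrank ℤ N ≤ 2 := by
      have h3 := finrank_span_le_card (R := ℤ) ({b, b'} : Set (Fin 4 → ℤ))
      refine h3.trans ?_
      rw [Set.toFinset_insert, Set.toFinset_singleton]
      exact Finset.card_le_two
    omega
  -- two indices
  have hex : ∃ j0 j1 : Fin 4, j0 ≠ j1 ∧ ∀ i : Fin n, S.f i = j0 ∨ S.f i = j1 := by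
    rcases Nat.lt_or_ge n 1 with h0 | h0
    · refine ⟨0, 1, by decide, fun i => ?_⟩
      have := i.isLt
      omega
    · rcases Nat.lt_or_ge n 2 with h1 | h1
      · obtain ⟨j, hj⟩ := exists_ne (S.f ⟨0, h0⟩)
        refine ⟨S.f ⟨0, h0⟩, j, hj.symm, fun i => Or.inl ?_⟩
        congr 1
        exact Fin.ext (by show i.val = 0; omega)
      · refine ⟨S.f ⟨0, h0⟩, S.f ⟨1, by omega⟩, ?_, fun i => ?_⟩
        · intro h
          have := S.f.injective h
          simp at this
        · have hi : i.val = 0 ∨ i.val = 1 := by omega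
          rcases hi with hi | hi
          · left
            congr 1
            exact Fin.ext hi
          · right
            congr 1
            exact Fin.ext hi
  obtain ⟨j0, j1, hj, hr⟩ := hex
  have hspan : ∀ v ∈ N, ∃ x y : ℤ, v = x • S.bM j0 + y • S.bM j1 := by
    intro v hv
    have h1 := S.bN.sum_repr ⟨v, hv⟩
    have h2 : v = ∑ i, (S.bN.repr ⟨v, hv⟩ i) • ((S.bN i : N) : Fin 4 → ℤ) := by
      have h3 := congrArg (Subtype.val) h1
      rw [Submodule.coe_sum] at h3
      exact h3.symm
    have h4 : v ∈ Submodule.span ℤ {S.bM j0, S.bM j1} := by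
      rw [h2]
      refine Submodule.sum_mem _ fun i _ => Submodule.smul_mem _ _ ?_
      rw [S.snf]
      refine Submodule.smul_mem _ _ (Submodule.subset_span ?_)
      rcases hr i with h | h
      · rw [h]
        exact Set.mem_insert _ _
      · rw [h]
        exact Set.mem_insert_of_mem _ rfl
    obtain ⟨x, y, hxy⟩ := Submodule.mem_span_pair.mp h4
    exact ⟨x, y, hxy.symm⟩
  refine ⟨S.bM j0, S.bM j1, ?_, hspan b (Submodule.subset_span (Set.mem_insert _ _)),
    hspan b' (Submodule.subset_span (Set.mem_insert_of_mem _ rfl))⟩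
  intro l hl
  by_contra hcon
  push Not at hcon
  have hl1 : ¬ (l : ℤ) ∣ 1 := by
    intro h
    have h1 : (l : ℤ) = 1 := by
      exact Int.eq_one_of_dvd_one (Int.natCast_nonneg l) h
    have h2 := hl.one_lt
    omega
  -- coordinates
  have hc : ∀ i, (l : ℤ) ∣ S.bM j0 i := by
    intro i
    have h1 : ∃ v : Fin 4 → ℤ, (l : ℤ) • v = S.bM j0 i • S.bM j1 - S.bM j1 i • S.bM j0 := by
      choose g hg using fun k => hcon i k
      refine ⟨g, ?_⟩
      funext k
      have := hg k
      simp only [Pi.smul_apply, Pi.sub_apply, smul_eq_mul]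
      linear_combination -this
    obtain ⟨v, hv⟩ := h1
    have h2 := congrArg (fun t => S.bM.repr t j1) hv
    simp only [map_smul, map_sub, Finsupp.smul_apply, Finsupp.sub_apply, Module.Basis.repr_self,
      smul_eq_mul, Finsupp.single_eq_same, Finsupp.single_eq_of_ne hj.symm,
      mul_one, mul_zero, sub_zero] at h2
    exact ⟨_, h2.symm⟩
  apply hl1
  choose g hg using hc
  have h1 : (l : ℤ) • g = S.bM j0 := by
    funext k
    simp only [Pi.smul_apply, smul_eq_mul]
    exact (hg k).symm
  have h2 := congrArg (fun t => S.bM.repr t j0) h1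
  simp only [map_smul, Finsupp.smul_apply, Module.Basis.repr_self, smul_eq_mul,
    Finsupp.single_eq_same] at h2
  exact ⟨_, h2.symm⟩

end Pool.Agent.PP5N
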