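import Pool.Agent.PP5N.Defs

/-!
# PP5 (d1): divisibility of the determinant and of D2
-/

set_option autoImplicit false

namespace Pool.Agent.PP5N

open Matrix Pool.Agent.PP5B

/-- size 3.  Use `dat_exists`, `Dat.mn'`, `mn_det`, `mn_dl`, `D2_even` of PP5B/Igl and PP5B/Cnc (as in `mnQ_le`, `ig_zero`). -/
theorem mnQ_det {G : Matrix (Fin 4) (Fin 4) ℤ} (hsym : ∀ i j, G i j = G j i) (hev : ∀ i, 2 ∣ G i i)
    {m : Fin 4 → ℤ} (hm : Pr4 m) {n : ℤ} (h : mnQ G m n) : n ∣ G.det := by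
  obtain ⟨U, hU⟩ := dat_exists hsym hev hm
  have h3 := mn_det hU.sym' hU.ev' (hU.mn' h)
  have h4 : (Uᵀ * G * U).det = G.det := by
    rw [Matrix.det_mul, Matrix.det_mul, Matrix.det_transpose]
    have := hU.det
    calc U.det * G.det * U.det = U.det ^ 2 * G.det := by ring
      _ = _ := by rw [this, one_mul]
  rwa [h4] at h3

/-- `(s ^ 2) ^ 3 | (D2 G m) ^ 2` by `mn_dl`, hence `s ^ 3 | D2 G m`. -/
theorem mnQ_D2 {G : Matrix (Fin 4) (Fin 4) ℤ} (hsym : ∀ i j, G i j = G j i) (hev : ∀ i, 2 ∣ G i i)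
    {m : Fin 4 → ℤ} (hm : Pr4 m) {s : ℤ} (h : mnQ G m (s ^ 2)) : s ^ 3 ∣ D2 G m := by
  obtain ⟨U, hU⟩ := dat_exists hsym hev hm
  have h1 := mn_dl (hU.mn' h)
  have hD2 : D2 G m = 2 * (TF (Uᵀ * G * U)).dl := D2_even hU
  rw [← hD2] at h1
  have h2 : (s ^ 3) ^ 2 ∣ (D2 G m) ^ 2 := by
    have e : (s ^ 3) ^ 2 = (s ^ 2) ^ 3 := by ring
    rw [e]; exact h1
  exact (Int.pow_dvd_pow_iff (two_ne_zero)).mp h2

private theorem SnD_det3 {M : Matrix (Fin 3) (Fin 3) ℝ} {c : ℝ} {x y : Fin 3 → ℝ}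
    (h : ∀ a b, |M a b| ≤ c * x a * y b) : |M.det| ≤ 6 * (c ^ 3 * (∏ a, x a) * ∏ b, y b) := by
  rw [Matrix.det_apply]
  calc |∑ σ : Equiv.Perm (Fin 3), Equiv.Perm.sign σ • ∏ i, M (σ i) i|
      ≤ ∑ σ : Equiv.Perm (Fin 3), |Equiv.Perm.sign σ • ∏ i, M (σ i) i| := Finset.abs_sum_le_sum_abs _ _
    _ ≤ ∑ _σ : Equiv.Perm (Fin 3), (c ^ 3 * (∏ a, x a) * ∏ b, y b) := by
      refine Finset.sum_le_sum fun σ _ => ?_
      have e1 : |Equiv.Perm.sign σ • ∏ i, M (σ i) i| = ∏ i, |M (σ i) i| := by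
        rcases Int.units_eq_one_or (Equiv.Perm.sign σ) with hs | hs <;>
          simp [hs, Finset.abs_prod]
      rw [e1]
      calc ∏ i, |M (σ i) i| ≤ ∏ i, (c * x (σ i) * y i) :=
            Finset.prod_le_prod (fun i _ => abs_nonneg _) (fun i _ => h _ _)
        _ = c ^ 3 * (∏ a, x a) * ∏ b, y b := by
          rw [Finset.prod_mul_distrib, Finset.prod_mul_distrib, Equiv.prod_comp σ x]
          simp
    _ = 6 * (c ^ 3 * (∏ a, x a) * ∏ b, y b) := by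
      rw [Finset.sum_const, Finset.card_univ, Fintype.card_perm, nsmul_eq_mul]
      norm_num [Nat.factorial]

private theorem SnD_adj {w : Fin 4 → ℝ} (hw : ∀ i, 0 < w i) {c : ℝ}
    {G : Matrix (Fin 4) (Fin 4) ℤ} (hG : ∀ i k, |(G i k : ℝ)| ≤ c * w i * w k) (i k : Fin 4) :
    |(G.adjugate i k : ℝ)| * (w i * w k) ≤ 6 * (c ^ 3 * (∏ i, w i) ^ 2) := by
  rw [Matrix.adjugate_fin_succ_eq_det_submatrix]
  have e1 : |(((-1 : ℤ) ^ ((k + i : ℕ)) * (G.submatrix k.succAbove i.succAbove).det : ℤ) : ℝ)|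
      = |(Matrix.det (fun a b => ((G (k.succAbove a) (i.succAbove b) : ℤ) : ℝ)))| := by
    push_cast
    rw [abs_mul, abs_pow, abs_neg, abs_one, one_pow, one_mul]
    congr 1
  rw [e1]
  have h1 := SnD_det3 (M := fun a b => ((G (k.succAbove a) (i.succAbove b) : ℤ) : ℝ)) (c := c)
    (x := fun a => w (k.succAbove a)) (y := fun b => w (i.succAbove b)) (fun a b => hG _ _)
  have e2 : ∏ a, w a = w k * ∏ a, w (k.succAbove a) := Fin.prod_univ_succAbove w k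
  have e3 : ∏ a, w a = w i * ∏ a, w (i.succAbove a) := Fin.prod_univ_succAbove w i
  have h2 := mul_le_mul_of_nonneg_right h1 (mul_pos (hw i) (hw k)).le
  refine h2.trans (le_of_eq ?_)
  rw [pow_two]
  nth_rewrite 1 [e2]
  rw [e3]
  ring

/-- size 2.  `|adj G i k| ≤ 6 (C0 / X0) ^ 3 Λ ^ 2 / (w i w k)`, `Λ = ∏ w` (each `3 x 3` minor: rows without `i`, columns without `k`). -/
theorem D2_le {w : Fin 4 → ℝ} (hw : ∀ i, 0 < w i) {C0 X0 u : ℝ} (hX : 0 < X0) (hC : 0 < C0) (hu : 0 ≤ u)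
    {G : Matrix (Fin 4) (Fin 4) ℤ} (hG : ∀ i k, |(G i k : ℝ)| ≤ C0 * w i * w k / X0)
    {m : Fin 4 → ℤ} (hm : ∀ i, |(m i : ℝ)| ≤ u * w i) :
    |(D2 G m : ℝ)| ≤ 96 * (C0 / X0) ^ 3 * (∏ i, w i) ^ 2 * u ^ 2 := by
  have hG' : ∀ i k, |(G i k : ℝ)| ≤ (C0 / X0) * w i * w k := by
    intro i k
    refine (hG i k).trans (le_of_eq ?_)
    ring
  have hadj := SnD_adj hw hG'
  set K : ℝ := 6 * ((C0 / X0) ^ 3 * (∏ i, w i) ^ 2) with hK
  have e : (D2 G m : ℝ) = ∑ i, ∑ k, (m i : ℝ) * ((G.adjugate i k : ℝ) * (m k : ℝ)) := by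
    simp only [D2, dotProduct, Matrix.mulVec]
    push_cast
    simp only [Finset.mul_sum]
  have hterm : ∀ i k, |(m i : ℝ) * ((G.adjugate i k : ℝ) * (m k : ℝ))| ≤ K * u ^ 2 := by
    intro i k
    rw [abs_mul, abs_mul]
    have h1 : |(m i : ℝ)| * |(m k : ℝ)| ≤ (u * w i) * (u * w k) :=
      mul_le_mul (hm i) (hm k) (abs_nonneg _) (mul_nonneg hu (hw i).le)
    calc |(m i : ℝ)| * (|(G.adjugate i k : ℝ)| * |(m k : ℝ)|)
        = |(G.adjugate i k : ℝ)| * (|(m i : ℝ)| * |(m k : ℝ)|) := by ring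
      _ ≤ |(G.adjugate i k : ℝ)| * ((u * w i) * (u * w k)) :=
          mul_le_mul_of_nonneg_left h1 (abs_nonneg _)
      _ = (|(G.adjugate i k : ℝ)| * (w i * w k)) * u ^ 2 := by ring
      _ ≤ K * u ^ 2 := mul_le_mul_of_nonneg_right (hadj i k) (sq_nonneg _)
  rw [e]
  calc |∑ i, ∑ k, (m i : ℝ) * ((G.adjugate i k : ℝ) * (m k : ℝ))|
      ≤ ∑ i, |∑ k, (m i : ℝ) * ((G.adjugate i k : ℝ) * (m k : ℝ))| := Finset.abs_sum_le_sum_abs _ _
    _ ≤ ∑ i, ∑ k, |(m i : ℝ) * ((G.adjugate i k : ℝ) * (m k : ℝ))| :=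
        Finset.sum_le_sum fun i _ => Finset.abs_sum_le_sum_abs _ _
    _ ≤ ∑ _i : Fin 4, ∑ _k : Fin 4, K * u ^ 2 :=
        Finset.sum_le_sum fun i _ => Finset.sum_le_sum fun k _ => hterm i k
    _ = 96 * (C0 / X0) ^ 3 * (∏ i, w i) ^ 2 * u ^ 2 := by
        simp only [Finset.sum_const, Finset.card_univ, Fintype.card_fin, nsmul_eq_mul]
        rw [hK]
        push_cast
        ring

/-- size 2.  `s' = sl G m` or half of it: `sl G m ≤ 2 s'` and `mnQ G m (s' ^ 2)`.  `sl` is the product of `l ^ il`, `2 * il ≤ ig + [l = 2]`, and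
`mnQ G m (l ^ ig)` (`ig_mn`); for odd `l`: `l ^ (2 il) | l ^ ig`; for `l = 2`, `il ≥ 1`: `2 ^ (2 (il - 1)) | 2 ^ ig`; coprime prime powers
that divide all minors: their product divides all minors. -/
theorem sl_half {G : Matrix (Fin 4) (Fin 4) ℤ} (m : Fin 4 → ℤ) :
    ∃ s : ℕ, 0 < s ∧ sl G m ≤ 2 * s ∧ s ∣ sl G m ∧ mnQ G m ((s : ℤ) ^ 2) := by
  set S := (D2 G m / 2).natAbs.primeFactors with hS
  have hpr : ∀ l ∈ S, l.Prime := fun l hl => Nat.prime_of_mem_primeFactors hl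
  refine ⟨∏ l ∈ S, l ^ (il G m l - if l = 2 then 1 else 0), ?_, ?_, ?_, ?_⟩
  · exact Finset.prod_pos fun l hl => pow_pos (hpr l hl).pos _
  · have h1 : sl G m ≤ ∏ l ∈ S, ((if l = 2 then 2 else 1) * l ^ (il G m l - if l = 2 then 1 else 0)) := by
      unfold sl
      refine Finset.prod_le_prod' fun l hl => ?_
      by_cases h2 : l = 2
      · subst h2
        simp only [if_true]
        rw [← pow_succ']
        exact Nat.pow_le_pow_right (by norm_num) (by omega)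
      · simp [h2]
    rw [Finset.prod_mul_distrib] at h1
    refine h1.trans (Nat.mul_le_mul_right _ ?_)
    rw [Finset.prod_ite_eq']
    split_ifs <;> norm_num
  · unfold sl
    exact Finset.prod_dvd_prod_of_dvd _ _ fun l hl => pow_dvd_pow _ (Nat.sub_le _ _)
  · intro u u' w w' h1 h2 h3 h4
    push_cast
    rw [← Finset.prod_pow]
    refine Finset.prod_dvd_of_coprime ?_ ?_
    · intro a ha b hb hab
      have hab' : Nat.Coprime a b := (Nat.coprime_primes (hpr a ha) (hpr b hb)).mpr hab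
      have : IsCoprime (a : ℤ) (b : ℤ) := Nat.isCoprime_iff_coprime.mpr hab'
      exact IsCoprime.pow (IsCoprime.pow this)
    · intro l hl
      refine dvd_trans ?_ (ig_mn G m l u u' w w' h1 h2 h3 h4)
      rw [← pow_mul]
      refine pow_dvd_pow _ ?_
      unfold il
      by_cases h2' : l = 2
      · simp only [h2', if_true]; omega
      · simp only [h2', if_false]; omega

end Pool.Agent.PP5N
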