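import Pool.Agent.PP5N.Defs
import Pool.Agent.PP5N.PlG
import Pool.Agent.PP5N.PlC
import Pool.Agent.PP5N.GmG
import Pool.Agent.PP5N.Sat
import Pool.Agent.PP5N.Cn1
import Pool.Agent.PP5N.Cn2
import Pool.Agent.PP5N.SnD

/-!
# PP5 (d1): THEOREM LAT
-/

set_option autoImplicit false

namespace Pool.Agent.PP5N

open Matrix Pool.Agent.PP5B

private lemma lat_mi2 {G : Matrix (Fin 4) (Fin 4) ℤ} (hdet : G.det ≠ 0) : mi2 G ≠ 0 := by
  intro h0
  apply hdet
  have h : ∀ i i' k k', G i k * G i' k' - G i k' * G i' k = 0 := by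
    intro i i' k k'
    have h1 := mi2_dvd G i i' k k'
    rw [h0] at h1
    exact zero_dvd_iff.mp (by simpa using h1)
  have e : G.det = (G 0 0 * G 1 1 - G 0 1 * G 1 0) * (G 2 2 * G 3 3 - G 2 3 * G 3 2)
      - (G 0 0 * G 1 2 - G 0 2 * G 1 0) * (G 2 1 * G 3 3 - G 2 3 * G 3 1)
      + (G 0 0 * G 1 3 - G 0 3 * G 1 0) * (G 2 1 * G 3 2 - G 2 2 * G 3 1)
      + (G 0 1 * G 1 2 - G 0 2 * G 1 1) * (G 2 0 * G 3 3 - G 2 3 * G 3 0)
      - (G 0 1 * G 1 3 - G 0 3 * G 1 1) * (G 2 0 * G 3 2 - G 2 2 * G 3 0)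
      + (G 0 2 * G 1 3 - G 0 3 * G 1 2) * (G 2 0 * G 3 1 - G 2 1 * G 3 0) := by
    simp [Matrix.det_succ_row_zero, Fin.sum_univ_succ, Fin.succAbove]
    ring
  rw [e, h 0 1 0 1, h 0 1 0 2, h 0 1 0 3, h 0 1 1 2, h 0 1 1 3, h 0 1 2 3]
  ring

private lemma lat_mi3 {G : Matrix (Fin 4) (Fin 4) ℤ} (hdet : G.det ≠ 0) : mi3 G ≠ 0 := by
  intro h0
  apply hdet
  have h : G.adjugate = 0 := by
    ext i k
    have h1 := mi3_dvd G i k
    rw [h0] at h1
    exact zero_dvd_iff.mp (by simpa using h1)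
  have h2 := Matrix.mul_adjugate G
  rw [h, Matrix.mul_zero] at h2
  have h3 := congrFun (congrFun h2 0) 0
  simpa using h3.symm

private lemma lat_iota {s : ℕ} (hs : 0 < s) :
    (∏ l ∈ s.primeFactors, (2 * s.factorization l + 1)) ≤ s.divisors.card ^ 2 := by
  rw [Nat.card_divisors hs.ne', ← Finset.prod_pow]
  refine Finset.prod_le_prod' fun l _ => ?_
  nlinarith

private lemma lat_omega {s : ℕ} (hs : 0 < s) : 2 ^ s.primeFactors.card ≤ s.divisors.card := by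
  rw [Nat.card_divisors hs.ne', ← Finset.prod_const]
  refine Finset.prod_le_prod' fun l hl => ?_
  have h := Nat.support_factorization s ▸ hl
  have h2 : s.factorization l ≠ 0 := Finsupp.mem_support_iff.mp h
  omega

/-- abstract form of the cases 3 and 4 -/
private lemma lat_case {N K L A B k1 : ℝ} (hN : 0 ≤ N) (hA : 0 < A) (hB : 0 < B)
    (h1 : N * K ≤ L) (h2 : max A B ≤ k1 * K) (hk1 : 0 ≤ k1) :
    N ≤ k1 * L * min (1 / A) (1 / B) := by
  have h3 : N * max A B ≤ k1 * L := by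
    calc N * max A B ≤ N * (k1 * K) := mul_le_mul_of_nonneg_left h2 hN
      _ = k1 * (N * K) := by ring
      _ ≤ k1 * L := mul_le_mul_of_nonneg_left h1 hk1
  have hm : 0 < max A B := lt_max_of_lt_left hA
  have h4 : min (1 / A) (1 / B) = 1 / max A B := by
    rcases le_total A B with h | h
    · rw [max_eq_right h, min_eq_right (one_div_le_one_div_of_le hA h)]
    · rw [max_eq_left h, min_eq_left (one_div_le_one_div_of_le hB h)]
  rw [h4, mul_one_div, le_div_iff₀ hm]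
  exact h3

private lemma lat_min {a b b' k : ℝ} (ha : 0 ≤ a) (hk : 1 ≤ k) (hb : b ≤ k * b') :
    min a b ≤ k * min a b' := by
  rcases le_total a b' with h | h
  · rw [min_eq_left h]
    exact (min_le_left _ _).trans (le_mul_of_one_le_left ha hk)
  · rw [min_eq_right h]
    exact (min_le_right _ _).trans hb

/-- THEOREM LAT (size 4).  `X` = a set of bad `m` for `s` in the box `|m i| ≤ u w i`.
Proof: if `X` is empty fine; otherwise `s ^ 2 | det G` (`mnQ_det`), take `gmG`: `ι` lattices with `P`, and every `m ∈ X` is in some `Γ a`.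
For each `a` let `X a = X ∩ Γ a` and apply `cn1`: (4) `card (X a) * max 1 P ≤ 1536 C u ^ 4 Λ` (`cn_four`);
(3) `card (X a) * max wmin (P X0 / (C0 wmax)) ≤ 10 ^ 5 C u ^ 3 Λ` (`cn_three`); (2) `X a` is contained in a plane: `sat`, `plG`, and `plC` for each of the
`≤ 2 ^ ω(s)` classes: `card (X a) ≤ 2 ^ ω(s) (2 + 30 u ^ 2 B / nP)`.  From `s ^ 2 ≤ 2 ^ 36 mi2 P` and `s ^ 2 ≤ 2 ^ 61 nP ^ 2 mi3`:
`1 / P ≤ 2 ^ 36 mi2 / s ^ 2`, `1 / nP ≤ 2 ^ 31 sqrt mi3 / s` (`mi2, mi3 > 0` as `det G ≠ 0`).  Sum over `a`: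
`ι ≤ ∏ (2 e + 1) ≤ (number of divisors) ^ 2`, `2 ^ ω ≤ number of divisors`. -/
theorem lat : ∃ C : ℝ, 1 ≤ C ∧ ∀ (w : Fin 4 → ℝ), (∀ i, 0 < w i) → ∀ (wmin wmax B C0 X0 u : ℝ),
    (0 < wmin) → (∀ i, wmin ≤ w i) → (∀ i, w i ≤ wmax) → (∀ i k, i ≠ k → w i * w k ≤ B) → 0 < C0 → 0 < X0 → 0 < u →
    ∀ G : Matrix (Fin 4) (Fin 4) ℤ, (∀ i j, G i j = G j i) → (∀ i, 2 ∣ G i i) → G.det ≠ 0 →
    (∀ i k, |(G i k : ℝ)| ≤ C0 * w i * w k / X0) → ∀ s : ℕ, 0 < s →
    ∀ X : Finset (Fin 4 → ℤ), (∀ m ∈ X, Pr4 m ∧ mnQ G m ((s : ℤ) ^ 2) ∧ ∀ i, |(m i : ℝ)| ≤ u * w i) →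
    (X.card : ℝ) ≤ C * (s.divisors.card : ℝ) ^ 3 *
      (u ^ 4 * (∏ i, w i) * min 1 ((mi2 G : ℝ) / s ^ 2) +
        u ^ 3 * (∏ i, w i) * min (1 / wmin) (C0 * wmax * mi2 G / (X0 * s ^ 2)) +
        1 + u ^ 2 * B * √(mi3 G : ℝ) / s) := by
  classical
  obtain ⟨C1, hC1, hcn⟩ := cn1
  refine ⟨10 ^ 5 * 2 ^ 36 * C1, by linarith, ?_⟩
  intro w hw wmin wmax B C0 X0 u hwmin hmin hmax hB hC hX hu G hsym hev hdet hG s hs X hXm
  have hwmax : 0 < wmax := (hw 0).trans_le (hmax 0)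
  have hBp : 0 < B := (mul_pos (hw 0) (hw 1)).trans_le (hB 0 1 (by decide))
  have hΛ : 0 < ∏ i, w i := Finset.prod_pos fun i _ => hw i
  have hsp : (0 : ℝ) < s := by exact_mod_cast hs
  have hm2 : (0 : ℝ) < (mi2 G : ℝ) := by exact_mod_cast Nat.pos_of_ne_zero (lat_mi2 hdet)
  have hm3 : (0 : ℝ) < (mi3 G : ℝ) := by exact_mod_cast Nat.pos_of_ne_zero (lat_mi3 hdet)
  obtain ⟨T4, hT4⟩ : ∃ T4, T4 = u ^ 4 * (∏ i, w i) * min 1 ((mi2 G : ℝ) / s ^ 2) := ⟨_, rfl⟩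
  obtain ⟨T3, hT3⟩ : ∃ T3, T3 = u ^ 3 * (∏ i, w i) *
    min (1 / wmin) (C0 * wmax * mi2 G / (X0 * s ^ 2)) := ⟨_, rfl⟩
  obtain ⟨T2, hT2⟩ : ∃ T2, T2 = u ^ 2 * B * √(mi3 G : ℝ) / s := ⟨_, rfl⟩
  rw [← hT4, ← hT3, ← hT2]
  have hT4' : 0 ≤ T4 := by rw [hT4]; positivity
  have hT3' : 0 ≤ T3 := by rw [hT3]; positivity
  have hT2' : 0 ≤ T2 := by rw [hT2]; positivity
  have hd1 : (1 : ℝ) ≤ (s.divisors.card : ℝ) := by
    have : 0 < s.divisors.card := Finset.card_pos.mpr ⟨1, Nat.one_mem_divisors.mpr hs.ne'⟩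
    exact_mod_cast this
  rcases X.eq_empty_or_nonempty with hXe | ⟨m0, hm0⟩
  · rw [hXe]
    simp only [Finset.card_empty, Nat.cast_zero]
    positivity
  obtain ⟨ι, P, Γ, hι, hP, hsP, hΓ1, hΓ2, hΓ3⟩ := gmG hsym hdet hs
    (mnQ_det hsym hev (hXm m0 hm0).1 (hXm m0 hm0).2.1)
  have hPp : (0 : ℝ) < P := by exact_mod_cast hP
  have hsP' : (s : ℝ) ^ 2 ≤ 2 ^ 36 * mi2 G * P := by
    have h1 : 0 < 2 ^ 36 * mi2 G * P := by
      have := Nat.pos_of_ne_zero (lat_mi2 hdet)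
      positivity
    exact_mod_cast Nat.le_of_dvd h1 hsP
  -- one lattice
  have hone : ∀ a : Fin ι, ((X.filter fun m => m ∈ Γ a).card : ℝ) ≤
      10 ^ 5 * 2 ^ 36 * C1 * (s.divisors.card : ℝ) * (T4 + T3 + 1 + T2) := by
    intro a
    have hXa : ∀ m ∈ X.filter (fun m => m ∈ Γ a), m ∈ Γ a ∧ ∀ i, |(m i : ℝ)| ≤ u * w i := by
      intro m hm
      rw [Finset.mem_filter] at hm
      exact ⟨hm.2, (hXm m hm.1).2.2⟩
    have hcard0 : (0 : ℝ) ≤ ((X.filter fun m => m ∈ Γ a).card : ℝ) := Nat.cast_nonneg _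
    rcases hcn w hw (Γ a) u hu _ hXa with ⟨b, hb1, hb2, hb3⟩ | ⟨b, hb1, hb2, hb3⟩ | ⟨b, b', hb⟩
    · have h1 := cn_four hw hb2 (hΓ1 a (Matrix.of b) hb1)
      have hK : 0 ≤ ∏ i, PP5.nw w (b i) := Finset.prod_nonneg fun i _ => PP5.nw_nonneg _ _
      have h2 := lat_case hcard0 one_pos hPp hb3
        (by rw [show 1536 * (∏ i, w i) * ∏ i, PP5.nw w (b i) =
          1536 * (∏ i, PP5.nw w (b i)) * ∏ i, w i by ring]; exact h1) (by positivity)
      have h3 : min (1 / 1 : ℝ) (1 / (P : ℝ)) ≤ 2 ^ 36 * min 1 ((mi2 G : ℝ) / s ^ 2) := by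
        rw [one_div_one]
        refine lat_min zero_le_one (by norm_num) ?_
        rw [mul_div_assoc', div_le_div_iff₀ hPp (by positivity)]
        linarith
      calc ((X.filter fun m => m ∈ Γ a).card : ℝ)
          ≤ 1536 * (∏ i, w i) * (C1 * u ^ 4) * min (1 / 1) (1 / (P : ℝ)) := h2
        _ ≤ 1536 * (∏ i, w i) * (C1 * u ^ 4) * (2 ^ 36 * min 1 ((mi2 G : ℝ) / s ^ 2)) :=
            mul_le_mul_of_nonneg_left h3 (by positivity)
        _ = 1536 * 2 ^ 36 * C1 * T4 := by rw [hT4]; ring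
        _ ≤ 10 ^ 5 * 2 ^ 36 * C1 * (s.divisors.card : ℝ) * (T4 + T3 + 1 + T2) := by
            have e1 : 1536 * 2 ^ 36 * C1 ≤ 10 ^ 5 * 2 ^ 36 * C1 * (s.divisors.card : ℝ) := by
              calc 1536 * 2 ^ 36 * C1 ≤ 10 ^ 5 * 2 ^ 36 * C1 * 1 := by linarith
                _ ≤ _ := mul_le_mul_of_nonneg_left hd1 (by positivity)
            exact mul_le_mul e1 (by linarith) hT4' (by positivity)
    · have h1 := cn_three hw hmin hmax hX hC hsym hdet hG (hΓ1 a) (hΓ2 a) hb1 hb2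
      have hK : 0 ≤ ∏ i, PP5.nw w (b i) := Finset.prod_nonneg fun i _ => PP5.nw_nonneg _ _
      have hP2 : 0 < (P : ℝ) * X0 / (C0 * wmax) := by positivity
      have h2 := lat_case hcard0 hwmin hP2 hb3
        (by rw [show (10 : ℝ) ^ 5 * (∏ i, w i) * ∏ i, PP5.nw w (b i) =
          10 ^ 5 * (∏ i, PP5.nw w (b i)) * ∏ i, w i by ring]; exact h1) (by positivity)
      have h3 : min (1 / wmin) (1 / ((P : ℝ) * X0 / (C0 * wmax))) ≤
          2 ^ 36 * min (1 / wmin) (C0 * wmax * mi2 G / (X0 * s ^ 2)) := by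
        refine lat_min (by positivity) (by norm_num) ?_
        rw [one_div_div, mul_div_assoc', div_le_div_iff₀ (by positivity) (by positivity)]
        have e1 : 0 < C0 * wmax * X0 := by positivity
        linarith [mul_le_mul_of_nonneg_left hsP' e1.le]
      calc ((X.filter fun m => m ∈ Γ a).card : ℝ)
          ≤ 10 ^ 5 * (∏ i, w i) * (C1 * u ^ 3) *
            min (1 / wmin) (1 / ((P : ℝ) * X0 / (C0 * wmax))) := h2
        _ ≤ 10 ^ 5 * (∏ i, w i) * (C1 * u ^ 3) *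
            (2 ^ 36 * min (1 / wmin) (C0 * wmax * mi2 G / (X0 * s ^ 2))) :=
            mul_le_mul_of_nonneg_left h3 (by positivity)
        _ = 10 ^ 5 * 2 ^ 36 * C1 * T3 := by rw [hT3]; ring
        _ ≤ 10 ^ 5 * 2 ^ 36 * C1 * (s.divisors.card : ℝ) * (T4 + T3 + 1 + T2) := by
            have e1 : 10 ^ 5 * 2 ^ 36 * C1 ≤ 10 ^ 5 * 2 ^ 36 * C1 * (s.divisors.card : ℝ) :=
              le_mul_of_one_le_right (by positivity) hd1
            exact mul_le_mul e1 (by linarith) hT3' (by positivity)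
    · obtain ⟨p, q, hpq, ⟨x1, y1, hx1⟩, ⟨x2, y2, hx2⟩⟩ := sat b b'
      have hpl : ∀ m ∈ X.filter (fun m => m ∈ Γ a), ∃ x y : ℤ, m = x • p + y • q := by
        intro m hm
        obtain ⟨x, y, hxy⟩ := hb m hm
        refine ⟨x * x1 + y * x2, x * y1 + y * y2, ?_⟩
        rw [hxy, hx1, hx2]
        funext i
        simp only [Pi.add_apply, Pi.smul_apply, smul_eq_mul]
        ring
      obtain ⟨nP, χ, hnP, hsn, hχ1, hχ2⟩ := plG hsym hdet hpq hs
      have hnPp : (0 : ℝ) < nP := by exact_mod_cast hnP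
      have hcl : ∀ t : ℕ, ((((X.filter fun m => m ∈ Γ a).filter fun m => χ m = t).card : ℕ) : ℝ) ≤
          2 + 30 * u ^ 2 * B / nP := by
        intro t
        refine plC hw hu hB hnP hpq _ ?_ ?_ ?_ ?_
        · intro m hm
          rw [Finset.mem_filter, Finset.mem_filter] at hm
          exact (hXm m hm.1.1).1
        · intro m hm
          rw [Finset.mem_filter, Finset.mem_filter] at hm
          exact (hXm m hm.1.1).2.2
        · intro m hm
          rw [Finset.mem_filter] at hm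
          exact hpl m hm.1
        · intro m hm m' hm'
          rw [Finset.mem_filter] at hm hm'
          have g1 := Finset.mem_filter.mp hm.1
          have g2 := Finset.mem_filter.mp hm'.1
          exact hχ2 m m' (hpl m hm.1) (hpl m' hm'.1) (hXm m g1.1).1 (hXm m' g2.1).1
            (hXm m g1.1).2.1 (hXm m' g2.1).2.1 (hm.2.trans hm'.2.symm)
      have hsum : ((X.filter fun m => m ∈ Γ a).card : ℝ) ≤
          2 ^ s.primeFactors.card * (2 + 30 * u ^ 2 * B / nP) := by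
        have h1 : (X.filter fun m => m ∈ Γ a).card =
            ∑ t ∈ Finset.range (2 ^ s.primeFactors.card),
              ((X.filter fun m => m ∈ Γ a).filter fun m => χ m = t).card :=
          Finset.card_eq_sum_card_fiberwise fun m _ => by
            simpa using hχ1 m
        rw [h1]
        push_cast
        refine (Finset.sum_le_sum fun t _ => hcl t).trans ?_
        rw [Finset.sum_const, Finset.card_range, nsmul_eq_mul]
        push_cast
        rfl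
      have hω : (2 : ℝ) ^ s.primeFactors.card ≤ s.divisors.card := by
        exact_mod_cast lat_omega hs
      have hs3 : (s : ℝ) ^ 2 ≤ 2 ^ 61 * nP ^ 2 * mi3 G := by
        have h1 : 0 < 2 ^ 61 * nP ^ 2 * mi3 G := by
          have := Nat.pos_of_ne_zero (lat_mi3 hdet)
          positivity
        exact_mod_cast Nat.le_of_dvd h1 hsn
      have hs4 : (s : ℝ) ≤ 2 ^ 31 * nP * √(mi3 G : ℝ) := by
        refine le_of_sq_le_sq ?_ (by positivity)
        rw [mul_pow, Real.sq_sqrt hm3.le]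
        refine hs3.trans ?_
        have e1 : (0 : ℝ) ≤ nP ^ 2 * mi3 G := by positivity
        linarith
      have h5 : 30 * u ^ 2 * B / nP ≤ 30 * 2 ^ 31 * T2 := by
        rw [hT2, mul_div_assoc', div_le_div_iff₀ hnPp hsp]
        have e1 : 0 ≤ 30 * u ^ 2 * B := by positivity
        linarith [mul_le_mul_of_nonneg_left hs4 e1]
      calc ((X.filter fun m => m ∈ Γ a).card : ℝ)
          ≤ 2 ^ s.primeFactors.card * (2 + 30 * u ^ 2 * B / nP) := hsum
        _ ≤ s.divisors.card * (2 + 30 * 2 ^ 31 * T2) := by gcongr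
        _ ≤ s.divisors.card * (10 ^ 5 * 2 ^ 36 * C1 * (T4 + T3 + 1 + T2)) := by
            refine mul_le_mul_of_nonneg_left ?_ (by positivity)
            have e1 : (30 * 2 ^ 31 : ℝ) ≤ 10 ^ 5 * 2 ^ 36 * C1 := by linarith
            have e2 : (30 * 2 ^ 31 : ℝ) * (T4 + T3 + 1 + T2) ≤
                10 ^ 5 * 2 ^ 36 * C1 * (T4 + T3 + 1 + T2) :=
              mul_le_mul_of_nonneg_right e1 (by positivity)
            refine le_trans ?_ e2
            linarith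
        _ = 10 ^ 5 * 2 ^ 36 * C1 * (s.divisors.card : ℝ) * (T4 + T3 + 1 + T2) := by ring
  have hcov : X ⊆ Finset.univ.biUnion fun a : Fin ι => X.filter fun m => m ∈ Γ a := by
    intro m hm
    obtain ⟨a, ha⟩ := hΓ3 m (hXm m hm).1 (hXm m hm).2.1
    rw [Finset.mem_biUnion]
    exact ⟨a, Finset.mem_univ _, Finset.mem_filter.mpr ⟨hm, ha⟩⟩
  have htot : (X.card : ℝ) ≤ ∑ a : Fin ι, ((X.filter fun m => m ∈ Γ a).card : ℝ) := by
    exact_mod_cast (Finset.card_le_card hcov).trans Finset.card_biUnion_le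
  have hι' : (ι : ℝ) ≤ (s.divisors.card : ℝ) ^ 2 := by
    exact_mod_cast hι.trans (lat_iota hs)
  calc (X.card : ℝ) ≤ ∑ a : Fin ι, ((X.filter fun m => m ∈ Γ a).card : ℝ) := htot
    _ ≤ ∑ _a : Fin ι, 10 ^ 5 * 2 ^ 36 * C1 * (s.divisors.card : ℝ) * (T4 + T3 + 1 + T2) :=
        Finset.sum_le_sum fun a _ => hone a
    _ = ι * (10 ^ 5 * 2 ^ 36 * C1 * (s.divisors.card : ℝ) * (T4 + T3 + 1 + T2)) := by
        rw [Finset.sum_const, Finset.card_univ, Fintype.card_fin, nsmul_eq_mul]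
    _ ≤ (s.divisors.card : ℝ) ^ 2 *
        (10 ^ 5 * 2 ^ 36 * C1 * (s.divisors.card : ℝ) * (T4 + T3 + 1 + T2)) :=
        mul_le_mul_of_nonneg_right hι' (by positivity)
    _ = _ := by ring

end Pool.Agent.PP5N
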