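import Pool.Agent.PP5N.Defs

/-!
# PP5 (d1): residues of the bad m at one prime
-/

set_option autoImplicit false

namespace Pool.Agent.PP5N

open Matrix Pool.Agent.PP5B

private theorem LocC_split (l : ℕ) (a : ℤ) (s : ℕ) :
    (l : ℤ) ^ s ∣ a ∨ ∃ w, w < s ∧ ∃ u : ℤ, a = (l : ℤ) ^ w * u ∧ ¬ (l : ℤ) ∣ u := by
  induction s with
  | zero => left; simp
  | succ s ih =>
    rcases ih with ⟨c, hc⟩ | ⟨w, hw, u, hu⟩
    · by_cases h : (l : ℤ) ∣ c
      · obtain ⟨e, he⟩ := h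
        left
        exact ⟨e, by rw [hc, he]; ring⟩
      · right
        exact ⟨s, by omega, c, hc, h⟩
    · right
      exact ⟨w, by omega, u, hu⟩

private theorem LocC_coprime {l : ℕ} (hl : l.Prime) {g : ℤ} (hg : ¬ (l : ℤ) ∣ g) (n : ℕ) :
    IsCoprime ((l : ℤ) ^ n) g := by
  apply IsCoprime.pow_left
  exact (Prime.coprime_iff_not_dvd (Nat.prime_iff_prime_int.1 hl)).2 hg

private theorem LocC_dvd {l : ℕ} (hl : l.Prime) {n e : ℕ} {g x : ℤ} (hg : ¬ (l : ℤ) ∣ g)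
    (h : (l : ℤ) ^ n ∣ (l : ℤ) ^ e * g * x) : (l : ℤ) ^ (n - e) ∣ x := by
  have hl0 : (l : ℤ) ≠ 0 := by exact_mod_cast hl.ne_zero
  by_cases hn : n ≤ e
  · rw [Nat.sub_eq_zero_of_le hn]; simp
  · obtain ⟨k, rfl⟩ : ∃ k, n = e + k := ⟨n - e, by omega⟩
    rw [Nat.add_sub_cancel_left]
    rw [pow_add, mul_assoc] at h
    have h2 := (mul_dvd_mul_iff_left (pow_ne_zero e hl0)).1 h
    exact (LocC_coprime hl hg k).dvd_of_dvd_mul_left h2

private theorem LocC_le {l : ℕ} (hl : l.Prime) {n e : ℕ} {u : ℤ} (hu : ¬ (l : ℤ) ∣ u)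
    (h : (l : ℤ) ^ n ∣ (l : ℤ) ^ e * u) : n ≤ e := by
  by_contra hn
  have h1 : (l : ℤ) ^ (n - e) ∣ 1 := by
    apply LocC_dvd hl hu (e := e)
    rwa [mul_one]
  have h2 : (l : ℤ) ∣ 1 := (dvd_pow_self _ (by omega)).trans h1
  exact (Nat.prime_iff_prime_int.1 hl).not_dvd_one h2

private theorem LocC_cls {l j k : ℕ} (hl : l.Prime) (hk : k ≤ j) (c : ℤ)
    (T : Finset (ZMod (l ^ j)))
    (hT : ∀ t ∈ T, ∃ a : ℤ, (a : ZMod (l ^ j)) = t ∧ (l : ℤ) ^ k ∣ a - c) :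
    T.card ≤ l ^ (j - k) := by
  classical
  have hsub : T ⊆ (Finset.range (l ^ (j - k))).image
      (fun y : ℕ => ((c + (l : ℤ) ^ k * (y : ℤ) : ℤ) : ZMod (l ^ j))) := by
    intro t ht
    obtain ⟨a, ha, y, hy⟩ := hT t ht
    rw [Finset.mem_image]
    have hpos : 0 < l ^ (j - k) := pow_pos hl.pos _
    refine ⟨(y % ((l ^ (j - k) : ℕ) : ℤ)).toNat, ?_, ?_⟩
    · rw [Finset.mem_range]
      have h1 : y % ((l ^ (j - k) : ℕ) : ℤ) < ((l ^ (j - k) : ℕ) : ℤ) :=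
        Int.emod_lt_of_pos _ (by exact_mod_cast hpos)
      have h2 : 0 ≤ y % ((l ^ (j - k) : ℕ) : ℤ) := Int.emod_nonneg _ (by exact_mod_cast hpos.ne')
      omega
    · have h2 : 0 ≤ y % ((l ^ (j - k) : ℕ) : ℤ) := Int.emod_nonneg _ (by exact_mod_cast hpos.ne')
      rw [Int.toNat_of_nonneg h2, ← ha]
      apply (ZMod.intCast_eq_intCast_iff_dvd_sub _ _ _).2
      have h3 : a - (c + (l : ℤ) ^ k * (y % ((l ^ (j - k) : ℕ) : ℤ)))
          = (l : ℤ) ^ k * (y - y % ((l ^ (j - k) : ℕ) : ℤ)) := by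
        have : a = c + (l : ℤ) ^ k * y := by linarith
        rw [this]; ring
      rw [h3]
      have h4 : ((l ^ (j - k) : ℕ) : ℤ) ∣ y - y % ((l ^ (j - k) : ℕ) : ℤ) :=
        Int.dvd_self_sub_emod
      have h5 : ((l ^ j : ℕ) : ℤ) = (l : ℤ) ^ k * ((l ^ (j - k) : ℕ) : ℤ) := by
        push_cast
        rw [← pow_add]
        congr 1
        omega
      rw [h5]
      exact mul_dvd_mul_left _ h4
  calc T.card ≤ _ := Finset.card_le_card hsub
    _ ≤ (Finset.range (l ^ (j - k))).card := Finset.card_image_le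
    _ = l ^ (j - k) := Finset.card_range _

/-- number of square roots modulo a prime power (size 2): if `x ^ 2 = x' ^ 2 = r mod l ^ E` then `l ^ ⌈E/2⌉` divides `x - x'` or `x + x'`,
so all roots lie in two classes modulo `l ^ ⌈E/2⌉`.  Stated for integers in a complete system. -/
theorem sq_roots {l : ℕ} (hl : l.Prime) (j E : ℕ) (hE : E ≤ j) (r : ℤ) (T : Finset (ZMod (l ^ j)))
    (hT : ∀ t ∈ T, ∃ a : ℤ, (a : ZMod (l ^ j)) = t ∧ (l : ℤ) ^ E ∣ a ^ 2 - r) :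
    T.card ≤ 2 * l ^ (j - (E + 1) / 2) := by
  classical
  rcases T.eq_empty_or_nonempty with h0 | ⟨t0, ht0⟩
  · rw [h0]; simp
  obtain ⟨a0, ha0, hr0⟩ := hT t0 ht0
  have hk : (E + 1) / 2 ≤ j := by omega
  -- two classes
  have key : ∀ t ∈ T, ∃ a : ℤ, (a : ZMod (l ^ j)) = t ∧
      ((l : ℤ) ^ ((E + 1) / 2) ∣ a - a0 ∨ (l : ℤ) ^ ((E + 1) / 2) ∣ a - (-a0)) := by
    intro t ht
    obtain ⟨a, ha, hr⟩ := hT t ht
    refine ⟨a, ha, ?_⟩
    have h1 : (l : ℤ) ^ E ∣ (a - a0) * (a + a0) := by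
      have : (a - a0) * (a + a0) = (a ^ 2 - r) - (a0 ^ 2 - r) := by ring
      rw [this]
      exact dvd_sub hr hr0
    rcases LocC_split l (a - a0) ((E + 1) / 2) with h | ⟨w, hw, u, hu, hu'⟩
    · left; exact h
    · right
      rw [hu] at h1
      have h2 := LocC_dvd hl hu' h1
      have h3 : (l : ℤ) ^ ((E + 1) / 2) ∣ a + a0 :=
        (pow_dvd_pow _ (by omega)).trans h2
      rwa [sub_neg_eq_add]
  set T1 := T.filter fun t => ∃ a : ℤ, (a : ZMod (l ^ j)) = t ∧ (l : ℤ) ^ ((E + 1) / 2) ∣ a - a0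
    with hT1
  set T2 := T.filter fun t => ∃ a : ℤ, (a : ZMod (l ^ j)) = t ∧
    (l : ℤ) ^ ((E + 1) / 2) ∣ a - (-a0) with hT2
  have hsub : T ⊆ T1 ∪ T2 := by
    intro t ht
    obtain ⟨a, ha, h | h⟩ := key t ht
    · exact Finset.mem_union_left _ (Finset.mem_filter.2 ⟨ht, a, ha, h⟩)
    · exact Finset.mem_union_right _ (Finset.mem_filter.2 ⟨ht, a, ha, h⟩)
  have c1 : T1.card ≤ l ^ (j - (E + 1) / 2) :=
    LocC_cls hl hk a0 T1 (fun t ht => (Finset.mem_filter.1 ht).2)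
  have c2 : T2.card ≤ l ^ (j - (E + 1) / 2) :=
    LocC_cls hl hk (-a0) T2 (fun t ht => (Finset.mem_filter.1 ht).2)
  calc T.card ≤ (T1 ∪ T2).card := Finset.card_le_card hsub
    _ ≤ T1.card + T2.card := Finset.card_union_le _ _
    _ ≤ 2 * l ^ (j - (E + 1) / 2) := by omega

/-- the conditions on a lift -/
private def LocC_P (l j : ℕ) (d : Fin 4 → ℤ) (t : Fin 4 → ZMod (l ^ j)) (a : Fin 4 → ℤ) : Prop :=
  (∀ i, (a i : ZMod (l ^ j)) = t i) ∧
      (l : ℤ) ^ (2 * j) ∣ a 2 * a 3 * (d 0 * d 1) ∧ (l : ℤ) ^ (2 * j) ∣ ff d 2 a ∧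
        (l : ℤ) ^ (2 * j) ∣ ff d 3 a

private theorem LocC_exp {l : ℕ} (hl : l.Prime) {d : Fin 4 → ℤ} {v : Fin 4 → ℕ} (hd : Vd l d v)
    (k : Fin 4) {a : Fin 4 → ℤ} {N w : ℕ} {u : ℤ} (hN : (l : ℤ) ^ N ∣ ff d k a)
    (ha : a k = (l : ℤ) ^ w * u) (hu : ¬ (l : ℤ) ∣ u) (hw : v 0 + v 1 + 2 * w < N) :
    v 0 + v k ≤ v 0 + v 1 + 2 * w := by
  obtain ⟨g0, h0, hg0⟩ := hd.val 0
  obtain ⟨g1, h1, hg1⟩ := hd.val 1
  obtain ⟨gk, hk, hgk⟩ := hd.val k
  have hp := Nat.prime_iff_prime_int.1 hl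
  have hv := hd.m01
  by_contra hcon
  have hA : (l : ℤ) ^ (v 0 + v 1 + 2 * w + 1) ∣ d 1 * d k * a 0 ^ 2 + d 0 * d k * a 1 ^ 2 := by
    have e1 : (l : ℤ) ^ (v 0 + v k) ∣ d 1 * d k := by
      rw [h1, hk, pow_add]
      obtain ⟨x, hx⟩ : ∃ x, v 1 = v 0 + x := ⟨v 1 - v 0, by omega⟩
      rw [hx, pow_add]
      exact ⟨(l : ℤ) ^ x * g1 * gk, by ring⟩
    have e2 : (l : ℤ) ^ (v 0 + v k) ∣ d 0 * d k := by
      rw [h0, hk, pow_add]
      exact ⟨g0 * gk, by ring⟩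
    have e3 : (l : ℤ) ^ (v 0 + v 1 + 2 * w + 1) ∣ (l : ℤ) ^ (v 0 + v k) :=
      pow_dvd_pow _ (by omega)
    exact dvd_add ((e3.trans e1).mul_right _) ((e3.trans e2).mul_right _)
  have hB : (l : ℤ) ^ (v 0 + v 1 + 2 * w + 1) ∣ ff d k a := (pow_dvd_pow _ (by omega)).trans hN
  have hC : (l : ℤ) ^ (v 0 + v 1 + 2 * w + 1) ∣ d 0 * d 1 * a k ^ 2 := by
    have : d 0 * d 1 * a k ^ 2 = ff d k a - (d 1 * d k * a 0 ^ 2 + d 0 * d k * a 1 ^ 2) := by
      unfold ff; ring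
    rw [this]
    exact dvd_sub hB hA
  have hD : d 0 * d 1 * a k ^ 2 = (l : ℤ) ^ (v 0 + v 1 + 2 * w) * (g0 * g1 * u ^ 2) := by
    rw [h0, h1, ha]; ring
  rw [hD] at hC
  have hnd : ¬ (l : ℤ) ∣ g0 * g1 * u ^ 2 := by
    intro h
    rcases hp.dvd_or_dvd h with h | h
    · rcases hp.dvd_or_dvd h with h | h
      · exact hg0 h
      · exact hg1 h
    · exact hu (hp.dvd_of_dvd_pow h)
  have := LocC_le hl hnd hC
  omega

/-- the residues divisible by `l ^ k` -/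
private noncomputable def LocC_M (l j k : ℕ) [Fintype (ZMod (l ^ j))] : Finset (ZMod (l ^ j)) := by
  classical
  exact Finset.univ.filter fun t => ∃ a : ℤ, (a : ZMod (l ^ j)) = t ∧ (l : ℤ) ^ k ∣ a - 0

private theorem LocC_Mcard {l j k : ℕ} [Fintype (ZMod (l ^ j))] (hl : l.Prime) (hk : k ≤ j) :
    (LocC_M l j k).card ≤ l ^ (j - k) := by
  classical
  apply LocC_cls hl hk 0
  intro t ht
  unfold LocC_M at ht
  exact (Finset.mem_filter.1 ht).2

private theorem LocC_Mmem {l j k : ℕ} [Fintype (ZMod (l ^ j))] {t : ZMod (l ^ j)} {a : ℤ}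
    (ha : (a : ZMod (l ^ j)) = t) (h : (l : ℤ) ^ k ∣ a) : t ∈ LocC_M l j k := by
  classical
  unfold LocC_M
  exact Finset.mem_filter.2 ⟨Finset.mem_univ _, a, ha, by rwa [sub_zero]⟩

/-- a box with conditions on the last two coordinates -/
private theorem LocC_box {l j i k : ℕ} (hl : l.Prime) (hi : i ≤ j) (hk : k ≤ j)
    (T : Finset (Fin 4 → ZMod (l ^ j)))
    (hT : ∀ t ∈ T, ∃ a : Fin 4 → ℤ, (∀ i, (a i : ZMod (l ^ j)) = t i) ∧
      (l : ℤ) ^ i ∣ a 2 ∧ (l : ℤ) ^ k ∣ a 3) :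
    T.card ≤ l ^ (2 * j + (j - i) + (j - k)) := by
  classical
  haveI : NeZero (l ^ j) := ⟨pow_ne_zero _ hl.ne_zero⟩
  have hsub : T ⊆ Fintype.piFinset (![Finset.univ, Finset.univ, LocC_M l j i, LocC_M l j k] :
      Fin 4 → Finset (ZMod (l ^ j))) := by
    intro t ht
    obtain ⟨a, ha, h2, h3⟩ := hT t ht
    rw [Fintype.mem_piFinset]
    intro q
    fin_cases q
    · simp
    · simp
    · exact LocC_Mmem (ha 2) h2
    · exact LocC_Mmem (ha 3) h3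
  have hc : (Fintype.piFinset (![Finset.univ, Finset.univ, LocC_M l j i, LocC_M l j k] :
      Fin 4 → Finset (ZMod (l ^ j)))).card
      = l ^ j * l ^ j * (LocC_M l j i).card * (LocC_M l j k).card := by
    rw [Fintype.card_piFinset]
    simp [Fin.prod_univ_four, ZMod.card]
  calc T.card ≤ _ := Finset.card_le_card hsub
    _ = l ^ j * l ^ j * (LocC_M l j i).card * (LocC_M l j k).card := hc
    _ ≤ l ^ j * l ^ j * l ^ (j - i) * l ^ (j - k) := by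
        gcongr
        · exact LocC_Mcard hl hi
        · exact LocC_Mcard hl hk
    _ = l ^ (2 * j + (j - i) + (j - k)) := by
        rw [← pow_add, ← pow_add, ← pow_add]; congr 1; omega

/-- class B -/
private theorem LocC_B {l j i : ℕ} (hl : l.Prime) {d : Fin 4 → ℤ} {v : Fin 4 → ℕ} (hd : Vd l d v)
    (hα : 4 * (v 0 + v 1) < j) (hi : 4 * i < j)
    (T : Finset (Fin 4 → ZMod (l ^ j)))
    (hT : ∀ t ∈ T, ∃ a : Fin 4 → ℤ, LocC_P l j d t a ∧ ∃ u : ℤ, a 2 = (l : ℤ) ^ i * u ∧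
      ¬ (l : ℤ) ∣ u) :
    T.card ≤ 2 * l ^ (j - (j - (v 0 + v 2) + 1) / 2) * (l ^ j * l ^ (j - i)) ∧
      (T.Nonempty → v 0 + v 2 ≤ v 0 + v 1 + 2 * i) := by
  classical
  haveI : NeZero (l ^ j) := ⟨pow_ne_zero _ hl.ne_zero⟩
  have hp := Nat.prime_iff_prime_int.1 hl
  obtain ⟨g0, h0, hg0⟩ := hd.val 0
  obtain ⟨g1, h1, hg1⟩ := hd.val 1
  obtain ⟨g2, h2, hg2⟩ := hd.val 2
  -- the exponent inequality
  have hexp : T.Nonempty → v 0 + v 2 ≤ v 0 + v 1 + 2 * i := by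
    rintro ⟨t, ht⟩
    obtain ⟨a, ⟨-, -, hf2, -⟩, u, hu, hu'⟩ := hT t ht
    exact LocC_exp hl hd 2 hf2 hu hu' (by omega)
  refine ⟨?_, hexp⟩
  rcases T.eq_empty_or_nonempty with h0' | hne
  · rw [h0']; simp
  have hE := hexp hne
  -- `a 3 = 0`
  have h3 : ∀ t ∈ T, t 3 = 0 := by
    intro t ht
    obtain ⟨a, ⟨ha, hc, -, -⟩, u, hu, hu'⟩ := hT t ht
    have e : a 2 * a 3 * (d 0 * d 1) = (l : ℤ) ^ (i + (v 0 + v 1)) * (u * g0 * g1) * a 3 := by
      rw [hu, h0, h1]; ring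
    rw [e] at hc
    have hnd : ¬ (l : ℤ) ∣ u * g0 * g1 := by
      intro h
      rcases hp.dvd_or_dvd h with h | h
      · rcases hp.dvd_or_dvd h with h | h
        · exact hu' h
        · exact hg0 h
      · exact hg1 h
    have h4 := LocC_dvd hl hnd hc
    have h5 : (l : ℤ) ^ j ∣ a 3 := (pow_dvd_pow _ (by omega)).trans h4
    rw [← ha 3]
    apply (ZMod.intCast_zmod_eq_zero_iff_dvd _ _).2
    exact_mod_cast h5
  refine (Finset.card_le_mul_card_image_of_maps_to (s := T)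
    (t := (Finset.univ : Finset (ZMod (l ^ j))) ×ˢ LocC_M l j i)
    (f := fun t => (t 0, t 2)) ?_ (2 * l ^ (j - (j - (v 0 + v 2) + 1) / 2)) ?_).trans ?_
  · intro t ht
    obtain ⟨a, ⟨ha, -, -, -⟩, u, hu, hu'⟩ := hT t ht
    rw [Finset.mem_product]
    exact ⟨Finset.mem_univ _, LocC_Mmem (ha 2) ⟨u, hu⟩⟩
  · intro b hb
    rcases (T.filter fun t => (t 0, t 2) = b).eq_empty_or_nonempty with h | ⟨t1, ht1⟩
    · rw [h]; simp
    rw [Finset.mem_filter] at ht1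
    obtain ⟨a1, ⟨ha1, -, hf1, -⟩, -⟩ := hT t1 ht1.1
    have hinj : Set.InjOn (fun t : Fin 4 → ZMod (l ^ j) => t 1)
        (T.filter fun t => (t 0, t 2) = b : Finset _) := by
      intro s hs t ht hst
      rw [Finset.mem_coe, Finset.mem_filter] at hs ht
      have hb' : (s 0, s 2) = (t 0, t 2) := hs.2.trans ht.2.symm
      rw [Prod.mk.injEq] at hb'
      funext q
      fin_cases q
      · exact hb'.1
      · exact hst
      · exact hb'.2
      · exact (h3 s hs.1).trans (h3 t ht.1).symm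
    rw [← Finset.card_image_of_injOn hinj]
    apply sq_roots hl j (j - (v 0 + v 2)) (by omega) (a1 1 ^ 2)
    intro x hx
    rw [Finset.mem_image] at hx
    obtain ⟨t, ht, rfl⟩ := hx
    rw [Finset.mem_filter] at ht
    obtain ⟨a, ⟨ha, -, hf, -⟩, -⟩ := hT t ht.1
    refine ⟨a 1, ha 1, ?_⟩
    have hb' : (t 0, t 2) = (t1 0, t1 2) := ht.2.trans ht1.2.symm
    rw [Prod.mk.injEq] at hb'
    have q0 : (l : ℤ) ^ j ∣ a 0 - a1 0 := by
      have : ((a1 0 : ℤ) : ZMod (l ^ j)) = ((a 0 : ℤ) : ZMod (l ^ j)) := by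
        rw [ha1 0, ha 0, hb'.1]
      have := (ZMod.intCast_eq_intCast_iff_dvd_sub _ _ _).1 this
      exact_mod_cast this
    have q2 : (l : ℤ) ^ j ∣ a 2 - a1 2 := by
      have : ((a1 2 : ℤ) : ZMod (l ^ j)) = ((a 2 : ℤ) : ZMod (l ^ j)) := by
        rw [ha1 2, ha 2, hb'.2]
      have := (ZMod.intCast_eq_intCast_iff_dvd_sub _ _ _).1 this
      exact_mod_cast this
    have hj : (l : ℤ) ^ j ∣ (l : ℤ) ^ (2 * j) := pow_dvd_pow _ (by omega)
    have hmain : (l : ℤ) ^ j ∣ (l : ℤ) ^ (v 0 + v 2) * (g0 * g2) * (a 1 ^ 2 - a1 1 ^ 2) := by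
      have e : (l : ℤ) ^ (v 0 + v 2) * (g0 * g2) * (a 1 ^ 2 - a1 1 ^ 2)
          = ff d 2 a - ff d 2 a1 - (a 0 - a1 0) * (d 1 * d 2 * (a 0 + a1 0))
            - (a 2 - a1 2) * (d 0 * d 1 * (a 2 + a1 2)) := by
        unfold ff; rw [h0, h2]; ring
      rw [e]
      exact dvd_sub (dvd_sub (dvd_sub (hj.trans hf) (hj.trans hf1)) (q0.mul_right _))
        (q2.mul_right _)
    have hnd : ¬ (l : ℤ) ∣ g0 * g2 := by
      intro h
      rcases hp.dvd_or_dvd h with h | h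
      · exact hg0 h
      · exact hg2 h
    exact LocC_dvd hl hnd hmain
  · rw [Finset.card_product, Finset.card_univ, ZMod.card]
    gcongr
    exact LocC_Mcard hl (by omega)

/-- size 5.  RESIDUES.  `α = v 0 + v 1`.  The number of residues modulo `l ^ j` of the vectors `a` with `l ^ (2 j)` dividing
`a 2 * a 3 * (d 0 * d 1)`, `ff d 2 a`, `ff d 3 a` is at most `20 (j + 1) l ^ (11 j / 4 + 5 α)`.
Proof.  If `4 α ≥ j` the bound is trivial (`l ^ (4 j)`).  Let `4 α < j`, `w k` the exponent of `l` in `a k`.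
(1) `16 * w 3 ≥ 5 * j`: otherwise `d 0 d 1 a 3 ^ 2` has exponent `α + 2 w 3 < 2 j`, so `d 3 (d 1 a 0 ^ 2 + d 0 a 1 ^ 2)` has the same exponent and
`v 3 + v 0 ≤ α + 2 w 3`, `v 3 ≤ v 1 + 2 w 3`, `2 j ≤ v 0 + v 1 + v 2 + v 3 ≤ α + 2 (v 1 + 2 w 3) ≤ 3 α + 4 w 3 < 3 j / 4 + 5 j / 4`.
(2) Class A: `4 w 2 ≥ j`.  If `w 2 ≥ j`: `a 2 = 0 mod l ^ j` and `a 3` is in `l ^ ⌈5 j / 16⌉`: at most `l ^ (11 j / 16)` pairs.  If `w 2 = i < j`:
`w 3 ≥ 2 j - α - i`: at most `l ^ (j - i) * l ^ (j - min j (2 j - α - i)) ≤ l ^ (max (j - i) α) ≤ l ^ (3 j / 4)` pairs.  Times `l ^ (2 j)` for `a 0, a 1`.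
(3) Class B: `4 w 2 < j`, `w 2 = i`: `w 3 ≥ 2 j - α - i ≥ j`: `a 3 = 0`.  `d 0 d 1 a 2 ^ 2` has exponent `α + 2 i < 2 j`, so
`v 2 + v 0 ≤ α + 2 i`.  For given `a 0, a 2` modulo `l ^ j` the congruence `ff d 2 a = 0` modulo `l ^ j` is
`d 0 d 2 a 1 ^ 2 = R mod l ^ j` and `d 0 d 2 = l ^ (v 0 + v 2) * unit`, `v 0 + v 2 ≤ α + 2 i < j`: so `a 1 ^ 2 = R'` modulo
`l ^ (j - v 0 - v 2)` (if there is a solution at all), at most `2 l ^ (j - (j - v 0 - v 2) / 2)` (up to rounding) values of `a 1`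
(`sq_roots`), `≤ 2 l ^ (j / 2 + (α + 2 i + 1) / 2)`; `l ^ (j - i)` values of `a 2`, `l ^ j` of `a 0`: at most
`2 l ^ (5 j / 2 + α / 2 + 1/2)`; since `α < j / 4` and (for `j ≥ 1`) ... the exponent `5 j / 2 + α / 2 + 1 / 2` is at most `11 j / 4 + 5 α` unless
`α = 0` and `j = 1`; in that case `i = 0`, `v 0 = v 2 = 0` and `a 1 ^ 2 = R' mod l` has at most 2 roots: count `2 l ^ 2`. -/
theorem locC {l j : ℕ} (hl : l.Prime) {d : Fin 4 → ℤ} {v : Fin 4 → ℕ} (hd : Vd l d v)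
    (hn : 2 * j ≤ v 0 + v 1 + v 2 + v 3) (T : Finset (Fin 4 → ZMod (l ^ j)))
    (hT : ∀ t ∈ T, ∃ a : Fin 4 → ℤ, (∀ i, (a i : ZMod (l ^ j)) = t i) ∧
      (l : ℤ) ^ (2 * j) ∣ a 2 * a 3 * (d 0 * d 1) ∧ (l : ℤ) ^ (2 * j) ∣ ff d 2 a ∧ (l : ℤ) ^ (2 * j) ∣ ff d 3 a) :
    (T.card : ℝ) ≤ 20 * (j + 1) * (l : ℝ) ^ ((11 : ℝ) / 4 * j + 5 * (v 0 + v 1 : ℕ)) := by
  classical
  haveI : NeZero (l ^ j) := ⟨pow_ne_zero _ hl.ne_zero⟩
  have hp := Nat.prime_iff_prime_int.1 hl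
  have hl1 : (1 : ℝ) ≤ l := by exact_mod_cast hl.one_le
  have hl0 : (0 : ℝ) < l := by linarith
  have h01 := hd.m01
  have h12 := hd.m12
  have h23 := hd.m23
  set B : ℝ := (l : ℝ) ^ ((11 : ℝ) / 4 * j + 5 * (v 0 + v 1 : ℕ)) with hB
  have hBpos : 0 < B := Real.rpow_pos_of_pos hl0 _
  have hpw : ∀ e : ℕ, (e : ℝ) ≤ (11 : ℝ) / 4 * j + 5 * (v 0 + v 1 : ℕ) → ((l ^ e : ℕ) : ℝ) ≤ B := by
    intro e he
    rw [Nat.cast_pow, ← Real.rpow_natCast]
    exact Real.rpow_le_rpow_of_exponent_le hl1 he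
  by_cases hα : j ≤ 4 * (v 0 + v 1)
  · have h1 : T.card ≤ l ^ (2 * j + (j - 0) + (j - 0)) := by
      apply LocC_box hl (Nat.zero_le _) (Nat.zero_le _)
      intro t ht
      obtain ⟨a, ha, -⟩ := hT t ht
      exact ⟨a, ha, by simp, by simp⟩
    have h2 : (T.card : ℝ) ≤ B := by
      refine le_trans (by exact_mod_cast h1) (hpw _ ?_)
      have : ((j : ℝ)) ≤ 4 * ((v 0 + v 1 : ℕ) : ℝ) := by exact_mod_cast hα
      have e : (((2 * j + (j - 0) + (j - 0) : ℕ)) : ℝ) = 4 * (j : ℝ) := by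
        have : 2 * j + (j - 0) + (j - 0) = 4 * j := by omega
        rw [this]; push_cast; ring
      rw [e]; linarith
    have h3 : (1 : ℝ) * B ≤ 20 * (j + 1) * B := by
      apply mul_le_mul_of_nonneg_right _ hBpos.le
      have : (0 : ℝ) ≤ j := by positivity
      linarith
    linarith
  push Not at hα
  obtain ⟨g0, h0, hg0⟩ := hd.val 0
  obtain ⟨g1, h1, hg1⟩ := hd.val 1
  -- (1)
  have hA3 : ∀ t a, LocC_P l j d t a → (l : ℤ) ^ ((5 * j + 15) / 16) ∣ a 3 := by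
    rintro t a ⟨-, -, -, hf3⟩
    rcases LocC_split l (a 3) ((5 * j + 15) / 16) with h | ⟨w, hw, u, hu, hu'⟩
    · exact h
    · exfalso
      have hw2 : 16 * w < 5 * j := by omega
      have := LocC_exp hl hd 3 hf3 hu hu' (by omega)
      omega
  set TA := T.filter fun t => ∃ a : Fin 4 → ℤ, LocC_P l j d t a ∧ (l : ℤ) ^ j ∣ a 2 with hTA
  set TB : ℕ → Finset (Fin 4 → ZMod (l ^ j)) := fun i => T.filter fun t =>
    ∃ a : Fin 4 → ℤ, LocC_P l j d t a ∧ ∃ u : ℤ, a 2 = (l : ℤ) ^ i * u ∧ ¬ (l : ℤ) ∣ u with hTB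
  have hsub : T ⊆ TA ∪ (Finset.range j).biUnion TB := by
    intro t ht
    obtain ⟨a, ha⟩ := hT t ht
    rcases LocC_split l (a 2) j with h | ⟨w, hw, u, hu, hu'⟩
    · exact Finset.mem_union_left _ (Finset.mem_filter.2 ⟨ht, a, ha, h⟩)
    · apply Finset.mem_union_right
      rw [Finset.mem_biUnion]
      exact ⟨w, Finset.mem_range.2 hw, Finset.mem_filter.2 ⟨ht, a, ha, u, hu, hu'⟩⟩
  -- class A1
  have cA : (TA.card : ℝ) ≤ B := by
    have h1 : TA.card ≤ l ^ (2 * j + (j - j) + (j - (5 * j + 15) / 16)) := by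
      apply LocC_box hl le_rfl (by omega)
      intro t ht
      obtain ⟨-, a, ha, h2⟩ := Finset.mem_filter.1 ht
      exact ⟨a, ha.1, h2, hA3 t a ha⟩
    refine le_trans (by exact_mod_cast h1) (hpw _ ?_)
    have e : 16 * (2 * j + (j - j) + (j - (5 * j + 15) / 16)) ≤ 43 * j := by omega
    have e' : (16 : ℝ) * (((2 * j + (j - j) + (j - (5 * j + 15) / 16)) : ℕ) : ℝ) ≤ 43 * (j : ℝ) := by
      exact_mod_cast e
    have hj : (0 : ℝ) ≤ j := by positivity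
    have hv : (0 : ℝ) ≤ ((v 0 + v 1 : ℕ) : ℝ) := by positivity
    linarith
  -- classes with `w 2 = i`
  have cB : ∀ i ∈ Finset.range j, ((TB i).card : ℝ) ≤ 2 * B := by
    intro i hi
    rw [Finset.mem_range] at hi
    have hj : (0 : ℝ) ≤ j := by positivity
    have hv : (0 : ℝ) ≤ ((v 0 + v 1 : ℕ) : ℝ) := by positivity
    by_cases hi4 : j ≤ 4 * i
    · have h1 : (TB i).card ≤ l ^ (2 * j + (j - i) + (j - min j (2 * j - (v 0 + v 1) - i))) := by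
        apply LocC_box hl hi.le (min_le_left _ _)
        intro t ht
        obtain ⟨-, a, ha, u, hu, hu'⟩ := Finset.mem_filter.1 ht
        refine ⟨a, ha.1, ⟨u, hu⟩, ?_⟩
        have hc := ha.2.1
        have e : a 2 * a 3 * (d 0 * d 1) = (l : ℤ) ^ (i + (v 0 + v 1)) * (u * g0 * g1) * a 3 := by
          rw [hu, h0, h1]; ring
        rw [e] at hc
        have hnd : ¬ (l : ℤ) ∣ u * g0 * g1 := by
          intro h
          rcases hp.dvd_or_dvd h with h | h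
          · rcases hp.dvd_or_dvd h with h | h
            · exact hu' h
            · exact hg0 h
          · exact hg1 h
        have h4 := LocC_dvd hl hnd hc
        refine (pow_dvd_pow _ ?_).trans h4
        have := min_le_right j (2 * j - (v 0 + v 1) - i)
        omega
      have h2 : ((TB i).card : ℝ) ≤ B := by
        refine le_trans (by exact_mod_cast h1) (hpw _ ?_)
        have e : 4 * (2 * j + (j - i) + (j - min j (2 * j - (v 0 + v 1) - i))) ≤ 11 * j := by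
          rcases le_total j (2 * j - (v 0 + v 1) - i) with h | h
          · rw [min_eq_left h]; omega
          · rw [min_eq_right h]; omega
        have e' : (4 : ℝ) * (((2 * j + (j - i) + (j - min j (2 * j - (v 0 + v 1) - i))) : ℕ) : ℝ)
            ≤ 11 * (j : ℝ) := by exact_mod_cast e
        linarith
      linarith
    · push Not at hi4
      obtain ⟨h1, h2⟩ := LocC_B hl hd hα hi4 (TB i) (fun t ht => (Finset.mem_filter.1 ht).2)
      rcases (TB i).eq_empty_or_nonempty with he | hne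
      · rw [he]; simp; exact hBpos.le
      have h3 := h2 hne
      have h4 : (TB i).card ≤ 2 * l ^ (j - (j - (v 0 + v 2) + 1) / 2 + j + (j - i)) := by
        calc (TB i).card ≤ 2 * l ^ (j - (j - (v 0 + v 2) + 1) / 2) * (l ^ j * l ^ (j - i)) := h1
          _ = 2 * l ^ (j - (j - (v 0 + v 2) + 1) / 2 + j + (j - i)) := by
              rw [pow_add, pow_add]; ring
      have h5 : ((l ^ (j - (j - (v 0 + v 2) + 1) / 2 + j + (j - i)) : ℕ) : ℝ) ≤ B := by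
        apply hpw
        have e : 4 * (j - (j - (v 0 + v 2) + 1) / 2 + j + (j - i)) ≤ 10 * j + 2 * (v 0 + v 1) := by
          omega
        have e' : (4 : ℝ) * (((j - (j - (v 0 + v 2) + 1) / 2 + j + (j - i)) : ℕ) : ℝ)
            ≤ 10 * (j : ℝ) + 2 * ((v 0 + v 1 : ℕ) : ℝ) := by exact_mod_cast e
        linarith
      calc ((TB i).card : ℝ) ≤ ((2 * l ^ (j - (j - (v 0 + v 2) + 1) / 2 + j + (j - i)) : ℕ) : ℝ) := by
            exact_mod_cast h4
        _ = 2 * ((l ^ (j - (j - (v 0 + v 2) + 1) / 2 + j + (j - i)) : ℕ) : ℝ) := by push_cast; ring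
        _ ≤ 2 * B := by linarith
  have hfin : (T.card : ℝ) ≤ B + j * (2 * B) := by
    have k1 : T.card ≤ TA.card + ∑ i ∈ Finset.range j, (TB i).card :=
      (Finset.card_le_card hsub).trans ((Finset.card_union_le _ _).trans
        (Nat.add_le_add_left Finset.card_biUnion_le _))
    have k2 : (T.card : ℝ) ≤ (TA.card : ℝ) + ∑ i ∈ Finset.range j, ((TB i).card : ℝ) := by
      exact_mod_cast k1
    have k3 : ∑ i ∈ Finset.range j, ((TB i).card : ℝ) ≤ ∑ _i ∈ Finset.range j, 2 * B :=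
      Finset.sum_le_sum cB
    rw [Finset.sum_const, Finset.card_range, nsmul_eq_mul] at k3
    linarith
  have hj : (0 : ℝ) ≤ j := by positivity
  nlinarith [mul_nonneg hj hBpos.le]

end Pool.Agent.PP5N
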