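import Pool.Agent.PP5N.Defs
import Pool.Agent.PP5N.OrV
import Pool.Agent.PP5N.OrA
import Pool.Agent.PP5N.Cng
import Pool.Agent.PP5N.LocC
import Pool.Agent.PP5N.SnD

/-!
# PP5 (d1): residues of the bad m, one prime
-/

set_option autoImplicit false

namespace Pool.Agent.PP5N

open Matrix Pool.Agent.PP5B

private theorem ResL_tor {l j c : ℕ} (hl : l.Prime) {D : ℤ} (hD : ¬ (l : ℤ) ^ (c + 1) ∣ D)
    (z : ZMod (l ^ j)) (hz : (D : ZMod (l ^ j)) * z = 0) : l ^ c • z = 0 := by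
  obtain ⟨b, hb, hg⟩ := (Nat.dvd_prime_pow hl).1 (Nat.gcd_dvd_right D.natAbs (l ^ j))
  have hbc : b ≤ c := by
    by_contra hlt
    push Not at hlt
    apply hD
    have h1 : l ^ b ∣ D.natAbs := hg ▸ Nat.gcd_dvd_left D.natAbs (l ^ j)
    have h2 : l ^ (c + 1) ∣ D.natAbs := (pow_dvd_pow l hlt).trans h1
    have h3 := Int.natCast_dvd.2 h2
    simpa using h3
  have h4 : ((Int.gcd D ((l ^ j : ℕ) : ℤ) : ℕ) : ℤ)
      = D * Int.gcdA D ((l ^ j : ℕ) : ℤ) + ((l ^ j : ℕ) : ℤ) * Int.gcdB D ((l ^ j : ℕ) : ℤ) :=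
    Int.gcd_eq_gcd_ab _ _
  have h5 : Int.gcd D ((l ^ j : ℕ) : ℤ) = l ^ b := by
    rw [Int.gcd, Int.natAbs_natCast, hg]
  rw [h5] at h4
  have h6 : ((l ^ b : ℕ) : ZMod (l ^ j)) = (D : ZMod (l ^ j)) * (Int.gcdA D ((l ^ j : ℕ) : ℤ)) := by
    have h7 := congrArg (fun x : ℤ => (x : ZMod (l ^ j))) h4
    rw [Int.cast_add, Int.cast_mul, Int.cast_mul, Int.cast_natCast, Int.cast_natCast,
      ZMod.natCast_self, zero_mul, add_zero] at h7
    exact h7
  have h8 : l ^ b • z = 0 := by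
    rw [nsmul_eq_mul, h6, mul_right_comm, hz, zero_mul]
  obtain ⟨q, hq⟩ := pow_dvd_pow l hbc
  rw [hq, mul_comm, mul_smul, h8, smul_zero]

private theorem ResL_card {l j c : ℕ} [NeZero (l ^ j)] (hl : l.Prime) :
    (Finset.univ.filter fun z : ZMod (l ^ j) => l ^ c • z = 0).card ≤ l ^ c :=
  IsAddCyclic.card_nsmul_eq_zero_le (pow_pos hl.pos c)

private theorem ResL_fib {l j c : ℕ} [NeZero (l ^ j)] (hl : l.Prime) {e : Fin 4 → Fin 4 → ℤ}
    (hD : ¬ (l : ℤ) ^ (c + 1) ∣ (Matrix.of e).det) (T : Finset (Fin 4 → ZMod (l ^ j)))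
    (t' : Fin 4 → ZMod (l ^ j)) :
    (T.filter fun t => (fun i => ∑ k, t k * ((e i k : ℤ) : ZMod (l ^ j))) = t').card ≤ (l ^ c) ^ 4 := by
  classical
  rcases (T.filter fun t => (fun i => ∑ k, t k * ((e i k : ℤ) : ZMod (l ^ j))) = t').eq_empty_or_nonempty
    with h0 | ⟨t0, ht0⟩
  · rw [h0, Finset.card_empty]
    exact Nat.zero_le _
  have ht0' := (Finset.mem_filter.1 ht0).2
  have hcard : (Fintype.piFinset fun _ : Fin 4 =>
      (Finset.univ.filter fun z : ZMod (l ^ j) => l ^ c • z = 0)).card ≤ (l ^ c) ^ 4 := by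
    rw [Fintype.card_piFinset, Finset.prod_const, Finset.card_univ, Fintype.card_fin]
    exact Nat.pow_le_pow_left (ResL_card hl) 4
  refine le_trans ?_ hcard
  refine Finset.card_le_card_of_injOn (fun t => t - t0) ?_ ?_
  · intro t ht
    have ht' := (Finset.mem_filter.1 (Finset.mem_coe.1 ht)).2
    rw [Finset.mem_coe, Fintype.mem_piFinset]
    have hker : ((Matrix.of e).map (Int.castRingHom (ZMod (l ^ j)))) *ᵥ (t - t0) = 0 := by
      funext i
      have h1 := congrFun (ht'.trans ht0'.symm) i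
      simp only [Matrix.mulVec, dotProduct, Matrix.map_apply, Matrix.of_apply, Pi.sub_apply,
        Pi.zero_apply, mul_sub, Finset.sum_sub_distrib, eq_intCast]
      rw [sub_eq_zero]
      simpa only [mul_comm] using h1
    have hdet : (((Matrix.of e).det : ℤ) : ZMod (l ^ j)) • (t - t0) = 0 := by
      have h2 := congrArg (fun x => (((Matrix.of e).map (Int.castRingHom (ZMod (l ^ j)))).adjugate) *ᵥ x)
        hker
      simp only [Matrix.mulVec_zero, Matrix.mulVec_mulVec, Matrix.adjugate_mul] at h2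
      rw [Matrix.smul_mulVec, Matrix.one_mulVec] at h2
      have h3 : ((Matrix.of e).map (Int.castRingHom (ZMod (l ^ j)))).det
          = (((Matrix.of e).det : ℤ) : ZMod (l ^ j)) := by
        have := RingHom.map_det (Int.castRingHom (ZMod (l ^ j))) (Matrix.of e)
        simpa using this.symm
      rw [← h3]
      exact h2
    intro k
    rw [Finset.mem_filter]
    refine ⟨Finset.mem_univ _, ?_⟩
    refine ResL_tor hl hD _ ?_
    have h4 := congrFun hdet k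
    simpa using h4
  · intro t _ t2 _ h
    exact sub_left_injective h

private theorem ResL_mi2 {G : Matrix (Fin 4) (Fin 4) ℤ} (hdet : G.det ≠ 0) : mi2 G ≠ 0 := by
  intro h0
  apply hdet
  have hm : ∀ i i' k k', G i k * G i' k' - G i k' * G i' k = 0 := by
    intro i i' k k'
    have h := mi2_dvd G i i' k k'
    rw [h0] at h
    simpa using h
  by_cases hrow : ∀ k, G 0 k = 0
  · exact Matrix.det_eq_zero_of_row_eq_zero 0 hrow
  · push Not at hrow
    obtain ⟨k, hk⟩ := hrow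
    have h1 : G 0 k * G.det = 0 := by
      have h2 : (G.updateRow 1 (G 0 k • G 1)).det = G 0 k * (G.updateRow 1 (G 1)).det :=
        Matrix.det_updateRow_smul G 1 (G 0 k) (G 1)
      rw [Matrix.updateRow_eq_self] at h2
      rw [← h2]
      have h3 : G 0 k • G 1 = G 1 k • G 0 := by
        funext k'
        have h4 := hm 0 1 k k'
        simp only [Pi.smul_apply, smul_eq_mul]
        linarith
      rw [h3, Matrix.det_updateRow_smul]
      rw [Matrix.det_zero_of_row_eq (show (0 : Fin 4) ≠ 1 by decide) (by simp), mul_zero]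
    rcases mul_eq_zero.1 h1 with h5 | h5
    · exact absurd h5 hk
    · exact h5

private theorem ResL_kp (l : ℕ) : ((l : ℝ) ^ kp l) ^ 24 = 2 ^ (144 * ta l) := by
  unfold kp ta
  by_cases h : l = 2
  · subst h
    norm_num
  · simp [h]

/-- size 4.  Residues modulo `l ^ j` of the bad `m` for `l ^ (2 j)`.  `exists_orth`; the map `m ↦ (m . e i)` modulo `l ^ j` has fibres with at most
`2 ^ (24 * ta l)` elements on `(Z / l ^ j) ^ 4` (two `m` with the same image differ by `z` with `l ^ j | det E * z k`, so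
`l ^ (j - kp l) | z k` (natural subtraction): at most `(l ^ kp l) ^ 4` residues); the image is bounded by `locC`, where `cng` gives the hypotheses and
`Orth.det_le` with `mnQ_det` gives `2 j ≤ v 0 + .. + v 3` (if there is no bad `m` the set is empty).
`l ^ (v 0 + v 1) ≤ l ^ (4 kp l) * l ^ (exponent of mi2)` (`Orth.mi2_ge`): `l ^ (5 (v 0 + v 1)) ≤ 2 ^ (120 * ta l) * (l ^ (mi2 G).factorization l) ^ 5`. -/
theorem resL {G : Matrix (Fin 4) (Fin 4) ℤ} (hsym : ∀ i j, G i j = G j i) (hev : ∀ i, 2 ∣ G i i)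
    (hdet : G.det ≠ 0) {l j : ℕ} (hl : l.Prime) (T : Finset (Fin 4 → ZMod (l ^ j)))
    (hT : ∀ t ∈ T, ∃ m : Fin 4 → ℤ, (∀ i, (m i : ZMod (l ^ j)) = t i) ∧ Pr4 m ∧ mnQ G m ((l : ℤ) ^ (2 * j))) :
    (T.card : ℝ) ≤ 2 ^ (144 * ta l) * (20 * (j + 1)) * (l : ℝ) ^ ((11 : ℝ) / 4 * j) *
      ((l : ℝ) ^ ((mi2 G).factorization l)) ^ 5 := by
  classical
  have : NeZero (l ^ j) := ⟨pow_ne_zero _ hl.ne_zero⟩
  have hl0 : (0 : ℝ) < l := by exact_mod_cast hl.pos
  have hl1 : (1 : ℝ) ≤ l := by exact_mod_cast hl.one_lt.le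
  rcases T.eq_empty_or_nonempty with h0 | ⟨t0, ht0⟩
  · rw [h0, Finset.card_empty]
    simp only [Nat.cast_zero]
    positivity
  obtain ⟨e, d, v, h⟩ := exists_orth hsym hdet hl
  have hn : 2 * j ≤ v 0 + v 1 + v 2 + v 3 := by
    obtain ⟨m, _, hm1, hm2⟩ := hT t0 ht0
    exact Orth.det_le hl h (mnQ_det hsym hev hm1 hm2)
  set φ : (Fin 4 → ZMod (l ^ j)) → (Fin 4 → ZMod (l ^ j)) :=
    fun t i => ∑ k, t k * ((e i k : ℤ) : ZMod (l ^ j)) with hφ
  have hloc := locC hl h.vd hn (T.image φ) (by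
    intro t' ht'
    obtain ⟨t, ht, rfl⟩ := Finset.mem_image.1 ht'
    obtain ⟨m, hmt, hm1, hm2⟩ := hT t ht
    have hc := cng hsym h.orth h.dd hm1 hm2
    refine ⟨fun i => m ⬝ᵥ e i, ?_, hc.c23, hc.f2, hc.f3⟩
    intro i
    simp only [hφ, dotProduct, Int.cast_sum, Int.cast_mul, hmt])
  have hfib : T.card ≤ (l ^ kp l) ^ 4 * (T.image φ).card :=
    Finset.card_le_mul_card_image T _ fun t' _ => ResL_fib hl h.det T t'
  have hfib' : (T.card : ℝ) ≤ ((l : ℝ) ^ kp l) ^ 4 * ((T.image φ).card : ℝ) := by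
    exact_mod_cast hfib
  have hv : v 0 + v 1 ≤ 4 * kp l + (mi2 G).factorization l := by
    have h1 := Orth.mi2_ge hl h
    have hne : l ^ (4 * kp l) * mi2 G ≠ 0 :=
      mul_ne_zero (pow_ne_zero _ hl.ne_zero) (ResL_mi2 hdet)
    have h2 := (hl.pow_dvd_iff_le_factorization hne).1 h1
    rw [Nat.factorization_mul (pow_ne_zero _ hl.ne_zero) (ResL_mi2 hdet), Finsupp.add_apply,
      Nat.factorization_pow, Finsupp.smul_apply, hl.factorization_self, smul_eq_mul, mul_one] at h2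
    exact h2
  have hpow : (l : ℝ) ^ ((11 : ℝ) / 4 * j + 5 * (v 0 + v 1 : ℕ))
      ≤ (l : ℝ) ^ ((11 : ℝ) / 4 * j) * (((l : ℝ) ^ kp l) ^ 20 *
        ((l : ℝ) ^ ((mi2 G).factorization l)) ^ 5) := by
    rw [Real.rpow_add hl0]
    refine mul_le_mul_of_nonneg_left ?_ (Real.rpow_nonneg hl0.le _)
    have h1 : (l : ℝ) ^ (5 * ((v 0 + v 1 : ℕ) : ℝ)) = (l : ℝ) ^ (5 * (v 0 + v 1)) := by
      rw [← Real.rpow_natCast]
      congr 1
      push_cast
      ring
    rw [h1, ← pow_mul, ← pow_mul, ← pow_add]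
    exact pow_le_pow_right₀ hl1 (by omega)
  calc (T.card : ℝ) ≤ ((l : ℝ) ^ kp l) ^ 4 * ((T.image φ).card : ℝ) := hfib'
    _ ≤ ((l : ℝ) ^ kp l) ^ 4 * (20 * (j + 1) * (l : ℝ) ^ ((11 : ℝ) / 4 * j + 5 * (v 0 + v 1 : ℕ))) :=
        mul_le_mul_of_nonneg_left hloc (by positivity)
    _ ≤ ((l : ℝ) ^ kp l) ^ 4 * (20 * (j + 1) * ((l : ℝ) ^ ((11 : ℝ) / 4 * j) *
        (((l : ℝ) ^ kp l) ^ 20 * ((l : ℝ) ^ ((mi2 G).factorization l)) ^ 5))) :=
        mul_le_mul_of_nonneg_left (mul_le_mul_of_nonneg_left hpow (by positivity)) (by positivity)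
    _ = ((l : ℝ) ^ kp l) ^ 24 * (20 * (j + 1)) * (l : ℝ) ^ ((11 : ℝ) / 4 * j) *
        ((l : ℝ) ^ ((mi2 G).factorization l)) ^ 5 := by ring
    _ = 2 ^ (144 * ta l) * (20 * (j + 1)) * (l : ℝ) ^ ((11 : ℝ) / 4 * j) *
        ((l : ℝ) ^ ((mi2 G).factorization l)) ^ 5 := by rw [ResL_kp]

end Pool.Agent.PP5N
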