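import Pool.Agent.PP5N.Defs
import Pool.Agent.PP5N.ResL

/-!
# PP5 (d1): residues of the bad m, all primes
-/

set_option autoImplicit false

namespace Pool.Agent.PP5N

open Matrix Pool.Agent.PP5B

private theorem resG_mono {G : Matrix (Fin 4) (Fin 4) ℤ} {m : Fin 4 → ℤ} {n n' : ℤ} (h : n' ∣ n)
    (hm : mnQ G m n) : mnQ G m n' := by
  intro a b c d h1 h2 h3 h4
  exact h.trans (hm a b c d h1 h2 h3 h4)

private theorem resG_mi2_pos {G : Matrix (Fin 4) (Fin 4) ℤ} (hdet : G.det ≠ 0) : 0 < mi2 G := by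
  rw [Nat.pos_iff_ne_zero]
  intro h0
  apply hdet
  have h : ∀ i i' k k', G i k * G i' k' - G i k' * G i' k = 0 := by
    intro i i' k k'
    have := mi2_dvd G i i' k k'
    rw [h0] at this
    simpa using this
  have e1 := h 1 2 0 1
  have e2 := h 1 2 0 2
  have e3 := h 1 2 0 3
  have e4 := h 1 2 1 2
  have e5 := h 1 2 1 3
  have e6 := h 1 2 2 3
  rw [Matrix.det_succ_row_zero]
  simp only [Fin.sum_univ_succ, Matrix.det_fin_three, Matrix.submatrix_apply]
  simp [Fin.succAbove, Fin.ext_iff]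
  linear_combination (G 0 2 * G 3 3 - G 0 3 * G 3 2) * e1 - (G 0 1 * G 3 3 - G 0 3 * G 3 1) * e2 +
    (G 0 1 * G 3 2 - G 0 2 * G 3 1) * e3 + (G 0 0 * G 3 3 - G 0 3 * G 3 0) * e4 -
    (G 0 0 * G 3 2 - G 0 2 * G 3 0) * e5 + (G 0 0 * G 3 1 - G 0 1 * G 3 0) * e6

private theorem resG_prod_dvd {N : ℕ} (hN : N ≠ 0) (S : Finset ℕ) :
    ∏ l ∈ S, l ^ N.factorization l ∣ N := by
  classical
  have h1 : ∏ l ∈ S, l ^ N.factorization l = ∏ l ∈ S ∩ N.primeFactors, l ^ N.factorization l := by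
    symm
    apply Finset.prod_subset Finset.inter_subset_left
    intro x hx hx'
    have : x ∉ N.primeFactors := fun h => hx' (Finset.mem_inter.2 ⟨hx, h⟩)
    rw [← Nat.support_factorization, Finsupp.notMem_support_iff] at this
    rw [this, pow_zero]
  rw [h1]
  conv_rhs => rw [← Nat.prod_factorization_pow_eq_self hN]
  rw [Finsupp.prod, Nat.support_factorization]
  exact Finset.prod_dvd_prod_of_subset _ _ _ Finset.inter_subset_right

private theorem resG_dvd_of {s : ℕ} (hs : 0 < s) (z : ℤ)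
    (h : ∀ l ∈ s.primeFactors, ((l ^ s.factorization l : ℕ) : ℤ) ∣ z) : (s : ℤ) ∣ z := by
  rw [Int.natCast_dvd]
  by_cases hz : z.natAbs = 0
  · rw [hz]; exact dvd_zero _
  rw [← (Nat.factorization_le_iff_dvd hs.ne' hz)]
  intro l
  by_cases hl : l ∈ s.primeFactors
  · have := h l hl
    rw [Int.natCast_dvd] at this
    exact ((Nat.prime_of_mem_primeFactors hl).pow_dvd_iff_le_factorization hz).1 this
  · rw [← Nat.support_factorization, Finsupp.notMem_support_iff] at hl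
    rw [hl]
    exact Nat.zero_le _

/-- size 4.  Chinese remainder: the map from the residues modulo `s` to the product over `l | s` of the residues modulo `l ^ j`,
`j = s.factorization l`, is injective, so `card T ≤ ∏ (bounds of resL)`;
`∏ 20 (j + 1) ≤ (number of divisors) ^ 6` (`20 (j+1) ≤ (j+1)^6` for `j ≥ 1`, as `20 ≤ 2^5`), `∏ l ^ (11 j / 4) = s ^ (11/4)`,
`∏ (l ^ exponent of mi2) ^ 5 ≤ mi2 ^ 5`. -/
theorem resG {G : Matrix (Fin 4) (Fin 4) ℤ} (hsym : ∀ i j, G i j = G j i) (hev : ∀ i, 2 ∣ G i i)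
    (hdet : G.det ≠ 0) {s : ℕ} (hs : 0 < s) (T : Finset (Fin 4 → ZMod s))
    (hT : ∀ t ∈ T, ∃ m : Fin 4 → ℤ, (∀ i, (m i : ZMod s) = t i) ∧ Pr4 m ∧ mnQ G m ((s : ℤ) ^ 2)) :
    (T.card : ℝ) ≤ 2 ^ 144 * (s.divisors.card : ℝ) ^ 6 * (s : ℝ) ^ ((11 : ℝ) / 4) * (mi2 G : ℝ) ^ 5 := by
  classical
  have hs0 : s ≠ 0 := hs.ne'
  let rd : ∀ l : ℕ, (Fin 4 → ZMod s) → (Fin 4 → ZMod (l ^ s.factorization l)) :=
    fun l t i => ((t i).cast : ZMod (l ^ s.factorization l))
  have hdv : ∀ l : ℕ, l ^ s.factorization l ∣ s := fun l => Nat.ordProj_dvd s l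
  let TT : ∀ l : ℕ, Finset (Fin 4 → ZMod (l ^ s.factorization l)) := fun l => T.image (rd l)
  have hcast : ∀ (l : ℕ) (m : Fin 4 → ℤ) (t : Fin 4 → ZMod s), (∀ i, (m i : ZMod s) = t i) →
      ∀ i, (m i : ZMod (l ^ s.factorization l)) = rd l t i := by
    intro l m t h i
    show _ = ((t i).cast : ZMod (l ^ s.factorization l))
    rw [← h i, ZMod.cast_intCast (hdv l)]
  have hcard : T.card ≤ (s.primeFactors.pi TT).card := by
    apply Finset.card_le_card_of_injOn (fun t l _ => rd l t)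
    · intro t ht
      rw [Finset.mem_coe, Finset.mem_pi]
      intro l _
      exact Finset.mem_image_of_mem _ ht
    · intro t ht t' ht' htt
      obtain ⟨m, hm, -⟩ := hT t ht
      obtain ⟨m', hm', -⟩ := hT t' ht'
      funext i
      rw [← hm i, ← hm' i, ZMod.intCast_eq_intCast_iff_dvd_sub]
      apply resG_dvd_of hs
      intro l hl
      have h1 : rd l t = rd l t' := congrFun (congrFun htt l) hl
      have h2 : (m i : ZMod (l ^ s.factorization l)) = (m' i : ZMod (l ^ s.factorization l)) := by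
        rw [hcast l m t hm i, hcast l m' t' hm' i, h1]
      exact (ZMod.intCast_eq_intCast_iff_dvd_sub _ _ _).1 h2
  rw [Finset.card_pi] at hcard
  have hloc : ∀ l ∈ s.primeFactors, ((TT l).card : ℝ) ≤
      2 ^ (144 * ta l) * (20 * ((s.factorization l : ℕ) + 1)) * (l : ℝ) ^ ((11 : ℝ) / 4 * (s.factorization l : ℕ)) *
      ((l : ℝ) ^ ((mi2 G).factorization l)) ^ 5 := by
    intro l hl
    apply resL hsym hev hdet (Nat.prime_of_mem_primeFactors hl)
    intro t' ht'
    obtain ⟨t, ht, rfl⟩ := Finset.mem_image.1 ht'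
    obtain ⟨m, hm, hp, hq⟩ := hT t ht
    refine ⟨m, hcast l m t hm, hp, resG_mono ?_ hq⟩
    rw [mul_comm 2, pow_mul]
    exact pow_dvd_pow_of_dvd (by exact_mod_cast hdv l) 2
  have h1 : (T.card : ℝ) ≤ ∏ l ∈ s.primeFactors, ((TT l).card : ℝ) := by
    exact_mod_cast hcard
  refine h1.trans ?_
  refine (Finset.prod_le_prod (fun l _ => Nat.cast_nonneg _) hloc).trans ?_
  rw [Finset.prod_mul_distrib, Finset.prod_mul_distrib, Finset.prod_mul_distrib]
  have hmi := resG_mi2_pos hdet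
  have b1 : ∏ l ∈ s.primeFactors, (2 : ℝ) ^ (144 * ta l) ≤ 2 ^ 144 := by
    rw [Finset.prod_pow_eq_pow_sum]
    apply pow_le_pow_right₀ (by norm_num)
    rw [← Finset.mul_sum]
    have : ∑ l ∈ s.primeFactors, ta l ≤ 1 := by
      unfold ta
      rw [Finset.sum_ite_eq']
      split_ifs <;> omega
    omega
  have b2 : ∏ l ∈ s.primeFactors, (20 * (((s.factorization l : ℕ) : ℝ) + 1)) ≤ (s.divisors.card : ℝ) ^ 6 := by
    rw [Nat.card_divisors hs0]
    push_cast
    rw [← Finset.prod_pow]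
    apply Finset.prod_le_prod
    · intro l _; positivity
    · intro l hl
      have hj : 1 ≤ s.factorization l := by
        rw [Nat.one_le_iff_ne_zero, ← Finsupp.mem_support_iff, Nat.support_factorization]
        exact hl
      have hj' : (1 : ℝ) ≤ (s.factorization l : ℕ) := by exact_mod_cast hj
      have h2 : (2 : ℝ) ≤ (s.factorization l : ℕ) + 1 := by linarith
      have h5 : (2 : ℝ) ^ 5 ≤ (((s.factorization l : ℕ) : ℝ) + 1) ^ 5 := pow_le_pow_left₀ (by norm_num) h2 5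
      have : (20 : ℝ) ≤ (((s.factorization l : ℕ) : ℝ) + 1) ^ 5 := by
        refine le_trans ?_ h5; norm_num
      calc (20 : ℝ) * (((s.factorization l : ℕ) : ℝ) + 1)
          ≤ (((s.factorization l : ℕ) : ℝ) + 1) ^ 5 * (((s.factorization l : ℕ) : ℝ) + 1) :=
            mul_le_mul_of_nonneg_right this (by linarith)
        _ = (((s.factorization l : ℕ) : ℝ) + 1) ^ 6 := by ring
  have b3 : ∏ l ∈ s.primeFactors, (l : ℝ) ^ ((11 : ℝ) / 4 * (s.factorization l : ℕ)) =
      (s : ℝ) ^ ((11 : ℝ) / 4) := by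
    have : ∀ l ∈ s.primeFactors, (l : ℝ) ^ ((11 : ℝ) / 4 * (s.factorization l : ℕ)) =
        ((l : ℝ) ^ (s.factorization l)) ^ ((11 : ℝ) / 4) := by
      intro l _
      rw [mul_comm, Real.rpow_mul (Nat.cast_nonneg _), Real.rpow_natCast]
    rw [Finset.prod_congr rfl this, Real.finsetProd_rpow _ _ (fun l _ => by positivity)]
    congr 1
    have h := Nat.prod_factorization_pow_eq_self hs0
    rw [Finsupp.prod, Nat.support_factorization] at h
    conv_rhs => rw [← h]
    push_cast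
    rfl
  have b4 : ∏ l ∈ s.primeFactors, ((l : ℝ) ^ ((mi2 G).factorization l)) ^ 5 ≤ (mi2 G : ℝ) ^ 5 := by
    rw [Finset.prod_pow]
    apply pow_le_pow_left₀ (Finset.prod_nonneg fun l _ => by positivity)
    have := Nat.le_of_dvd hmi (resG_prod_dvd hmi.ne' s.primeFactors)
    exact_mod_cast this
  have p1 : 0 ≤ ∏ l ∈ s.primeFactors, (2 : ℝ) ^ (144 * ta l) :=
    Finset.prod_nonneg fun l _ => by positivity
  have p2 : 0 ≤ ∏ l ∈ s.primeFactors, (20 * (((s.factorization l : ℕ) : ℝ) + 1)) :=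
    Finset.prod_nonneg fun l _ => by positivity
  have p4 : 0 ≤ ∏ l ∈ s.primeFactors, ((l : ℝ) ^ ((mi2 G).factorization l)) ^ 5 :=
    Finset.prod_nonneg fun l _ => by positivity
  rw [b3]
  have ps : (0 : ℝ) ≤ (s : ℝ) ^ ((11 : ℝ) / 4) := by positivity
  have pd : (0 : ℝ) ≤ (s.divisors.card : ℝ) ^ 6 := by positivity
  have p5 : (0 : ℝ) ≤ 2 ^ 144 := by positivity
  refine mul_le_mul (mul_le_mul_of_nonneg_right (mul_le_mul b1 b2 p2 p5) ps) b4 p4 ?_
  exact mul_nonneg (mul_nonneg p5 pd) ps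

end Pool.Agent.PP5N
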