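import Pool.Agent.PP5N.Defs
import Pool.Agent.PP5N.ResG

/-!
# PP5 (d1): THEOREM RES
-/

set_option autoImplicit false

namespace Pool.Agent.PP5N

open Matrix Pool.Agent.PP5B

/-- integers in `[-B, B]` in one residue class modulo `s` -/
private theorem Res_one {s : ℕ} (hs : 0 < s) {B : ℝ} (A : Finset ℤ)
    (hA : ∀ a ∈ A, |(a : ℝ)| ≤ B) (hc : ∀ a ∈ A, ∀ b ∈ A, (s : ℤ) ∣ a - b) (hB : 0 ≤ B) :
    (A.card : ℝ) ≤ 1 + 2 * B / s := by
  have hs' : (0 : ℝ) < s := by exact_mod_cast hs
  have hsz : (0 : ℤ) < s := by exact_mod_cast hs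
  rcases A.eq_empty_or_nonempty with h0 | h0
  · rw [h0, Finset.card_empty]
    have : 0 ≤ 2 * B / (s : ℝ) := by positivity
    push_cast
    linarith
  · set a := A.min' h0 with ha
    have haA : a ∈ A := A.min'_mem h0
    have hinj : A.card ≤ (Finset.range (⌊2 * B / (s : ℝ)⌋₊ + 1)).card := by
      refine Finset.card_le_card_of_injOn (fun k => ((k - a) / (s : ℤ)).toNat) ?_ ?_
      · intro k hk
        have hk' : k ∈ A := hk
        have h1 : a ≤ k := A.min'_le k hk'
        have h2 : (0 : ℤ) ≤ (k - a) / (s : ℤ) := Int.ediv_nonneg (by linarith) hsz.le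
        simp only [Finset.coe_range, Set.mem_Iio]
        refine Nat.lt_succ_of_le (Nat.le_floor ?_)
        rw [le_div_iff₀ hs']
        obtain ⟨q, hq⟩ := hc k hk' a haA
        have h3 : (k - a) / (s : ℤ) = q := by rw [hq]; exact Int.mul_ediv_cancel_left q hsz.ne'
        rw [h3] at h2 ⊢
        have h4 : ((q.toNat : ℕ) : ℤ) = q := Int.toNat_of_nonneg h2
        have h5 : (((q.toNat : ℕ) : ℝ)) = (q : ℝ) := by
          have e := congrArg (Int.cast (R := ℝ)) h4
          rw [Int.cast_natCast] at e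
          exact e
        rw [h5]
        have h6 : ((k : ℝ) - a) = s * q := by
          have := congrArg (fun z : ℤ => (z : ℝ)) hq
          push_cast at this
          exact this
        have h7 := abs_le.1 (hA k hk')
        have h8 := abs_le.1 (hA a haA)
        nlinarith
      · intro k hk k' hk' he
        have hk1 : k ∈ A := hk
        have hk2 : k' ∈ A := hk'
        have h1 : a ≤ k := A.min'_le k hk1
        have h1' : a ≤ k' := A.min'_le k' hk2
        obtain ⟨q, hq⟩ := hc k hk1 a haA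
        obtain ⟨q', hq'⟩ := hc k' hk2 a haA
        have h3 : (k - a) / (s : ℤ) = q := by rw [hq]; exact Int.mul_ediv_cancel_left q hsz.ne'
        have h3' : (k' - a) / (s : ℤ) = q' := by
          rw [hq']; exact Int.mul_ediv_cancel_left q' hsz.ne'
        have h2 : (0 : ℤ) ≤ (k - a) / (s : ℤ) := Int.ediv_nonneg (by linarith) hsz.le
        have h2' : (0 : ℤ) ≤ (k' - a) / (s : ℤ) := Int.ediv_nonneg (by linarith) hsz.le
        simp only at he
        rw [h3] at he h2
        rw [h3'] at he h2'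
        have h4 : q = q' := by
          have e1 : ((q.toNat : ℕ) : ℤ) = q := Int.toNat_of_nonneg h2
          have e2 : ((q'.toNat : ℕ) : ℤ) = q' := Int.toNat_of_nonneg h2'
          rw [← e1, ← e2, he]
        rw [h4] at hq
        linarith
    rw [Finset.card_range] at hinj
    have h9 : (A.card : ℝ) ≤ (⌊2 * B / (s : ℝ)⌋₊ : ℝ) + 1 := by exact_mod_cast hinj
    have h10 : (⌊2 * B / (s : ℝ)⌋₊ : ℝ) ≤ 2 * B / s := Nat.floor_le (by positivity)
    linarith

/-- THEOREM RES (size 3).  In every residue class modulo `s` the box `|m i| ≤ u w i` has at most `∏ (1 + 2 u w i / s)` points. -/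
theorem res {w : Fin 4 → ℝ} (hw : ∀ i, 0 < w i) {u : ℝ} (hu : 0 < u)
    {G : Matrix (Fin 4) (Fin 4) ℤ} (hsym : ∀ i j, G i j = G j i) (hev : ∀ i, 2 ∣ G i i)
    (hdet : G.det ≠ 0) {s : ℕ} (hs : 0 < s) (X : Finset (Fin 4 → ℤ))
    (hX : ∀ m ∈ X, Pr4 m ∧ mnQ G m ((s : ℤ) ^ 2) ∧ ∀ i, |(m i : ℝ)| ≤ u * w i) :
    (X.card : ℝ) ≤ 2 ^ 144 * (s.divisors.card : ℝ) ^ 6 * (s : ℝ) ^ ((11 : ℝ) / 4) * (mi2 G : ℝ) ^ 5 *
      ∏ i, (1 + 2 * u * w i / s) := by
  classical
  have hs' : (0 : ℝ) < s := by exact_mod_cast hs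
  set f : (Fin 4 → ℤ) → (Fin 4 → ZMod s) := fun m i => (m i : ZMod s) with hf
  have hT := resG hsym hev hdet hs (X.image f) (by
    intro t ht
    obtain ⟨m, hm, rfl⟩ := Finset.mem_image.1 ht
    exact ⟨m, fun i => rfl, (hX m hm).1, (hX m hm).2.1⟩)
  have hP : 0 ≤ ∏ i, (1 + 2 * u * w i / s) := Finset.prod_nonneg fun i _ => by
    have := hw i
    positivity
  have hcard : (X.card : ℝ) ≤ ((X.image f).card : ℝ) * ∏ i, (1 + 2 * u * w i / s) := by
    rw [Finset.card_eq_sum_card_image f X]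
    push_cast
    rw [← nsmul_eq_mul, ← Finset.sum_const]
    refine Finset.sum_le_sum fun t ht => ?_
    set F := X.filter (fun x => f x = t) with hF
    have h1 : F ⊆ Fintype.piFinset fun i => F.image (fun m => m i) := by
      intro m hm
      rw [Fintype.mem_piFinset]
      intro i
      exact Finset.mem_image_of_mem _ hm
    have h2 : (F.card : ℝ) ≤ ∏ i, ((F.image (fun m => m i)).card : ℝ) := by
      have := Finset.card_le_card h1
      rw [Fintype.card_piFinset] at this
      exact_mod_cast this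
    refine h2.trans (Finset.prod_le_prod (fun i _ => Nat.cast_nonneg _) fun i _ => ?_)
    have h3 := Res_one hs (B := u * w i) (F.image (fun m => m i)) (by
      intro a ha
      obtain ⟨m, hm, rfl⟩ := Finset.mem_image.1 ha
      exact (hX m (Finset.mem_filter.1 hm).1).2.2 i) (by
      intro a ha b hb
      obtain ⟨m, hm, rfl⟩ := Finset.mem_image.1 ha
      obtain ⟨m', hm', rfl⟩ := Finset.mem_image.1 hb
      have e1 := (Finset.mem_filter.1 hm).2
      have e2 := (Finset.mem_filter.1 hm').2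
      have e3 : (m i : ZMod s) = (m' i : ZMod s) := congrFun (e1.trans e2.symm) i
      rw [ZMod.intCast_eq_intCast_iff_dvd_sub] at e3
      have e4 := (dvd_neg (α := ℤ)).2 e3
      rw [neg_sub] at e4
      exact e4) (mul_nonneg hu.le (hw i).le)
    refine h3.trans (le_of_eq ?_)
    ring
  calc (X.card : ℝ) ≤ ((X.image f).card : ℝ) * ∏ i, (1 + 2 * u * w i / s) := hcard
    _ ≤ _ := mul_le_mul_of_nonneg_right hT hP

end Pool.Agent.PP5N
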