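import Pool.Agent.PP5B.Igl
import Pool.Agent.PP5.DB

/-!
# PP5, section (d1): bad pairs.  Definitions

`G` is a symmetric integral `4 x 4` matrix with `det G` non zero; `mnQ G m n` (PP5B) means: `n` divides all
`2 x 2` minors of `G` on the orthogonal complement of `m`.
-/

set_option autoImplicit false

namespace Pool.Agent.PP5N

open Matrix Pool.Agent.PP5B

/-- the slack at the prime `l` -/
def kp (l : ℕ) : ℕ := if l = 2 then 6 else 0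

/-- `1` at the prime `2` -/
def ta (l : ℕ) : ℕ := if l = 2 then 1 else 0

/-- `d i = l ^ (v i) * unit at l`, the exponents are nondecreasing -/
structure Vd (l : ℕ) (d : Fin 4 → ℤ) (v : Fin 4 → ℕ) : Prop where
  val : ∀ i, ∃ g : ℤ, d i = (l : ℤ) ^ (v i) * g ∧ ¬ (l : ℤ) ∣ g
  m01 : v 0 ≤ v 1
  m12 : v 1 ≤ v 2
  m23 : v 2 ≤ v 3

/-- four `G`-orthogonal vectors `e i` with values `d i`, whose determinant is almost prime to `l` -/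
structure Orth (G : Matrix (Fin 4) (Fin 4) ℤ) (l : ℕ) (e : Fin 4 → Fin 4 → ℤ) (d : Fin 4 → ℤ)
    (v : Fin 4 → ℕ) : Prop where
  orth : ∀ i k, i ≠ k → e i ⬝ᵥ (G *ᵥ e k) = 0
  dd : ∀ i, e i ⬝ᵥ (G *ᵥ e i) = d i
  vd : Vd l d v
  det : ¬ (l : ℤ) ^ (kp l + 1) ∣ (Matrix.of e).det

/-- the form `d 1 * d k * a 0 ^ 2 + d 0 * d k * a 1 ^ 2 + d 0 * d 1 * a k ^ 2` (`k = 2, 3`) -/
def ff (d : Fin 4 → ℤ) (k : Fin 4) (a : Fin 4 → ℤ) : ℤ :=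
  d 1 * d k * a 0 ^ 2 + d 0 * d k * a 1 ^ 2 + d 0 * d 1 * a k ^ 2

/-- the polar form of `ff` -/
def fp (d : Fin 4 → ℤ) (k : Fin 4) (a b : Fin 4 → ℤ) : ℤ :=
  2 * (d 1 * d k * (a 0 * b 0) + d 0 * d k * (a 1 * b 1) + d 0 * d 1 * (a k * b k))

/-- the congruences satisfied by the coordinates `a i = m . e i` of a bad `m` -/
structure Cg (n : ℤ) (d a : Fin 4 → ℤ) : Prop where
  c23 : n ∣ a 2 * a 3 * (d 0 * d 1)
  c02 : n ∣ a 0 * a 2 * (d 1 * d 3)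
  c12 : n ∣ a 1 * a 2 * (d 0 * d 3)
  c03 : n ∣ a 0 * a 3 * (d 1 * d 2)
  c13 : n ∣ a 1 * a 3 * (d 0 * d 2)
  f2 : n ∣ ff d 2 a
  f3 : n ∣ ff d 3 a

/-- the gcd of the `2 x 2` minors of `G` -/
def mi2 (G : Matrix (Fin 4) (Fin 4) ℤ) : ℕ :=
  Finset.univ.gcd fun p : (Fin 4 × Fin 4) × (Fin 4 × Fin 4) =>
    (G p.1.1 p.2.1 * G p.1.2 p.2.2 - G p.1.1 p.2.2 * G p.1.2 p.2.1).natAbs

/-- the gcd of the `3 x 3` minors of `G` -/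
def mi3 (G : Matrix (Fin 4) (Fin 4) ℤ) : ℕ :=
  Finset.univ.gcd fun p : Fin 4 × Fin 4 => (G.adjugate p.1 p.2).natAbs

theorem mi2_dvd (G : Matrix (Fin 4) (Fin 4) ℤ) (i i' k k' : Fin 4) :
    (mi2 G : ℤ) ∣ G i k * G i' k' - G i k' * G i' k :=
  Int.natCast_dvd.2 (Finset.gcd_dvd (Finset.mem_univ ((i, i'), (k, k'))))

theorem mi3_dvd (G : Matrix (Fin 4) (Fin 4) ℤ) (i k : Fin 4) : (mi3 G : ℤ) ∣ G.adjugate i k := by
  have h := Finset.gcd_dvd (s := Finset.univ)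
    (f := fun p : Fin 4 × Fin 4 => (G.adjugate p.1 p.2).natAbs) (Finset.mem_univ (i, k))
  dsimp only at h
  rw [← Int.natCast_dvd] at h
  unfold mi3
  exact h

theorem dvd_mi2 {G : Matrix (Fin 4) (Fin 4) ℤ} {n : ℕ}
    (h : ∀ i i' k k', (n : ℤ) ∣ G i k * G i' k' - G i k' * G i' k) : n ∣ mi2 G :=
  Finset.dvd_gcd fun p _ => Int.natCast_dvd.1 (h p.1.1 p.1.2 p.2.1 p.2.2)

theorem dvd_mi3 {G : Matrix (Fin 4) (Fin 4) ℤ} {n : ℕ}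
    (h : ∀ i k, (n : ℤ) ∣ G.adjugate i k) : n ∣ mi3 G :=
  Finset.dvd_gcd fun p _ => Int.natCast_dvd.1 (h p.1 p.2)

/-- the lattice of the `m` with `l ^ i | m . e 2`, `l ^ j | m . e 3` -/
def gam (e : Fin 4 → Fin 4 → ℤ) (l i j : ℕ) : AddSubgroup (Fin 4 → ℤ) where
  carrier := {m | (l : ℤ) ^ i ∣ m ⬝ᵥ e 2 ∧ (l : ℤ) ^ j ∣ m ⬝ᵥ e 3}
  zero_mem' := by constructor <;> simp
  add_mem' := by
    rintro a b ⟨h1, h2⟩ ⟨h3, h4⟩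
    refine ⟨?_, ?_⟩
    · rw [add_dotProduct]; exact dvd_add h1 h3
    · rw [add_dotProduct]; exact dvd_add h2 h4
  neg_mem' := by
    rintro a ⟨h1, h2⟩
    refine ⟨?_, ?_⟩
    · rw [neg_dotProduct]; exact (dvd_neg).2 h1
    · rw [neg_dotProduct]; exact (dvd_neg).2 h2

theorem mem_gam {e : Fin 4 → Fin 4 → ℤ} {l i j : ℕ} {m : Fin 4 → ℤ} :
    m ∈ gam e l i j ↔ (l : ℤ) ^ i ∣ m ⬝ᵥ e 2 ∧ (l : ℤ) ^ j ∣ m ⬝ᵥ e 3 := Iff.rfl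

/-- no prime divides all `2 x 2` minors of the pair -/
def Pr2 (p q : Fin 4 → ℤ) : Prop :=
  ∀ l : ℕ, l.Prime → ∃ i k, ¬ (l : ℤ) ∣ p i * q k - p k * q i

end Pool.Agent.PP5N
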